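import Pool.Agent.Run7.h560.AP.Pair

set_option autoImplicit false

/-!
# The counting functions in terms of sets
-/

namespace Pool.Agent.Run7.h560.AP

open Finset

variable {σ : Type}

/-- The set of the integers whose base-`b` digits (the least significant digit first) are accepted by the automaton `M`. -/
def autoSet (b : ℕ) (M : DFA ℕ σ) : Set ℕ := {n | Nat.digits b n ∈ M.accepts}

/-- The set of the integers all of whose base-`b` digits lie in `S`. -/
def digitSet (b : ℕ) (S : Finset ℕ) : Set ℕ := {n | ∀ d ∈ Nat.digits b n, d ∈ S}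

/-- The number of the elements of `A` below `x`. -/
noncomputable def below (A : Set ℕ) (x : ℕ) : ℕ := Set.ncard {n : ℕ | n ∈ A ∧ n < x}

/-- `A` is not sparse: for every `j` it has more than `(log x)^j` elements below `x` for arbitrarily large `x`. -/
def NonSparse (A : Set ℕ) : Prop := ∀ j : ℕ, ∃ᶠ x : ℕ in Filter.atTop, Real.log x ^ j < (below A x : ℝ)

/-- `n` has at most `R` prime factors, counted with multiplicity, and all of them exceed `y`. -/
def Almost (R : ℕ) (y : ℝ) (n : ℕ) : Prop :=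
  n ≠ 0 ∧ n.primeFactorsList.length ≤ R ∧ ∀ p : ℕ, p.Prime → p ∣ n → y < p

lemma digit_auto (b : ℕ) (S : Finset ℕ) : digitSet b S = autoSet b (dfa S) := by
  ext n
  unfold digitSet autoSet
  rw [Set.mem_ofPred_eq, Set.mem_ofPred_eq, mem_dfa]
  rfl

lemma cnt_ncard (b : ℕ) (M : DFA ℕ σ) (N : ℕ) (E : ℕ → Prop) :
    cnt b M N E = Set.ncard {n : ℕ | n ∈ autoSet b M ∧ n < N ∧ E n} := by
  classical
  unfold cnt
  rw [← Set.ncard_coe_finset]
  congr 1
  ext n
  rw [mem_coe, mem_filter, mem_range, Set.mem_ofPred_eq]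
  unfold autoSet
  rw [Set.mem_ofPred_eq]
  tauto

lemma below_cnt (b : ℕ) (M : DFA ℕ σ) (N : ℕ) : below (autoSet b M) N = cnt b M N (fun _ => True) := by
  rw [cnt_ncard]
  unfold below
  congr 1
  ext n
  simp

lemma fin_lt (N : ℕ) (A : Set ℕ) (h : ∀ n ∈ A, n < N) : A.Finite :=
  (Set.finite_lt_nat N).subset h

/-- comparison of an arbitrary set with the counting function -/
lemma ncard_le_cnt (b : ℕ) (M : DFA ℕ σ) (N : ℕ) (E : ℕ → Prop) (A : Set ℕ)
    (h : ∀ n ∈ A, n ∈ autoSet b M ∧ n < N ∧ E n) : A.ncard ≤ cnt b M N E := by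
  rw [cnt_ncard]
  exact Set.ncard_le_ncard (t := {n : ℕ | n ∈ autoSet b M ∧ n < N ∧ E n}) h (fin_lt N _ (fun n hn => hn.2.1))

/-- comparison of the counting function with an arbitrary set, up to a finite set -/
lemma cnt_le_ncard (b : ℕ) (M : DFA ℕ σ) (N : ℕ) (E : ℕ → Prop) (A : Set ℕ) (hA : A.Finite) (T : Finset ℕ)
    (h : ∀ n, n ∈ autoSet b M → n < N → E n → n ∈ A ∨ n ∈ T) : cnt b M N E ≤ A.ncard + T.card := by
  rw [cnt_ncard]
  calc Set.ncard {n : ℕ | n ∈ autoSet b M ∧ n < N ∧ E n} ≤ (A ∪ (T : Set ℕ)).ncard := by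
        apply Set.ncard_le_ncard _ (hA.union T.finite_toSet)
        rintro n ⟨h1, h2, h3⟩
        exact h n h1 h2 h3
    _ ≤ A.ncard + (T : Set ℕ).ncard := Set.ncard_union_le _ _
    _ = _ := by rw [Set.ncard_coe_finset]

lemma nonsparse (b : ℕ) (M : DFA ℕ σ) (h : NonSparse (autoSet b M)) :
    ∀ k : ℕ, ∃ᶠ N : ℕ in Filter.atTop, Real.log N ^ k < (cnt b M N (fun _ => True) : ℝ) := by
  intro k
  refine (h k).mono ?_
  intro N hN
  rwa [below_cnt] at hN

end Pool.Agent.Run7.h560.AP
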