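import Pool.Agent.Run7.h560.AP.Shift

set_option autoImplicit false

/-!
# Polynomials: roots modulo primes and the size of the values
-/

namespace Pool.Agent.Run7.h560.AP

open Finset Polynomial
open Pool.Agent.R459.Eq

/-- the number of the residue classes `t` modulo `p` for which `p` divides `F t` -/
noncomputable def rt (F : ℤ[X]) (p : ℕ) : ℕ := by
  classical
  exact ((range p).filter (fun t : ℕ => (p : ℤ) ∣ F.eval (t : ℤ))).card

lemma rt_le_self (F : ℤ[X]) (p : ℕ) : rt F p ≤ p := by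
  classical
  unfold rt
  refine (card_filter_le _ _).trans ?_
  rw [card_range]

lemma rt_le (F : ℤ[X]) (p : ℕ) (hp : p.Prime) (h : ¬ (p : ℤ) ∣ F.leadingCoeff) : rt F p ≤ F.natDegree := by
  classical
  have : Fact p.Prime := ⟨hp⟩
  obtain ⟨Q, hQ⟩ : ∃ Q : (ZMod p)[X], Q = F.map (Int.castRingHom (ZMod p)) := ⟨_, rfl⟩
  have hQ0 : Q ≠ 0 := by
    intro h0
    apply h
    have h1 : Q.coeff F.natDegree = 0 := by rw [h0, coeff_zero]
    rw [hQ, coeff_map, eq_intCast, ZMod.intCast_zmod_eq_zero_iff_dvd] at h1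
    exact h1
  unfold rt
  calc ((range p).filter (fun t : ℕ => (p : ℤ) ∣ F.eval (t : ℤ))).card ≤ Q.roots.toFinset.card := by
        apply card_le_card_of_injOn (fun t : ℕ => (t : ZMod p))
        · intro t ht
          rw [mem_coe, mem_filter] at ht
          rw [mem_coe, Multiset.mem_toFinset, mem_roots hQ0, IsRoot.def, hQ]
          simp only
          have h2 : (t : ZMod p) = Int.castRingHom (ZMod p) (t : ℤ) := by simp
          rw [h2, eval_map, eval₂_hom, eq_intCast, ZMod.intCast_zmod_eq_zero_iff_dvd]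
          exact ht.2
        · intro t ht t' ht' htt
          rw [mem_coe, mem_filter, mem_range] at ht ht'
          simp only at htt
          have h3 := (ZMod.natCast_eq_natCast_iff' t t' p).1 htt
          rwa [Nat.mod_eq_of_lt ht.1, Nat.mod_eq_of_lt ht'.1] at h3
    _ ≤ Multiset.card Q.roots := Multiset.toFinset_card_le _
    _ ≤ Q.natDegree := card_roots' Q
    _ ≤ F.natDegree := by rw [hQ]; exact natDegree_map_le

lemma rt_le' (F : ℤ[X]) (p : ℕ) (hp : p.Prime) (h : ∃ j, ¬ (p : ℤ) ∣ F.coeff j) : rt F p ≤ F.natDegree := by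
  classical
  have : Fact p.Prime := ⟨hp⟩
  obtain ⟨Q, hQ⟩ : ∃ Q : (ZMod p)[X], Q = F.map (Int.castRingHom (ZMod p)) := ⟨_, rfl⟩
  have hQ0 : Q ≠ 0 := by
    obtain ⟨j, hj⟩ := h
    intro h0
    apply hj
    have h1 : Q.coeff j = 0 := by rw [h0, coeff_zero]
    rw [hQ, coeff_map, eq_intCast, ZMod.intCast_zmod_eq_zero_iff_dvd] at h1
    exact h1
  unfold rt
  calc ((range p).filter (fun t : ℕ => (p : ℤ) ∣ F.eval (t : ℤ))).card ≤ Q.roots.toFinset.card := by
        apply card_le_card_of_injOn (fun t : ℕ => (t : ZMod p))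
        · intro t ht
          rw [mem_coe, mem_filter] at ht
          rw [mem_coe, Multiset.mem_toFinset, mem_roots hQ0, IsRoot.def, hQ]
          simp only
          have h2 : (t : ZMod p) = Int.castRingHom (ZMod p) (t : ℤ) := by simp
          rw [h2, eval_map, eval₂_hom, eq_intCast, ZMod.intCast_zmod_eq_zero_iff_dvd]
          exact ht.2
        · intro t ht t' ht' htt
          rw [mem_coe, mem_filter, mem_range] at ht ht'
          simp only at htt
          have h3 := (ZMod.natCast_eq_natCast_iff' t t' p).1 htt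
          rwa [Nat.mod_eq_of_lt ht.1, Nat.mod_eq_of_lt ht'.1] at h3
    _ ≤ Multiset.card Q.roots := Multiset.toFinset_card_le _
    _ ≤ Q.natDegree := card_roots' Q
    _ ≤ F.natDegree := by rw [hQ]; exact natDegree_map_le

/-- the indicator of the multiples of `p` -/
noncomputable def fd (F : ℤ[X]) (p : ℕ) (n : ℤ) : ℝ := by
  classical
  exact if (p : ℤ) ∣ F.eval n then 1 else 0

lemma fd_01 (F : ℤ[X]) (p : ℕ) (n : ℤ) : fd F p n = 0 ∨ fd F p n = 1 := by
  unfold fd
  split_ifs
  · right; rfl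
  · left; rfl

lemma fd_eq_zero (F : ℤ[X]) (p : ℕ) (n : ℤ) : fd F p n = 0 ↔ ¬ (p : ℤ) ∣ F.eval n := by
  unfold fd
  split_ifs with h
  · simp [h]
  · simp [h]

lemma fd_per (F : ℤ[X]) (p : ℕ) : Per p (fd F p) := by
  intro m n h
  unfold fd
  have h1 : (p : ℤ) ∣ F.eval m - F.eval n := h.trans (sub_dvd_eval_sub m n F)
  have h2 : (p : ℤ) ∣ F.eval m ↔ (p : ℤ) ∣ F.eval n := by
    constructor
    · intro h3
      have := dvd_sub h3 h1
      rwa [sub_sub_cancel] at this
    · intro h3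
      have := dvd_add h1 h3
      rwa [sub_add_cancel] at this
  simp only [h2]

lemma fd_mean (F : ℤ[X]) (p : ℕ) : mean p (fd F p) = (rt F p : ℝ) / p := by
  classical
  unfold mean rt fd
  congr 1
  rw [card_filter]
  push_cast
  rfl

/-- the size of the values -/
lemma poly_size (F : ℤ[X]) : ∃ D : ℕ, ∀ N : ℕ, 2 ≤ N → ∀ u : ℕ, u ≤ N → (F.eval (u : ℤ)).natAbs ≤ N ^ D := by
  induction F using Polynomial.induction_on' with
  | add p q hp hq =>
    obtain ⟨D1, h1⟩ := hp
    obtain ⟨D2, h2⟩ := hq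
    refine ⟨D1 + D2 + 1, fun N hN u hu => ?_⟩
    rw [eval_add]
    refine (Int.natAbs_add_le _ _).trans ?_
    have e1 := h1 N hN u hu
    have e2 := h2 N hN u hu
    have e3 : N ^ D1 ≤ N ^ (D1 + D2) := Nat.pow_le_pow_right (by omega) (by omega)
    have e4 : N ^ D2 ≤ N ^ (D1 + D2) := Nat.pow_le_pow_right (by omega) (by omega)
    calc (eval (u : ℤ) p).natAbs + (eval (u : ℤ) q).natAbs ≤ N ^ (D1 + D2) + N ^ (D1 + D2) := by omega
      _ = N ^ (D1 + D2) * 2 := by ring
      _ ≤ N ^ (D1 + D2) * N := Nat.mul_le_mul_left _ hN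
      _ = N ^ (D1 + D2 + 1) := (pow_succ _ _).symm
  | monomial n a =>
    refine ⟨a.natAbs + n, fun N hN u hu => ?_⟩
    rw [eval_monomial, Int.natAbs_mul, Int.natAbs_pow, Int.natAbs_natCast, pow_add]
    apply Nat.mul_le_mul
    · calc a.natAbs ≤ 2 ^ a.natAbs := Nat.lt_two_pow_self.le
        _ ≤ N ^ a.natAbs := Nat.pow_le_pow_left hN _
    · exact Nat.pow_le_pow_left hu n

/-- few prime factors if all of them are large -/
lemma few_factors (x z D : ℕ) (hx : x ≠ 0) (hz : 2 ≤ z) (h : ∀ p : ℕ, p.Prime → p ∣ x → z < p) (hD : x ≤ z ^ D) :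
    x.primeFactorsList.length ≤ D := by
  have h1 : z ^ x.primeFactorsList.length ≤ x := by
    calc z ^ x.primeFactorsList.length ≤ x.primeFactorsList.prod := by
          apply List.pow_card_le_prod
          intro p hp
          exact (h p (Nat.prime_of_mem_primeFactorsList hp) (Nat.dvd_of_mem_primeFactorsList hp)).le
      _ = x := Nat.prod_primeFactorsList hx
  exact (Nat.pow_le_pow_iff_right (by omega : 1 < z)).1 (h1.trans hD)

/-- dropping factors -/
lemma prod_drop (S P : Finset ℕ) (hP : P ⊆ S) (g : ℕ → ℝ) (h0 : ∀ p ∈ S, 0 ≤ g p) (h1 : ∀ p ∈ S, g p ≤ 1) :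
    ∏ p ∈ S, g p ≤ ∏ p ∈ P, g p := by
  classical
  rw [← prod_sdiff hP]
  apply mul_le_of_le_one_left (prod_nonneg fun p hp => h0 p (hP hp))
  exact prod_le_one (fun p hp => h0 p (mem_sdiff.1 hp).1) (fun p hp => h1 p (mem_sdiff.1 hp).1)

end Pool.Agent.Run7.h560.AP
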