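import Pool.Agent.Run7.h560.AP.Fund
import Pool.Agent.Run7.h560.AP.Poly
import Pool.Agent.H491R4.AF1

set_option autoImplicit false

/-!
# Almost prime values of polynomials at the members of automatic sets
-/

namespace Pool.Agent.Run7.h560.AP

open Finset Polynomial
open Pool.Agent.R459.Eq
open Pool.Agent.H807R2.Dav
open Pool.Agent.TH872.Mir (Far farCount)
open Pool.Agent.W93.AU
open Pool.Agent.H491R4.AF (mixw mixw_sum mixw_char char_poly cB cB_pos cB_le far_gc)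

variable {σ : Type}

open Classical in
/-- The number of the integers `0 ≤ n < N` with the property `E` whose digits in base `b` (the least significant digit
first) are accepted by the automaton `M`. -/
noncomputable def cnt (b : ℕ) (M : DFA ℕ σ) (N : ℕ) (E : ℕ → Prop) : ℕ :=
  ((range N).filter (fun n => Nat.digits b n ∈ M.accepts ∧ E n)).card

lemma cnt_mono (b : ℕ) (M : DFA ℕ σ) {N N' : ℕ} (hN : N ≤ N') {E E' : ℕ → Prop} (h : ∀ v, v < N → E v → E' v) :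
    cnt b M N E ≤ cnt b M N' E' := by
  classical
  unfold cnt
  apply card_le_card
  intro v hv
  rw [mem_filter, mem_range] at hv ⊢
  exact ⟨by omega, hv.2.1, h v hv.1 hv.2.2⟩

/-- the characteristic function of the uniform distribution on the accepted integers -/
theorem unif (B : ℕ) (hB : 2 ≤ B) (δ : σ → ℕ → σ) (F : σ → Prop) (s0 : σ) (κ₀ : ℕ) (C ρ : ℝ) (k : ℕ)
    (hG : Gro B δ F s0 (R1 B δ) κ₀ C ρ k) (hρ : 1 < ρ) : ∃ A : ℕ, ∀ m, κ₀ ≤ m →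
    0 < Ac B δ F m s0 → ∀ t₀ : ℕ, 1 + C ^ 2 * ((m : ℝ) + 1) ^ k ≤ 2 ^ t₀ → ∀ (θ : ℝ) (N : ℕ), t₀ ≤ N →
    A * (N + 1) ≤ far B (B.factorial : ℤ) m θ →
    ‖ph (range (B ^ m)) (mixw B δ F s0 m 1) (fun u : ℕ => (u : ℤ)) θ‖ ≤ (1 / 2) ^ N := by
  classical
  obtain ⟨l, hl0, hl1, h1⟩ := char_poly B δ F s0 (R1 B δ) κ₀ C ρ k hG hρ (fun s hs => hs) (cB B) (cB_pos B hB) (cB_le B hB)
  obtain ⟨R, hR⟩ := exists_pow_lt_of_lt_one (show (0 : ℝ) < 1 / 4 by norm_num) hl1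
  refine ⟨2 * R + κ₀, fun m hm hpos t₀ ht₀ θ N hN0 hN => ?_⟩
  have hB0 : (0 : ℝ) < B := by exact_mod_cast (by omega : 0 < B)
  have e0 : ph (range (B ^ m)) (mixw B δ F s0 m 1) (fun u : ℕ => (u : ℤ)) θ =
      ∑ u ∈ range (B ^ m), (mixw B δ F s0 m 1 u : ℂ) * ee ((((0 : ℤ) + (1 : ℤ) * (u : ℕ) : ℤ) : ℝ) * θ) := by
    unfold ph
    apply sum_congr rfl
    intro u _
    rw [zero_add, one_mul]
  have e1 : far B (B.factorial : ℤ) m θ = farCount B B.factorial m (((1 : ℤ) : ℝ) * θ) := by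
    have := far_eq B B.factorial m 1 θ
    rwa [mul_one] at this
  rw [e1] at hN
  rw [e0, mixw_char B hB, norm_mul, norm_ee, one_mul, sub_self, zero_mul, Complex.ofReal_zero, zero_mul, zero_add, one_mul]
  have f1 := far_gc B hB κ₀ m (((1 : ℤ) : ℝ) * θ)
  have f3 : 2 * (R * (N + 1)) + κ₀ ≤ (2 * R + κ₀) * (N + 1) := by nlinarith
  have g1 := h1 m hm (((1 : ℤ) : ℝ) * θ) (R * (N + 1)) (by omega)
  have g5 : l ^ (R * (N + 1)) ≤ (1 / 4 : ℝ) ^ N := by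
    rw [pow_mul]
    calc (l ^ R) ^ (N + 1) ≤ (1 / 4) ^ (N + 1) := pow_le_pow_left₀ (by positivity) hR.le _
      _ ≤ (1 / 4) ^ N := pow_le_pow_of_le_one (by norm_num) (by norm_num) (by omega)
  have g6 : (2 : ℝ) ^ t₀ ≤ 2 ^ N := pow_le_pow_right₀ (by norm_num) hN0
  have hP0 : 0 ≤ 1 + C ^ 2 * ((m : ℝ) + 1) ^ k := by positivity
  rw [norm_mul, Complex.norm_real, Real.norm_eq_abs, abs_of_nonneg (by positivity)]
  calc (1 / Ac B δ F m s0) * ‖Tc B δ F m s0 (((1 : ℤ) : ℝ) * θ)‖ ≤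
      (1 / Ac B δ F m s0) * (l ^ (R * (N + 1)) * (1 + C ^ 2 * ((m : ℝ) + 1) ^ k) * Ac B δ F m s0) :=
        mul_le_mul_of_nonneg_left g1 (by positivity)
    _ = l ^ (R * (N + 1)) * (1 + C ^ 2 * ((m : ℝ) + 1) ^ k) := by field_simp
    _ ≤ (1 / 4 : ℝ) ^ N * 2 ^ N := mul_le_mul g5 (ht₀.trans g6) hP0 (by positivity)
    _ = (1 / 2) ^ N := by rw [← mul_pow]; norm_num

lemma t0_exists (B k : ℕ) (hB : 2 ≤ B) (C : ℝ) : ∃ m₁ : ℕ, ∀ m : ℕ, m₁ ≤ m → ∃ t₀ : ℕ,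
    1 + C ^ 2 * ((m : ℝ) + 1) ^ k ≤ 2 ^ t₀ ∧ B ^ t₀ ≤ m ^ ((k + 2) * B) := by
  obtain ⟨K₀, hK₀⟩ := poly_le (C ^ 2) (by positivity) k
  refine ⟨K₀ + 2, fun m hm => ⟨Nat.clog 2 (m ^ (k + 1)), ?_, ?_⟩⟩
  · refine (hK₀ m (by omega)).trans ?_
    have h1 : m ^ (k + 1) ≤ 2 ^ Nat.clog 2 (m ^ (k + 1)) := Nat.le_pow_clog (by norm_num) _
    exact_mod_cast h1
  · have h0 : 1 < m ^ (k + 1) := Nat.one_lt_pow (by omega) (by omega)
    have h1 := Nat.pow_pred_clog_lt_self (by norm_num : 1 < 2) h0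
    have h2 : 1 ≤ Nat.clog 2 (m ^ (k + 1)) := Nat.clog_pos (by norm_num) (by omega)
    have h3 : 2 ^ Nat.clog 2 (m ^ (k + 1)) ≤ m ^ (k + 2) := by
      calc 2 ^ Nat.clog 2 (m ^ (k + 1)) = 2 * 2 ^ (Nat.clog 2 (m ^ (k + 1))).pred := by
            rw [← pow_succ', Nat.pred_eq_sub_one, Nat.sub_add_cancel h2]
        _ ≤ m * m ^ (k + 1) := Nat.mul_le_mul (by omega) h1.le
        _ = m ^ (k + 2) := by ring
    calc B ^ Nat.clog 2 (m ^ (k + 1)) ≤ (2 ^ B) ^ Nat.clog 2 (m ^ (k + 1)) := Nat.pow_le_pow_left Nat.lt_two_pow_self.le _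
      _ = (2 ^ Nat.clog 2 (m ^ (k + 1))) ^ B := by rw [← pow_mul, ← pow_mul, mul_comm]
      _ ≤ (m ^ (k + 2)) ^ B := Nat.pow_le_pow_left h3 B
      _ = _ := by rw [← pow_mul]

/-- the residue classes in which the values are coprime to `W₀` -/
noncomputable def cop {ι : Type} (f : ι → ℤ[X]) (W₀ : ℕ) (n : ℤ) : ℝ := by
  classical
  exact if ∀ i, IsCoprime ((f i).eval n) (W₀ : ℤ) then 1 else 0

lemma cop_01 {ι : Type} (f : ι → ℤ[X]) (W₀ : ℕ) (n : ℤ) : cop f W₀ n = 0 ∨ cop f W₀ n = 1 := by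
  unfold cop
  split_ifs
  · right; rfl
  · left; rfl

lemma cop_one {ι : Type} (f : ι → ℤ[X]) (W₀ : ℕ) (n : ℤ) : cop f W₀ n = 1 ↔ ∀ i, IsCoprime ((f i).eval n) (W₀ : ℤ) := by
  unfold cop
  split_ifs with h
  · simp [h]
  · simp [h]

lemma cop_per {ι : Type} (f : ι → ℤ[X]) (W₀ : ℕ) : Per W₀ (cop f W₀) := by
  intro m n h
  unfold cop
  have h2 : ∀ i, IsCoprime ((f i).eval m) (W₀ : ℤ) ↔ IsCoprime ((f i).eval n) (W₀ : ℤ) := by
    intro i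
    obtain ⟨t, ht⟩ : (W₀ : ℤ) ∣ (f i).eval m - (f i).eval n := h.trans (sub_dvd_eval_sub m n (f i))
    have h3 : (f i).eval m = (f i).eval n + (W₀ : ℤ) * t := by linarith
    rw [h3, IsCoprime.add_mul_left_left_iff]
  by_cases h3 : ∀ i, IsCoprime ((f i).eval m) (W₀ : ℤ)
  · rw [if_pos h3, if_pos (fun i => (h2 i).1 (h3 i))]
  · rw [if_neg h3, if_neg (fun h4 => h3 (fun i => (h2 i).2 (h4 i)))]

/-- the weights of the sums -/
lemma sum_mixw (b : ℕ) (M : DFA ℕ σ) (B : ℕ) {τ : Type} (δ : τ → ℕ → τ) (F : τ → Prop) (s0 : τ) (m : ℕ)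
    (hrun : ∀ v, v < B ^ m → (F (run B δ m s0 v) ↔ Nat.digits b v ∈ M.accepts)) (e : ℤ → ℝ)
    (he : ∀ n, e n = 0 ∨ e n = 1) (X : ℕ → Prop) [DecidablePred X] :
    ∑ u ∈ (range (B ^ m)).filter X, mixw B δ F s0 m 1 u * e (u : ℤ) =
      (cnt b M (B ^ m) (fun u => e (u : ℤ) = 1 ∧ X u) : ℝ) * (1 / Ac B δ F m s0) := by
  classical
  unfold cnt
  rw [← nsmul_eq_mul, ← sum_const, sum_filter, sum_filter]
  apply sum_congr rfl
  intro u hu
  rw [mem_range] at hu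
  have h1 := hrun u hu
  unfold mixw
  rw [sub_self, zero_mul, zero_add, one_mul]
  by_cases hX : X u
  · rw [if_pos hX]
    by_cases hF : F (run B δ m s0 u)
    · rw [if_pos hF]
      rcases he (u : ℤ) with h2 | h2
      · rw [h2, mul_zero, if_neg]
        rintro ⟨_, h3, _⟩
        rw [h2] at h3
        norm_num at h3
      · rw [h2, mul_one, if_pos ⟨h1.1 hF, h2, hX⟩]
    · rw [if_neg hF, zero_mul, if_neg]
      rintro ⟨h3, _⟩
      exact hF (h1.2 h3)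
  · rw [if_neg hX, if_neg]
    rintro ⟨_, _, h3⟩
    exact hX h3

end Pool.Agent.Run7.h560.AP
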