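import Pool.Agent.R459.Eq8

set_option autoImplicit false

/-!
# Fractions with few digits: there are few of them
-/

namespace Pool.Agent.Run7.h560.AP

open Finset
open Pool.Agent.R459.Eq
open Pool.Agent.TH872.Mir (Far farCount)

/-- few fractions have few far places (the argument of `Pool.Agent.R459.Eq.bad_card`) -/
theorem frac_card (b : ℕ) (hb : 2 ≤ b) (G : ℤ) (hG : G ≠ 0) (K L M : ℕ) (hM : M ^ 2 < b ^ K) (z : ℝ)
    (hz : 0 < z) (hz1 : z ≤ 1) (T : Finset (ℕ × ℕ)) (hT : ∀ x ∈ T, 1 ≤ x.2 ∧ x.2 ≤ M ∧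
      Nat.Coprime x.1 x.2 ∧ x.1 < x.2 ∧ far b G K ((x.1 : ℝ) / x.2) ≤ L) :
    (T.card : ℝ) * z ^ L ≤ (2 * |G| + 1 : ℤ) * (1 + 2 * b * z) ^ K := by
  classical
  have hb0 : (0 : ℝ) < b := by exact_mod_cast (by omega : 0 < b)
  obtain ⟨θ, hθ⟩ : ∃ θ : ℕ × ℕ → ℝ, θ = fun x => (x.1 : ℝ) / x.2 := ⟨_, rfl⟩
  obtain ⟨n, hn⟩ : ∃ n : ℕ × ℕ → ℕ → ℤ, n = fun m j => round ((b : ℝ) ^ j * ((G : ℝ) * θ m)) := ⟨_, rfl⟩
  have hstep : ∀ m j, n m (j + 1) - b * n m j = round ((b : ℝ) * ((b : ℝ) ^ j * ((G : ℝ) * θ m))) -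
      b * round ((b : ℝ) ^ j * ((G : ℝ) * θ m)) := by
    intro m j
    rw [hn]
    simp only
    rw [pow_succ']
    congr 2
    ring
  have key : T.card ≤ (Icc (-|G|) |G| ×ˢ ((Fintype.piFinset (fun _ : Fin K => Icc (-(b : ℤ)) b)).filter
      (fun f => (univ.filter (fun j => f j ≠ 0)).card ≤ L))).card := by
    apply card_le_card_of_injOn (fun m => (n m 0, fun j : Fin K => n m (j + 1) - b * n m j))
    · intro m hm
      rw [mem_coe] at hm
      rw [mem_coe, mem_product, mem_filter, Fintype.mem_piFinset]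
      obtain ⟨hm1, _, h1, h2, h3⟩ := hT m hm
      have hm0 : (0 : ℝ) < m.2 := by exact_mod_cast hm1
      have hθ0 : 0 ≤ θ m := by rw [hθ]; positivity
      have hθ1 : θ m ≤ 1 := by
        rw [hθ]
        simp only
        rw [div_le_one hm0]
        exact_mod_cast h2.le
      refine ⟨?_, ?_, ?_⟩
      · simp only
        rw [mem_Icc, ← abs_le]
        have h4 : |(n m 0 : ℝ)| ≤ |(G : ℝ)| + 1 / 2 := by
          rw [hn]
          simp only [pow_zero, one_mul]
          have h5 := abs_sub_round ((G : ℝ) * θ m)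
          have h6 : |(G : ℝ) * θ m| ≤ |(G : ℝ)| := by
            rw [abs_mul, abs_of_nonneg hθ0]
            exact mul_le_of_le_one_right (abs_nonneg _) hθ1
          have e : (round ((G : ℝ) * θ m) : ℝ) = (G : ℝ) * θ m - ((G : ℝ) * θ m - round ((G : ℝ) * θ m)) := by ring
          rw [e]
          refine (abs_sub _ _).trans ?_
          linarith
        have h7 : ((|n m 0| : ℤ) : ℝ) < ((|G| + 1 : ℤ) : ℝ) := by push_cast; linarith
        have h8 : |n m 0| < |G| + 1 := by exact_mod_cast h7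
        omega
      · intro j
        rw [mem_Icc, ← abs_le]
        simp only
        rw [hstep]
        exact (round_far b hb _).1
      · refine le_trans ?_ h3
        unfold far
        apply card_le_card_of_injOn (fun j : Fin K => (j : ℕ))
        · intro j hj
          rw [mem_coe, mem_filter] at hj ⊢
          refine ⟨mem_range.2 j.2, ?_⟩
          by_contra hcon
          apply hj.2
          simp only
          rw [hstep]
          apply (round_far b hb _).2
          rw [hθ]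
          exact hcon
        · intro i _ j _ hij
          exact Fin.ext hij
    · intro m hm m' hm' heq
      rw [mem_coe] at hm hm'
      simp only [Prod.mk.injEq] at heq
      have hall : ∀ j ≤ K, n m j = n m' j := by
        intro j
        induction j with
        | zero => intro _; exact heq.1
        | succ j ih =>
          intro hj
          have h1 := congrFun heq.2 ⟨j, by omega⟩
          simp only at h1
          have h2 := ih (by omega)
          rw [h2] at h1
          linarith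
      have hK := hall K le_rfl
      obtain ⟨hm1, hmM, hc, hlt, _⟩ := hT m hm
      obtain ⟨hm1', hmM', hc', hlt', _⟩ := hT m' hm'
      have hm0 : (0 : ℝ) < m.2 := by exact_mod_cast hm1
      have hm0' : (0 : ℝ) < m'.2 := by exact_mod_cast hm1'
      have hclose : |(b : ℝ) ^ K * ((G : ℝ) * θ m) - (b : ℝ) ^ K * ((G : ℝ) * θ m')| ≤ 1 := by
        have h1 := abs_sub_round ((b : ℝ) ^ K * ((G : ℝ) * θ m))
        have h2 := abs_sub_round ((b : ℝ) ^ K * ((G : ℝ) * θ m'))
        rw [hn] at hK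
        simp only at hK
        rw [← hK] at h2
        have e : (b : ℝ) ^ K * ((G : ℝ) * θ m) - (b : ℝ) ^ K * ((G : ℝ) * θ m') =
          ((b : ℝ) ^ K * ((G : ℝ) * θ m) - round ((b : ℝ) ^ K * ((G : ℝ) * θ m))) -
          ((b : ℝ) ^ K * ((G : ℝ) * θ m') - round ((b : ℝ) ^ K * ((G : ℝ) * θ m))) := by ring
        rw [e]
        refine (abs_sub _ _).trans ?_
        linarith
      by_contra hne
      have hcross : (m.1 : ℤ) * m'.2 - m'.1 * m.2 ≠ 0 := by
        intro h0
        have h1 : m.1 * m'.2 = m'.1 * m.2 := by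
          have : ((m.1 * m'.2 : ℕ) : ℤ) = ((m'.1 * m.2 : ℕ) : ℤ) := by push_cast; linarith
          exact_mod_cast this
        have h2 : m.2 = m'.2 := by
          apply Nat.dvd_antisymm
          · have : m.2 ∣ m.1 * m'.2 := ⟨m'.1, by rw [h1]; ring⟩
            exact (Nat.Coprime.dvd_mul_left hc.symm).1 this
          · have : m'.2 ∣ m'.1 * m.2 := ⟨m.1, by rw [← h1]; ring⟩
            exact (Nat.Coprime.dvd_mul_left hc'.symm).1 this
        rw [h2] at h1
        have h3 := Nat.eq_of_mul_eq_mul_right (by omega : 0 < m'.2) h1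
        exact hne (Prod.ext h3 h2)
      have h2 : (1 : ℝ) ≤ |(m.1 : ℝ) * m'.2 - m'.1 * m.2| := by
        have h3 : (1 : ℤ) ≤ |(m.1 : ℤ) * m'.2 - m'.1 * m.2| := Int.one_le_abs hcross
        have h4 : ((1 : ℤ) : ℝ) ≤ ((|(m.1 : ℤ) * m'.2 - m'.1 * m.2| : ℤ) : ℝ) := by exact_mod_cast h3
        push_cast at h4
        exact h4
      have h5 : (b : ℝ) ^ K * ((G : ℝ) * θ m) - (b : ℝ) ^ K * ((G : ℝ) * θ m') =
          (b : ℝ) ^ K * G * ((m.1 : ℝ) * m'.2 - m'.1 * m.2) / (m.2 * m'.2) := by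
        rw [hθ]
        field_simp
      have hG1 : (1 : ℝ) ≤ |(G : ℝ)| := by
        have h3 : (1 : ℤ) ≤ |G| := Int.one_le_abs hG
        have h4 : ((1 : ℤ) : ℝ) ≤ ((|G| : ℤ) : ℝ) := by exact_mod_cast h3
        push_cast at h4
        exact h4
      rw [h5, abs_div, abs_mul, abs_mul, abs_of_pos (by positivity : (0 : ℝ) < (b : ℝ) ^ K),
        abs_of_pos (by positivity : (0 : ℝ) < (m.2 : ℝ) * m'.2), div_le_one (by positivity)] at hclose
      have h6 : (b : ℝ) ^ K ≤ (b : ℝ) ^ K * |(G : ℝ)| * |(m.1 : ℝ) * m'.2 - m'.1 * m.2| := by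
        have h7 : (1 : ℝ) ≤ |(G : ℝ)| * |(m.1 : ℝ) * m'.2 - m'.1 * m.2| := by nlinarith
        have h8 : (0 : ℝ) < (b : ℝ) ^ K := by positivity
        nlinarith
      have h9 : (m.2 : ℝ) * m'.2 ≤ (M : ℝ) ^ 2 := by
        rw [sq]
        exact mul_le_mul (by exact_mod_cast hmM) (by exact_mod_cast hmM') hm0'.le (Nat.cast_nonneg _)
      have h10 : (M : ℝ) ^ 2 < (b : ℝ) ^ K := by exact_mod_cast hM
      linarith
  have h1 : (T.card : ℝ) ≤ (2 * |G| + 1 : ℤ) * (((Fintype.piFinset (fun _ : Fin K => Icc (-(b : ℤ)) b)).filter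
      (fun f => (univ.filter (fun j => f j ≠ 0)).card ≤ L)).card : ℝ) := by
    rw [card_product, Int.card_Icc] at key
    have h2 : ((|G| + 1 - -|G|).toNat : ℤ) = 2 * |G| + 1 := by
      rw [Int.toNat_of_nonneg (by have := abs_nonneg G; omega)]
      ring
    have h3 : (((|G| + 1 - -|G|).toNat : ℤ) : ℝ) = ((2 * |G| + 1 : ℤ) : ℝ) := by rw [h2]
    rw [← h3, Int.cast_natCast]
    exact_mod_cast key
  have h4 := few_card b K L z hz hz1
  have h5 : (0 : ℝ) ≤ (2 * |G| + 1 : ℤ) := by
    have : (0 : ℤ) ≤ 2 * |G| + 1 := by positivity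
    exact_mod_cast this
  calc (T.card : ℝ) * z ^ L ≤ ((2 * |G| + 1 : ℤ) * (((Fintype.piFinset (fun _ : Fin K => Icc (-(b : ℤ)) b)).filter
      (fun f => (univ.filter (fun j => f j ≠ 0)).card ≤ L)).card : ℝ)) * z ^ L :=
        mul_le_mul_of_nonneg_right h1 (by positivity)
    _ = (2 * |G| + 1 : ℤ) * ((((Fintype.piFinset (fun _ : Fin K => Icc (-(b : ℤ)) b)).filter
      (fun f => (univ.filter (fun j => f j ≠ 0)).card ≤ L)).card : ℝ) * z ^ L) := by ring
    _ ≤ _ := mul_le_mul_of_nonneg_left h4 h5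

open Classical in
/-- the fractions with denominator `q` with at most `L` far places among the first `K` -/
noncomputable def br (b : ℕ) (G : ℤ) (K L q : ℕ) : Finset ℕ :=
  (range q).filter (fun a => Nat.Coprime a q ∧ far b G K ((a : ℝ) / q) ≤ L)

/-- the numerator of the shifted fraction -/
def sh (b K q w a : ℕ) : ℕ := (b ^ (w * K) * a) % q

lemma far_int_iff {δ x : ℝ} (n : ℤ) : Far δ (x + n) ↔ Far δ x := by
  refine ⟨fun h => ?_, fun h => far_add_int n h⟩
  have := far_add_int (-n) h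
  rwa [show x + (n : ℝ) + ((-n : ℤ) : ℝ) = x by push_cast; ring] at this

open Classical in
lemma far_split (b : ℕ) (G : ℤ) (k l : ℕ) (θ : ℝ) : far b G (k + l) θ = far b G k θ +
    ((range l).filter (fun j => Far (1 / (b : ℝ) ^ 2) ((b : ℝ) ^ (k + j) * ((G : ℝ) * θ)))).card := by
  unfold far
  simp only [card_filter]
  rw [sum_range_add]

lemma far_mono (b : ℕ) (G : ℤ) {k l : ℕ} (h : k ≤ l) (θ : ℝ) : far b G k θ ≤ far b G l θ := by
  obtain ⟨m, rfl⟩ := Nat.exists_eq_add_of_le h
  rw [far_split]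
  omega

lemma far_block (b : ℕ) (G : ℤ) (K V q : ℕ) (hq : 1 ≤ q) (a : ℕ) :
    far b G ((V + 1) * K) ((a : ℝ) / q) = far b G (V * K) ((a : ℝ) / q) + far b G K ((sh b K q V a : ℝ) / q) := by
  classical
  have hq0 : (0 : ℝ) < q := by exact_mod_cast hq
  rw [Nat.succ_mul, far_split]
  congr 1
  unfold far
  refine congrArg Finset.card (filter_congr fun j _ => ?_)
  obtain ⟨t, ht⟩ : ∃ t : ℕ, t = (b ^ (V * K) * a) / q := ⟨_, rfl⟩
  have h2 : (b ^ (V * K) * a) = q * t + sh b K q V a := by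
    rw [ht]
    exact (Nat.div_add_mod _ _).symm
  have h3 : ((b : ℝ) ^ (V * K) * a) = q * (t : ℝ) + sh b K q V a := by exact_mod_cast h2
  have h4 : (b : ℝ) ^ (V * K + j) * ((G : ℝ) * ((a : ℝ) / q)) =
      (b : ℝ) ^ j * ((G : ℝ) * ((sh b K q V a : ℝ) / q)) + ((b ^ j * G * (t : ℤ) : ℤ) : ℝ) := by
    push_cast
    have h5 : (b : ℝ) ^ (V * K + j) * ((G : ℝ) * ((a : ℝ) / q)) = (b : ℝ) ^ j * G * (((b : ℝ) ^ (V * K) * a) / q) := by
      rw [pow_add]
      field_simp
    rw [h5, h3]
    field_simp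
    ring
  rw [h4]
  exact far_int_iff _

open Classical in
/-- the blocks with many far places -/
lemma far_blocks (b : ℕ) (G : ℤ) (K L q : ℕ) (hq : 1 ≤ q) (a V : ℕ) :
    ((range V).filter (fun w => ¬ far b G K ((sh b K q w a : ℝ) / q) ≤ L)).card * (L + 1) ≤
      far b G (V * K) ((a : ℝ) / q) := by
  induction V with
  | zero => simp
  | succ V ih =>
    rw [far_block b G K V q hq a, range_add_one, filter_insert]
    split_ifs with h
    · omega
    · rw [card_insert_of_notMem (by simp)]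
      push Not at h
      nlinarith

lemma sh_lt (b K q w a : ℕ) (hq : 1 ≤ q) : sh b K q w a < q := Nat.mod_lt _ hq

lemma sh_coprime (b K q w a : ℕ) (hbq : Nat.Coprime b q) (ha : Nat.Coprime a q) :
    Nat.Coprime (sh b K q w a) q := by
  have : Nat.Coprime (b ^ (w * K) * a) q := Nat.Coprime.mul_left (Nat.Coprime.pow_left _ hbq) ha
  unfold sh Nat.Coprime
  rw [← Nat.gcd_rec, Nat.gcd_comm]
  exact this

lemma sh_inj (b K q w a a' : ℕ) (hbq : Nat.Coprime b q) (ha : a < q) (ha' : a' < q)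
    (h : sh b K q w a = sh b K q w a') : a = a' := by
  have h1 : b ^ (w * K) * a ≡ b ^ (w * K) * a' [MOD q] := h
  have h2 := Nat.ModEq.cancel_left_of_coprime (by
    rw [Nat.gcd_comm]
    exact Nat.Coprime.pow_left _ hbq) h1
  unfold Nat.ModEq at h2
  rwa [Nat.mod_eq_of_lt ha, Nat.mod_eq_of_lt ha'] at h2

open Classical in
/-- the fractions with denominator `q` which have few far places in more than half of the `V` blocks -/
noncomputable def vb (b : ℕ) (G : ℤ) (K L V q : ℕ) : Finset ℕ :=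
  (range q).filter (fun a => Nat.Coprime a q ∧
    V < 2 * ((range V).filter (fun w => far b G K ((sh b K q w a : ℝ) / q) ≤ L)).card)

theorem vb_card (b : ℕ) (G : ℤ) (K L V q : ℕ) (hV : 1 ≤ V) (hq : 1 ≤ q) (hbq : Nat.Coprime b q) :
    (vb b G K L V q).card ≤ 2 * (br b G K L q).card := by
  classical
  have h1 : ∀ w, ((vb b G K L V q).filter (fun a => far b G K ((sh b K q w a : ℝ) / q) ≤ L)).card ≤
      (br b G K L q).card := by
    intro w
    apply card_le_card_of_injOn (fun a => sh b K q w a)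
    · intro a ha
      rw [mem_coe, mem_filter] at ha
      unfold vb at ha
      rw [mem_filter] at ha
      unfold br
      rw [mem_coe, mem_filter, mem_range]
      exact ⟨sh_lt b K q w a hq, sh_coprime b K q w a hbq ha.1.2.1, ha.2⟩
    · intro a ha a' ha' h
      rw [mem_coe, mem_filter] at ha ha'
      unfold vb at ha ha'
      rw [mem_filter, mem_range] at ha ha'
      exact sh_inj b K q w a a' hbq ha.1.1 ha'.1.1 h
  have h2 : V * (vb b G K L V q).card ≤ V * (2 * (br b G K L q).card) := by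
    calc V * (vb b G K L V q).card = ∑ a ∈ vb b G K L V q, V := by rw [sum_const, smul_eq_mul, mul_comm]
      _ ≤ ∑ a ∈ vb b G K L V q, 2 * ((range V).filter (fun w =>
          far b G K ((sh b K q w a : ℝ) / q) ≤ L)).card := by
        apply sum_le_sum
        intro a ha
        unfold vb at ha
        rw [mem_filter] at ha
        exact ha.2.2.le
      _ = 2 * ∑ w ∈ range V, ((vb b G K L V q).filter (fun a =>
          far b G K ((sh b K q w a : ℝ) / q) ≤ L)).card := by
        rw [← mul_sum]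
        congr 1
        simp only [card_filter]
        rw [sum_comm]
      _ ≤ 2 * ∑ w ∈ range V, (br b G K L q).card := Nat.mul_le_mul_left _ (sum_le_sum fun w _ => h1 w)
      _ = _ := by rw [sum_const, card_range, smul_eq_mul]; ring
  exact Nat.le_of_mul_le_mul_left h2 (by omega)

lemma far_of_not_vb (b : ℕ) (G : ℤ) (K L V q a : ℕ) (hq : 1 ≤ q) (ha : a < q) (hc : Nat.Coprime a q)
    (h : a ∉ vb b G K L V q) : V * (L + 1) ≤ 2 * far b G (V * K) ((a : ℝ) / q) := by
  classical
  have h1 := far_blocks b G K L q hq a V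
  unfold vb at h
  rw [mem_filter, mem_range] at h
  push Not at h
  have h2 := h ha hc
  have h3 := card_filter_add_card_filter_not (s := range V) (fun w => far b G K ((sh b K q w a : ℝ) / q) ≤ L)
  rw [card_range] at h3
  nlinarith

/-- a far place exists -/
lemma far_pos (b : ℕ) (hb : 2 ≤ b) (G : ℤ) (K q a : ℕ) (hq : 1 < q) (hG : IsCoprime G (q : ℤ))
    (ha : Nat.Coprime a q) (hK : q ≤ b ^ K) : 1 ≤ far b G K ((a : ℝ) / q) := by
  classical
  by_contra hcon
  have h0 : far b G K ((a : ℝ) / q) = 0 := by omega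
  have hb0 : (0 : ℝ) < b := by exact_mod_cast (by omega : 0 < b)
  have hq0 : (0 : ℝ) < q := by exact_mod_cast (by omega : 0 < q)
  obtain ⟨y, hy⟩ : ∃ y : ℝ, y = (G : ℝ) * ((a : ℝ) / q) := ⟨_, rfl⟩
  have h1 : ∀ j < K, ¬ Far (1 / (b : ℝ) ^ 2) ((b : ℝ) ^ j * y) := by
    intro j hj hf
    unfold far at h0
    rw [card_eq_zero, filter_eq_empty_iff] at h0
    apply h0 (mem_range.2 hj)
    rw [← hy]
    exact hf
  have h2 : ∀ j ≤ K, round ((b : ℝ) ^ j * y) = b ^ j * round y := by
    intro j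
    induction j with
    | zero => intro _; simp
    | succ j ih =>
      intro hj
      have h3 := (round_far b hb ((b : ℝ) ^ j * y)).2 (h1 j (by omega))
      have h4 : (b : ℝ) ^ (j + 1) * y = (b : ℝ) * ((b : ℝ) ^ j * y) := by rw [pow_succ']; ring
      rw [h4]
      have h5 := ih (by omega)
      rw [h5] at h3
      rw [pow_succ']
      linarith
  have h3 := abs_sub_round ((b : ℝ) ^ K * y)
  rw [h2 K le_rfl] at h3
  push_cast at h3
  rw [← mul_sub, abs_mul, abs_of_pos (by positivity : (0 : ℝ) < (b : ℝ) ^ K)] at h3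
  have h4 : (1 : ℝ) ≤ q * |y - round y| := by
    have h5 : (q : ℝ) * |y - round y| = |((G * a - q * round y : ℤ) : ℝ)| := by
      have e1 : (q : ℝ) * |y - round y| = |(q : ℝ) * (y - round y)| := by
        rw [abs_mul, abs_of_pos hq0]
      rw [e1]
      congr 1
      push_cast
      have e2 : (q : ℝ) * y = G * a := by
        rw [hy]
        field_simp
      rw [mul_sub, e2]
    rw [h5]
    have h6 : (G * a - q * round y : ℤ) ≠ 0 := by
      intro h7
      have h8 : (q : ℤ) ∣ G * a := ⟨round y, by linarith⟩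
      have h9 : (q : ℤ) ∣ a := hG.symm.dvd_of_dvd_mul_left h8
      have h10 : q ∣ a := by exact_mod_cast h9
      have h11 : q = 1 := Nat.eq_one_of_dvd_coprimes ha h10 dvd_rfl
      omega
    have h7 := Int.one_le_abs h6
    have h8 : ((1 : ℤ) : ℝ) ≤ ((|(G * a - q * round y : ℤ)| : ℤ) : ℝ) := by exact_mod_cast h7
    rw [Int.cast_abs] at h8
    exact_mod_cast h8
  have h5 : (q : ℝ) ≤ (b : ℝ) ^ K := by exact_mod_cast hK
  have h6 : 0 ≤ |y - round y| := abs_nonneg _
  nlinarith

/-- small denominators: a far place in every block -/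
lemma far_small (b : ℕ) (hb : 2 ≤ b) (G : ℤ) (K W k q a : ℕ) (hq : 1 < q) (hG : IsCoprime G (q : ℤ))
    (hbq : Nat.Coprime b q) (ha : Nat.Coprime a q) (hK : q ≤ b ^ K) (hk : W * K ≤ k) :
    W ≤ far b G k ((a : ℝ) / q) := by
  have h := far_many b G K 0 W k q (by omega) hbq (by
    rintro ⟨a', hc, _, hf⟩
    have := far_pos b hb G K q a' hq hG hc hK
    omega) hk a ha
  simpa using h

end Pool.Agent.Run7.h560.AP
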