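import Pool.Agent.Run7.h560.AP.Gold2

set_option autoImplicit false

/-!
# Integers with digits in a given set: residue classes
-/

namespace Pool.Agent.Run7.h560.AP

open Finset

/-- the set counted by `cnt` -/
noncomputable def cs {σ : Type} (b : ℕ) (M : DFA ℕ σ) (N : ℕ) (E : ℕ → Prop) : Finset ℕ := by
  classical
  exact (range N).filter (fun n => Nat.digits b n ∈ M.accepts ∧ E n)

lemma cnt_cs {σ : Type} (b : ℕ) (M : DFA ℕ σ) (N : ℕ) (E : ℕ → Prop) : cnt b M N E = (cs b M N E).card := by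
  unfold cnt cs
  congr

lemma mem_cs {σ : Type} (b : ℕ) (M : DFA ℕ σ) (N : ℕ) (E : ℕ → Prop) (n : ℕ) :
    n ∈ cs b M N E ↔ n < N ∧ Nat.digits b n ∈ M.accepts ∧ E n := by
  classical
  unfold cs
  simp only [mem_filter, mem_range]

/-- the automaton which accepts the words with letters in `D` -/
def dfa (D : Finset ℕ) : DFA ℕ Bool where
  step s d := s && decide (d ∈ D)
  start := true
  accept := {true}

lemma eval_dfa (D : Finset ℕ) : ∀ (w : List ℕ) (s : Bool), (dfa D).evalFrom s w = (s && decide (∀ d ∈ w, d ∈ D)) := by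
  intro w
  induction w with
  | nil => intro s; simp [DFA.evalFrom]
  | cons x w ih =>
    intro s
    have h1 : (dfa D).evalFrom s (x :: w) = (dfa D).evalFrom (s && decide (x ∈ D)) w := rfl
    rw [h1, ih]
    by_cases h2 : x ∈ D <;> simp [h2]

/-- all the digits are in `D` -/
def SD (b : ℕ) (D : Finset ℕ) (n : ℕ) : Prop := ∀ d ∈ Nat.digits b n, d ∈ D

lemma mem_dfa (b : ℕ) (D : Finset ℕ) (n : ℕ) : Nat.digits b n ∈ (dfa D).accepts ↔ SD b D n := by
  rw [DFA.mem_accepts, DFA.eval, eval_dfa]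
  unfold SD dfa
  simp

lemma SD_zero (b : ℕ) (D : Finset ℕ) : SD b D 0 := by
  unfold SD
  simp

lemma SD_rec (b : ℕ) (hb : 2 ≤ b) (D : Finset ℕ) (h0 : 0 ∈ D) (n : ℕ) : SD b D n ↔ n % b ∈ D ∧ SD b D (n / b) := by
  rcases Nat.eq_zero_or_pos n with h | h
  · rw [h, Nat.zero_mod, Nat.zero_div]
    exact ⟨fun h1 => ⟨h0, h1⟩, fun h1 => h1.2⟩
  · unfold SD
    rw [Nat.digits_def' (by omega) h]
    simp

lemma SD_small (b : ℕ) (hb : 2 ≤ b) (D : Finset ℕ) (h0 : 0 ∈ D) (e : ℕ) (he : e ∈ D) (heb : e < b) : SD b D e := by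
  rw [SD_rec b hb D h0, Nat.mod_eq_of_lt heb, Nat.div_eq_of_lt heb]
  exact ⟨he, SD_zero b D⟩

lemma SD_shift (b : ℕ) (hb : 2 ≤ b) (D : Finset ℕ) (h0 : 0 ∈ D) : ∀ (J x n : ℕ), x < b ^ J →
    (SD b D (x + b ^ J * n) ↔ SD b D x ∧ SD b D n) := by
  intro J
  induction J with
  | zero =>
    intro x n hx
    have h1 : x = 0 := by simpa using hx
    rw [h1, pow_zero, one_mul, zero_add]
    exact ⟨fun h => ⟨SD_zero b D, h⟩, fun h => h.2⟩
  | succ J ih =>
    intro x n hx
    have h1 : x + b ^ (J + 1) * n = x + b * (b ^ J * n) := by rw [pow_succ]; ring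
    have h2 : (x + b ^ (J + 1) * n) % b = x % b := by rw [h1, Nat.add_mul_mod_self_left]
    have h3 : (x + b ^ (J + 1) * n) / b = x / b + b ^ J * n := by
      rw [h1, Nat.add_mul_div_left _ _ (by omega)]
    have h4 : x / b < b ^ J := by
      rw [Nat.div_lt_iff_lt_mul (by omega)]
      rw [pow_succ] at hx
      exact hx
    rw [SD_rec b hb D h0, h2, h3, ih _ _ h4, SD_rec b hb D h0 x]
    tauto

/-- a block of ones at the multiples of `o` -/
def yy (b o : ℕ) : ℕ → ℕ
  | 0 => 0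
  | t + 1 => 1 + b ^ o * yy b o t

lemma yy_lt (b o : ℕ) (hb : 2 ≤ b) (ho : 1 ≤ o) (t : ℕ) : yy b o t < b ^ (o * t) := by
  induction t with
  | zero => simp [yy]
  | succ t ih =>
    unfold yy
    have h1 : 2 ≤ b ^ o := by
      calc 2 = 2 ^ 1 := rfl
        _ ≤ 2 ^ o := Nat.pow_le_pow_right (by norm_num) ho
        _ ≤ b ^ o := Nat.pow_le_pow_left hb o
    have h2 : b ^ (o * (t + 1)) = b ^ o * b ^ (o * t) := by rw [← pow_add]; congr 1; ring
    rw [h2]
    have h3 : yy b o t + 1 ≤ b ^ (o * t) := ih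
    have h4 : b ^ o * (yy b o t + 1) ≤ b ^ o * b ^ (o * t) := Nat.mul_le_mul_left _ h3
    nlinarith

lemma yy_SD (b o : ℕ) (hb : 2 ≤ b) (ho : 1 ≤ o) (D : Finset ℕ) (h0 : 0 ∈ D) (h1 : 1 ∈ D) (t : ℕ) : SD b D (yy b o t) := by
  induction t with
  | zero => exact SD_zero b D
  | succ t ih =>
    unfold yy
    rw [SD_shift b hb D h0 o 1 _ (Nat.one_lt_pow (by omega) (by omega))]
    exact ⟨SD_small b hb D h0 1 h1 (by omega), ih⟩

lemma yy_mod (b o q : ℕ) (hq : b ^ o ≡ 1 [MOD q]) (t : ℕ) : yy b o t ≡ t [MOD q] := by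
  induction t with
  | zero => rfl
  | succ t ih =>
    unfold yy
    have h1 : b ^ o * yy b o t ≡ 1 * t [MOD q] := hq.mul ih
    rw [one_mul] at h1
    have h2 := (Nat.ModEq.refl (n := q) 1).add h1
    rwa [add_comm t 1]

lemma card_le_pow (b : ℕ) (hb : 2 ≤ b) (D : Finset ℕ) (h0 : 0 ∈ D) (m J : ℕ) :
    cnt b (dfa D) (b ^ (m + J)) (fun _ => True) ≤ D.card ^ J * cnt b (dfa D) (b ^ m) (fun _ => True) := by
  classical
  induction J with
  | zero => simp
  | succ J ih =>
    have h1 : cnt b (dfa D) (b ^ (m + (J + 1))) (fun _ => True) ≤ D.card * cnt b (dfa D) (b ^ (m + J)) (fun _ => True) := by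
      rw [cnt_cs, cnt_cs, ← card_product]
      apply card_le_card_of_injOn (fun n => (n % b, n / b))
      · intro n hn
        rw [mem_coe, mem_cs, mem_dfa] at hn
        rw [mem_coe, mem_product, mem_cs, mem_dfa]
        have h2 := (SD_rec b hb D h0 n).1 hn.2.1
        refine ⟨h2.1, ?_, h2.2, trivial⟩
        rw [Nat.div_lt_iff_lt_mul (by omega)]
        have h3 := hn.1
        rw [← add_assoc, pow_succ] at h3
        exact h3
      · intro n _ n' _ h
        simp only [Prod.mk.injEq] at h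
        rw [← Nat.div_add_mod n b, ← Nat.div_add_mod n' b, h.1, h.2]
    calc _ ≤ D.card * cnt b (dfa D) (b ^ (m + J)) (fun _ => True) := h1
      _ ≤ D.card * (D.card ^ J * cnt b (dfa D) (b ^ m) (fun _ => True)) := Nat.mul_le_mul_left _ ih
      _ = _ := by ring

lemma two_pow_le (b : ℕ) (hb : 2 ≤ b) (D : Finset ℕ) (h0 : 0 ∈ D) (h1 : 1 ∈ D) (m : ℕ) :
    2 ^ m ≤ cnt b (dfa D) (b ^ m) (fun _ => True) := by
  classical
  induction m with
  | zero =>
    rw [cnt_cs, pow_zero, pow_zero, Nat.one_le_iff_ne_zero, ← Nat.pos_iff_ne_zero, card_pos]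
    refine ⟨0, ?_⟩
    rw [mem_cs, mem_dfa]
    exact ⟨by norm_num, SD_zero b D, trivial⟩
  | succ m ih =>
    have h2 : (range 2 ×ˢ (cs b (dfa D) (b ^ m) (fun _ => True))).card ≤
        cnt b (dfa D) (b ^ (m + 1)) (fun _ => True) := by
      rw [cnt_cs]
      apply card_le_card_of_injOn (fun x => x.1 + b * x.2)
      · intro x hx
        rw [mem_coe, mem_product, mem_range, mem_cs, mem_dfa] at hx
        rw [mem_coe, mem_cs, mem_dfa]
        have h3 : x.1 < b := by omega
        have h4 : x.1 ∈ D := by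
          have : x.1 = 0 ∨ x.1 = 1 := by omega
          rcases this with h | h <;> rw [h] <;> assumption
        refine ⟨?_, ?_, trivial⟩
        · have h5 : x.2 + 1 ≤ b ^ m := hx.2.1
          have h6 : b * (x.2 + 1) ≤ b * b ^ m := Nat.mul_le_mul_left _ h5
          simp only
          rw [pow_succ, mul_comm (b ^ m) b]
          nlinarith
        · rw [SD_rec b hb D h0]
          simp only
          rw [Nat.add_mul_mod_self_left, Nat.mod_eq_of_lt h3, Nat.add_mul_div_left _ _ (by omega), Nat.div_eq_of_lt h3, zero_add]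
          exact ⟨h4, hx.2.2.1⟩
      · intro x hx x' hx' h
        rw [mem_coe, mem_product, mem_range] at hx hx'
        simp only at h
        have h3 : x.1 < b := by omega
        have h3' : x'.1 < b := by omega
        have h4 : (x.1 + b * x.2) % b = (x'.1 + b * x'.2) % b := by rw [h]
        have h5 : (x.1 + b * x.2) / b = (x'.1 + b * x'.2) / b := by rw [h]
        rw [Nat.add_mul_mod_self_left, Nat.mod_eq_of_lt h3, Nat.add_mul_mod_self_left, Nat.mod_eq_of_lt h3'] at h4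
        rw [Nat.add_mul_div_left _ _ (by omega), Nat.div_eq_of_lt h3, zero_add,
          Nat.add_mul_div_left _ _ (by omega), Nat.div_eq_of_lt h3', zero_add] at h5
        exact Prod.ext h4 h5
    rw [card_product, card_range, ← cnt_cs] at h2
    rw [pow_succ]
    calc 2 ^ m * 2 ≤ cnt b (dfa D) (b ^ m) (fun _ => True) * 2 := Nat.mul_le_mul_right _ ih
      _ = 2 * _ := mul_comm _ _
      _ ≤ _ := h2

lemma digits_growth (b : ℕ) (hb : 2 ≤ b) (D : Finset ℕ) (h0 : 0 ∈ D) (h1 : 1 ∈ D) :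
    ∀ k : ℕ, ∃ᶠ N : ℕ in Filter.atTop, Real.log N ^ k < (cnt b (dfa D) N (fun _ => True) : ℝ) := by
  intro k
  have hb0 : (0 : ℝ) < b := by exact_mod_cast (by omega : 0 < b)
  have hlb : 0 < Real.log b := Real.log_pos (by exact_mod_cast (by omega : 1 < b))
  have h2 := tendsto_pow_const_div_const_pow_of_one_lt k (by norm_num : (1 : ℝ) < 2)
  have h3 : ∀ᶠ m : ℕ in Filter.atTop, (m : ℝ) ^ k / 2 ^ m < 1 / Real.log b ^ k :=
    h2.eventually (gt_mem_nhds (by positivity))
  rw [Filter.frequently_atTop]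
  intro N₀
  obtain ⟨m₀, hm₀⟩ := Filter.eventually_atTop.1 h3
  refine ⟨b ^ (m₀ + N₀), ?_, ?_⟩
  · have h4 : m₀ + N₀ < b ^ (m₀ + N₀) := Nat.lt_pow_self (by omega)
    omega
  · have h5 := hm₀ (m₀ + N₀) (by omega)
    rw [div_lt_div_iff₀ (by positivity) (by positivity), one_mul] at h5
    push_cast
    rw [Real.log_pow]
    push_cast
    rw [mul_pow]
    push_cast at h5
    refine lt_of_lt_of_le h5 ?_
    exact_mod_cast two_pow_le b hb D h0 h1 (m₀ + N₀)

/-- **a positive proportion of the integers with digits in `D` in the residue classes** -/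
theorem digits_class (b : ℕ) (hb : 2 ≤ b) (D : Finset ℕ) (h0 : 0 ∈ D) (h1 : 1 ∈ D) (e : ℕ) (he : e ∈ D) (heb : e < b)
    (q : ℕ) (hq : 1 ≤ q) (hbq : Nat.Coprime b q) : ∃ c : ℝ, 0 < c ∧ ∃ L₀ : ℕ, ∀ L : ℕ, L₀ ≤ L → ∀ a : ℕ,
    c * cnt b (dfa D) L (fun _ => True) ≤ cnt b (dfa D) L (fun n => n % b = e ∧ n ≡ a [MOD q]) := by
  classical
  obtain ⟨o, ho⟩ : ∃ o, o = Nat.totient q := ⟨_, rfl⟩
  have ho1 : 1 ≤ o := by rw [ho]; exact Nat.totient_pos.2 (by omega)
  have hoq : b ^ o ≡ 1 [MOD q] := by rw [ho]; exact Nat.ModEq.pow_totient hbq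
  obtain ⟨J, hJ⟩ : ∃ J, J = o * (q + 1) := ⟨_, rfl⟩
  have hJq : b ^ J ≡ 1 [MOD q] := by
    rw [hJ, pow_mul]
    have := hoq.pow (q + 1)
    rwa [one_pow] at this
  have hDc : 0 < D.card := card_pos.2 ⟨0, h0⟩
  have hDr : (0 : ℝ) < D.card := by exact_mod_cast hDc
  refine ⟨1 / (D.card : ℝ) ^ (J + 1), by positivity, b ^ J, fun L hL a => ?_⟩
  have hL0 : L ≠ 0 := by
    have : 0 < b ^ J := by positivity
    omega
  obtain ⟨m, hm⟩ : ∃ m, m = Nat.log b L := ⟨_, rfl⟩
  have hm0 : J ≤ m := by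
    rw [hm]
    exact Nat.le_log_of_pow_le (by omega) hL
  have hmL : b ^ m ≤ L := by rw [hm]; exact Nat.pow_log_le_self b hL0
  have hLm : L < b ^ (m + 1) := by rw [hm]; exact Nat.lt_pow_succ_log_self (by omega) L
  obtain ⟨m', hm'⟩ := Nat.exists_eq_add_of_le hm0
  have hup : cnt b (dfa D) L (fun _ => True) ≤ D.card ^ (J + 1) * cnt b (dfa D) (b ^ m') (fun _ => True) := by
    refine le_trans (cnt_mono b (dfa D) hLm.le (fun _ _ h => h)) ?_
    have h2 := card_le_pow b hb D h0 m' (J + 1)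
    have e1 : m' + (J + 1) = m + 1 := by omega
    rwa [e1] at h2
  -- the choice of the block
  have hch : ∀ n : ℕ, ∃ t : ℕ, t < q ∧ e + t + n ≡ a [MOD q] := by
    intro n
    refine ⟨(a + (q - (e + n) % q)) % q, Nat.mod_lt _ (by omega), ?_⟩
    have h2 : (a + (q - (e + n) % q)) % q ≡ a + (q - (e + n) % q) [MOD q] := Nat.mod_modEq _ _
    have h3 : e + (a + (q - (e + n) % q)) % q + n ≡ e + (a + (q - (e + n) % q)) + n [MOD q] :=
      ((Nat.ModEq.refl e).add h2).add (Nat.ModEq.refl n)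
    refine h3.trans ?_
    have h4 : (e + n) % q < q := Nat.mod_lt _ (by omega)
    have h5 : e + (a + (q - (e + n) % q)) + n = a + ((e + n) + (q - (e + n) % q)) := by ring
    rw [h5]
    have h6 : (e + n) + (q - (e + n) % q) ≡ (e + n) % q + (q - (e + n) % q) [MOD q] :=
      (Nat.mod_modEq _ _).symm.add (Nat.ModEq.refl _)
    have h7 : (e + n) % q + (q - (e + n) % q) = q := by omega
    rw [h7] at h6
    have h8 : q ≡ 0 [MOD q] := by unfold Nat.ModEq; simp
    have h9 := (Nat.ModEq.refl a (n := q)).add (h6.trans h8)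
    rwa [add_zero] at h9
  choose t ht1 ht2 using hch
  have hinj : cnt b (dfa D) (b ^ m') (fun _ => True) ≤ cnt b (dfa D) (b ^ m) (fun n => n % b = e ∧ n ≡ a [MOD q]) := by
    rw [cnt_cs, cnt_cs]
    have hxlt : ∀ n, e + b ^ o * yy b o (t n) < b ^ J := by
      intro n
      have h2 := yy_lt b o hb ho1 (t n)
      have h3 : b ^ o * (yy b o (t n) + 1) ≤ b ^ o * b ^ (o * t n) := Nat.mul_le_mul_left _ h2
      have h4 : b ^ o * b ^ (o * t n) ≤ b ^ J := by
        rw [← pow_add, hJ]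
        apply Nat.pow_le_pow_right (by omega)
        have := ht1 n
        nlinarith
      have h5 : b ≤ b ^ o := Nat.le_self_pow (by omega) b
      nlinarith
    apply card_le_card_of_injOn (fun n => (e + b ^ o * yy b o (t n)) + b ^ J * n)
    · intro n hn
      rw [mem_coe, mem_cs, mem_dfa] at hn
      rw [mem_coe, mem_cs, mem_dfa]
      refine ⟨?_, ?_, ?_, ?_⟩
      · have h2 := hxlt n
        have h3 : b ^ J * (n + 1) ≤ b ^ J * b ^ m' := Nat.mul_le_mul_left _ hn.1
        rw [hm', pow_add]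
        simp only
        nlinarith
      · simp only
        rw [SD_shift b hb D h0 J _ _ (hxlt n), SD_shift b hb D h0 o e _ (lt_of_lt_of_le heb (Nat.le_self_pow (by omega) b))]
        exact ⟨⟨SD_small b hb D h0 e he heb, yy_SD b o hb ho1 D h0 h1 _⟩, hn.2.1⟩
      · simp only
        obtain ⟨o', ho'⟩ := Nat.exists_eq_add_of_le ho1
        obtain ⟨J', hJ'⟩ : ∃ J', J = 1 + J' := ⟨J - 1, by
          have : 1 ≤ J := by rw [hJ]; exact Nat.succ_le_of_lt (by positivity)
          omega⟩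
        have e1 : e + b ^ o * yy b o (t n) + b ^ J * n = e + b * (b ^ o' * yy b o (t n) + b ^ J' * n) := by
          rw [hJ', pow_add, pow_one]
          conv_lhs => rw [show b ^ o = b * b ^ o' by rw [ho', pow_add, pow_one]]
          ring
        rw [e1, Nat.add_mul_mod_self_left, Nat.mod_eq_of_lt heb]
      · simp only
        have h2 : b ^ o * yy b o (t n) ≡ 1 * t n [MOD q] := hoq.mul (yy_mod b o q hoq (t n))
        have h3 : b ^ J * n ≡ 1 * n [MOD q] := hJq.mul (Nat.ModEq.refl n)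
        rw [one_mul] at h2 h3
        exact (((Nat.ModEq.refl e).add h2).add h3).trans (ht2 n)
    · intro n _ n' _ h
      simp only at h
      have h2 : ((e + b ^ o * yy b o (t n)) + b ^ J * n) / b ^ J = ((e + b ^ o * yy b o (t n')) + b ^ J * n') / b ^ J := by
        rw [h]
      rw [Nat.add_mul_div_left _ _ (by positivity), Nat.div_eq_of_lt (hxlt n), zero_add,
        Nat.add_mul_div_left _ _ (by positivity), Nat.div_eq_of_lt (hxlt n'), zero_add] at h2
      exact h2
  have hmono := cnt_mono b (dfa D) hmL (E := fun n => n % b = e ∧ n ≡ a [MOD q]) (E' := fun n => n % b = e ∧ n ≡ a [MOD q])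
    (fun _ _ h => h)
  rw [one_div, inv_mul_le_iff₀ (by positivity)]
  have h2 : cnt b (dfa D) L (fun _ => True) ≤ D.card ^ (J + 1) * cnt b (dfa D) L (fun n => n % b = e ∧ n ≡ a [MOD q]) :=
    hup.trans (Nat.mul_le_mul_left _ (hinj.trans hmono))
  exact_mod_cast h2

end Pool.Agent.Run7.h560.AP
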