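import Pool.Agent.Run7.h560.AP.Bridge

set_option autoImplicit false

/-!
# Systems of forms: the statements used for the results
-/

namespace Pool.Agent.Run7.h560.AP

open Finset

variable {σ : Type}

lemma rho_lt {k : ℕ} (a c : Fin k → ℤ) (p : ℕ) (hp : p.Prime) (h : ∃ n : ℕ, ∀ i, ¬ (p : ℤ) ∣ a i * n + c i) : rho a c p < p := by
  classical
  obtain ⟨n, hn⟩ := h
  unfold rho
  have h1 : (range p).filter (fun n : ℕ => (p : ℤ) ∣ ∏ i, (a i * n + c i)) ⊂ range p := by
    rw [Finset.ssubset_iff_of_subset (filter_subset _ _)]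
    refine ⟨n % p, mem_range.2 (Nat.mod_lt _ hp.pos), ?_⟩
    rw [mem_filter, not_and]
    intro _ hd
    rw [(Nat.prime_iff_prime_int.1 hp).dvd_finsetProd_iff] at hd
    obtain ⟨i, _, hi⟩ := hd
    apply hn i
    have e : a i * (n : ℤ) + c i = (a i * ((n % p : ℕ) : ℤ) + c i) + (p : ℤ) * (a i * ((n / p : ℕ) : ℤ)) := by
      have h2 : ((n % p : ℕ) : ℤ) + (p : ℤ) * ((n / p : ℕ) : ℤ) = n := by exact_mod_cast Nat.mod_add_div n p
      calc a i * (n : ℤ) + c i = a i * (((n % p : ℕ) : ℤ) + (p : ℤ) * ((n / p : ℕ) : ℤ)) + c i := by rw [h2]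
        _ = _ := by ring
    rw [e]
    exact dvd_add hi (dvd_mul_right _ _)
  have h2 := card_lt_card h1
  rwa [card_range] at h2

/-- the number of the residue classes, for a product of the forms which is given in another shape -/
lemma rho_ncard {k : ℕ} (a c : Fin k → ℤ) (p : ℕ) (F : ℕ → ℤ) (hF : ∀ n : ℕ, ∏ i, (a i * n + c i) = F n) :
    rho a c p = Set.ncard {n : ℕ | n < p ∧ (p : ℤ) ∣ F n} := by
  classical
  unfold rho
  rw [← Set.ncard_coe_finset]
  congr 1
  ext n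
  rw [mem_coe, mem_filter, mem_range, hF n, Set.mem_ofPred_eq]

/-- the main term exceeds every constant -/
lemma main_large (b : ℕ) (hb : 2 ≤ b) (S : Finset ℕ) (h0 : 0 ∈ S) (h1 : 1 ∈ S) (k : ℕ) (c : ℝ) (hc : 0 < c) (K : ℝ) (hK : 0 ≤ K) :
    ∃ N₀ : ℕ, ∀ N : ℕ, N₀ ≤ N → K ≤ c * cnt b (dfa S) N (fun _ => True) / Real.log N ^ k := by
  have hS := digits_growth b hb S h0 h1
  obtain ⟨g, N₁, hg, hsmall⟩ := few_small b hb (dfa S) hS k (K / c) (by positivity)
  refine ⟨N₁ + 3, fun N hN => ?_⟩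
  have h4 := hsmall N (by omega) 0 (by rw [zero_pow (by omega)]; omega)
  rw [Nat.cast_zero, zero_add, mul_one] at h4
  have hNr : (3 : ℝ) ≤ N := by exact_mod_cast (by omega : 3 ≤ N)
  have hlog : 0 < Real.log N := Real.log_pos (by linarith)
  rw [le_div_iff₀ (by positivity)]
  have h6 : c * (K / c * Real.log N ^ k) ≤ c * cnt b (dfa S) N (fun _ => True) := mul_le_mul_of_nonneg_left h4 hc.le
  have h7 : c * (K / c * Real.log N ^ k) = K * Real.log N ^ k := by field_simp
  linarith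

end Pool.Agent.Run7.h560.AP
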