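import Pool.Agent.Run7.h560.AP.Forms

set_option autoImplicit false

/-!
# Fixed systems of linear forms
-/

namespace Pool.Agent.Run7.h560.AP

open Finset

lemma exists_root (p : ℕ) (hp : p.Prime) (a c : ℤ) (ha : ¬ (p : ℤ) ∣ a) : ∃ n : ℕ, n < p ∧ (p : ℤ) ∣ a * n + c := by
  have : Fact p.Prime := ⟨hp⟩
  obtain ⟨z, hz⟩ : ∃ z : ZMod p, z = -(c : ZMod p) * (a : ZMod p)⁻¹ := ⟨_, rfl⟩
  refine ⟨z.val, ZMod.val_lt z, ?_⟩
  rw [← ZMod.intCast_zmod_eq_zero_iff_dvd]
  push_cast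
  rw [ZMod.natCast_zmod_val, hz]
  have ha' : (a : ZMod p) ≠ 0 := by
    intro h
    exact ha ((ZMod.intCast_zmod_eq_zero_iff_dvd a p).1 h)
  field_simp
  ring

/-- all the residue classes are different for large primes -/
lemma rho_full {k : ℕ} (a c : Fin k → ℤ) (h : ∀ i, IsCoprime (a i) (c i)) (p : ℕ) (hp : p.Prime) (ha : ∀ i, ¬ (p : ℤ) ∣ a i)
    (hd : ∀ i j, i ≠ j → ¬ (p : ℤ) ∣ a i * c j - a j * c i) : rho a c p = k := by
  classical
  apply le_antisymm (rho_le a c h p hp)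
  choose g hg1 hg2 using fun i => exists_root p hp (a i) (c i) (ha i)
  unfold rho
  calc k = (univ : Finset (Fin k)).card := by simp
    _ ≤ _ := by
        apply card_le_card_of_injOn g
        · intro i _
          rw [mem_coe, mem_filter, mem_range]
          exact ⟨hg1 i, (hg2 i).trans (dvd_prod_of_mem _ (mem_univ i))⟩
        · intro i _ j _ hij
          by_contra hne
          apply hd i j hne
          have e : a i * c j - a j * c i = a i * (a j * (g j : ℤ) + c j) - a j * (a i * (g i : ℤ) + c i) := by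
            rw [hij]
            ring
          rw [e]
          exact dvd_sub ((hg2 j).mul_left _) ((hg2 i).mul_left _)

/-- the order of magnitude of the density of a fixed system -/
lemma dens_bounds {k : ℕ} (a c : Fin k → ℤ) (h : ∀ i, a i ≠ 0 ∧ IsCoprime (a i) (c i))
    (hd : ∀ i j, i ≠ j → a i * c j - a j * c i ≠ 0) (hadm : ∀ p : ℕ, p.Prime → rho a c p < p) :
    ∃ c₁ C₁ : ℝ, 0 < c₁ ∧ 0 < C₁ ∧ ∀ N : ℕ, 2 ≤ N → c₁ / Real.log N ^ k ≤ ∏ p ∈ prs N, (1 - (rho a c p : ℝ) / p) ∧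
      ∏ p ∈ prs N, (1 - (rho a c p : ℝ) / p) ≤ C₁ / Real.log N ^ k := by
  classical
  obtain ⟨c₁, hc₁, h1⟩ := prod_low k
  obtain ⟨p₀, hp₀⟩ : ∃ p₀, p₀ = ∑ i, (a i).natAbs + ∑ i, ∑ j, (a i * c j - a j * c i).natAbs := ⟨_, rfl⟩
  obtain ⟨C₁, hC₁, h2⟩ := prod_up k p₀
  refine ⟨c₁, C₁, hc₁, hC₁, fun N hN => ⟨h1 (rho a c) N hN (fun p hp => ⟨rho_le a c (fun i => (h i).2) p hp, hadm p hp⟩),
    h2 (rho a c) N hN ?_ (fun p hp => (hadm p hp).le)⟩⟩
  intro p hp hpp
  have hnot : ∀ v : ℤ, v ≠ 0 → v.natAbs ≤ p₀ → ¬ (p : ℤ) ∣ v := by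
    intro v hv hvp hdv
    have h3 : p ∣ v.natAbs := Int.natCast_dvd.1 hdv
    have h4 := Nat.le_of_dvd (Int.natAbs_pos.2 hv) h3
    omega
  apply rho_full a c (fun i => (h i).2) p hp
  · intro i
    apply hnot _ (h i).1
    have h3 : (a i).natAbs ≤ ∑ i, (a i).natAbs := single_le_sum (f := fun i => (a i).natAbs) (fun _ _ => Nat.zero_le _) (mem_univ i)
    omega
  · intro i j hij
    apply hnot _ (hd i j hij)
    have h3 : (a i * c j - a j * c i).natAbs ≤ ∑ j, (a i * c j - a j * c i).natAbs :=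
      single_le_sum (f := fun j => (a i * c j - a j * c i).natAbs) (fun _ _ => Nat.zero_le _) (mem_univ j)
    have h4 : ∑ j, (a i * c j - a j * c i).natAbs ≤ ∑ i, ∑ j, (a i * c j - a j * c i).natAbs :=
      single_le_sum (f := fun i => ∑ j, (a i * c j - a j * c i).natAbs) (fun _ _ => Nat.zero_le _) (mem_univ i)
    omega

end Pool.Agent.Run7.h560.AP
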