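import Pool.Agent.Run7.h560.AP.Pure
import Pool.Agent.H20R2.EN.FLem

set_option autoImplicit false

/-!
# The fundamental lemma of the sieve for decaying characteristic functions
-/

namespace Pool.Agent.Run7.h560.AP

open Finset
open Pool.Agent.R459.Eq
open Pool.Agent.H807R2.Dav

lemma sum_union_le' (s t : Finset ℕ) (g : ℕ → ℝ) (hg : ∀ x, 0 ≤ g x) :
    ∑ x ∈ s ∪ t, g x ≤ ∑ x ∈ s, g x + ∑ x ∈ t, g x := by
  rw [← sum_union_inter]
  have : 0 ≤ ∑ x ∈ s ∩ t, g x := sum_nonneg fun x _ => hg x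
  linarith

lemma sum_biUnion_le' (s : Finset ℕ) (t : ℕ → Finset ℕ) (g : ℕ → ℝ) (hg : ∀ x, 0 ≤ g x) :
    ∑ x ∈ s.biUnion t, g x ≤ ∑ i ∈ s, ∑ x ∈ t i, g x := by
  classical
  induction s using Finset.induction_on with
  | empty => simp
  | insert i s hi ih =>
    rw [biUnion_insert, sum_insert hi]
    refine (sum_union_le' _ _ g hg).trans ?_
    linarith

/-- a bound for the sum of the reciprocals of the primes -/
lemma sum_inv : ∃ K : ℝ, 0 < K ∧ ∀ J : ℕ, 1 ≤ J → ∀ P : Finset ℕ, (∀ p ∈ P, p.Prime ∧ p ≤ 2 ^ 2 ^ J) →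
    ∑ p ∈ P, (1 : ℝ) / p ≤ K * J := by
  classical
  obtain ⟨C0, hC0, hM⟩ := Pool.Agent.Helper112.LP.mertens_group
  refine ⟨1 + C0, by positivity, fun J hJ P hP => ?_⟩
  have hG : ∀ j, 1 ≤ j → ∑ l ∈ Pool.Agent.Helper112.LP.Gj j, (1 : ℝ) / l ≤ 1 + C0 := by
    intro j hj
    have h1 := (abs_le.1 (hM j hj)).2
    have h2 : C0 / 2 ^ j ≤ C0 := div_le_self hC0.le (one_le_pow₀ (by norm_num))
    have h3 : Real.log 2 ≤ 1 := by have := Real.log_two_lt_d9; linarith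
    linarith
  have hsub : P ⊆ (Icc 1 J).biUnion (fun j => Pool.Agent.Helper112.LP.Gj j) := by
    intro p hp
    obtain ⟨h1, h2⟩ := hP p hp
    have h3 : p < 2 ^ 2 ^ J := by
      rcases lt_or_eq_of_le h2 with h | h
      · exact h
      · exfalso
        rw [h] at h1
        have h4 : 2 ≤ 2 ^ J := by
          calc 2 = 2 ^ 1 := by norm_num
            _ ≤ 2 ^ J := Nat.pow_le_pow_right (by norm_num) hJ
        exact Nat.Prime.not_prime_pow h4 h1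
    have hex : ∃ j, p < 2 ^ 2 ^ j := ⟨_, h3⟩
    obtain ⟨j, hj⟩ : ∃ j, j = Nat.find hex := ⟨_, rfl⟩
    have h4 : p < 2 ^ 2 ^ j := by rw [hj]; exact Nat.find_spec hex
    have h5 : j ≤ J := by rw [hj]; exact Nat.find_min' hex h3
    have h6 : 1 ≤ j := by
      by_contra h
      have h7 : j = 0 := by omega
      rw [h7] at h4
      have := h1.two_le
      norm_num at h4
      omega
    have h7 : 2 ^ 2 ^ (j - 1) ≤ p := by
      by_contra h
      have h8 : j - 1 < Nat.find hex := by rw [← hj]; omega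
      have := Nat.find_min hex h8
      omega
    rw [mem_biUnion]
    refine ⟨j, mem_Icc.2 ⟨h6, h5⟩, ?_⟩
    unfold Pool.Agent.Helper112.LP.Gj
    rw [mem_filter, mem_Ico]
    exact ⟨⟨h7, h4⟩, h1⟩
  calc ∑ p ∈ P, (1 : ℝ) / p ≤ ∑ p ∈ (Icc 1 J).biUnion (fun j => Pool.Agent.Helper112.LP.Gj j), (1 : ℝ) / p := by
        apply sum_le_sum_of_subset_of_nonneg hsub
        intro _ _ _
        positivity
    _ ≤ ∑ j ∈ Icc 1 J, ∑ p ∈ Pool.Agent.Helper112.LP.Gj j, (1 : ℝ) / p := by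
        exact sum_biUnion_le' _ _ _ (fun x => by positivity)
    _ ≤ ∑ _j ∈ Icc 1 J, (1 + C0) := sum_le_sum fun j hj => hG j (mem_Icc.1 hj).1
    _ = _ := by rw [sum_const, nsmul_eq_mul, Nat.card_Icc, Nat.add_sub_cancel]; ring

lemma one_sub_ge_exp {x : ℝ} (h0 : 0 ≤ x) (h1 : x ≤ 1 / 2) : Real.exp (-(2 * x)) ≤ 1 - x := by
  have h2 := Real.add_one_le_exp (2 * x)
  have h3 : 1 ≤ (1 - x) * (2 * x + 1) := by nlinarith
  rw [Real.exp_neg, inv_le_comm₀ (Real.exp_pos _) (by linarith)]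
  refine le_trans ?_ h2
  rw [inv_le_iff_one_le_mul₀ (by linarith)]
  linarith

/-- **the fundamental lemma** -/
theorem fund (κ : ℕ) : ∃ z₁ : ℕ, ∀ (b : ℕ), 2 ≤ b → ∀ (A : ℕ) (γ : ℝ), 0 < γ → γ < 1 → ∀ e : ℕ, ∃ E : ℕ, 1 ≤ E ∧
    ∀ z0 : ℕ, z₁ ≤ z0 → ∀ G : ℤ, G ≠ 0 → (∀ p : ℕ, p.Prime → z0 < p → ¬ p ∣ b ∧ ¬ (p : ℤ) ∣ G) →
    ∀ H : ℝ, 1 ≤ H → ∃ k₀ : ℕ, ∀ k t₀ : ℕ, k₀ ≤ k → b ^ t₀ ≤ k ^ e → ∃ z : ℕ, b ^ k ≤ z ^ E ∧ z ≤ b ^ k ∧
    ∀ (Ω : Finset ℕ) (w : ℕ → ℝ) (v : ℕ → ℤ), (∀ i ∈ Ω, 0 ≤ w i) → 1 / (k : ℝ) ≤ ∑ i ∈ Ω, w i →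
    Dk b G A k t₀ γ H (ph Ω w v) → ∀ P : Finset ℕ, (∀ p ∈ P, p.Prime ∧ z0 < p ∧ p ≤ z) →
    ∀ f : ℕ → ℤ → ℝ, (∀ p ∈ P, Per p (f p)) → (∀ p ∈ P, ∀ n, f p n = 0 ∨ f p n = 1) →
    (∀ p ∈ P, mean p (f p) ≤ κ / p) →
    1 / 2 * ((∑ i ∈ Ω, w i) * ∏ p ∈ P, (1 - mean p (f p))) ≤ ∑ i ∈ Ω.filter (fun i => ∀ p ∈ P, f p (v i) = 0), w i ∧
    ∑ i ∈ Ω.filter (fun i => ∀ p ∈ P, f p (v i) = 0), w i ≤ 2 * ((∑ i ∈ Ω, w i) * ∏ p ∈ P, (1 - mean p (f p))) := by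
  classical
  obtain ⟨C0, hC0, hfl⟩ := Pool.Agent.H20R2.fLem κ
  obtain ⟨K, hK0, hK⟩ := sum_inv
  obtain ⟨s, hs⟩ : ∃ s, s = C0 + 1 := ⟨_, rfl⟩
  obtain ⟨c, hc⟩ : ∃ c : ℕ, Real.exp (κ * K) ≤ 2 ^ c := by
    obtain ⟨c, hc⟩ := pow_unbounded_of_one_lt (Real.exp (κ * K)) (by norm_num : (1 : ℝ) < 2)
    exact ⟨c, hc.le⟩
  refine ⟨C0 + 2 * (κ + 1) ^ 4, fun b hb A γ hγ0 hγ1 e => ?_⟩
  obtain ⟨U, hU⟩ : ∃ U, U = 3 * c + 3 := ⟨_, rfl⟩
  obtain ⟨W, hW, hlev⟩ := level b hb A γ hγ0 hγ1 U e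
  refine ⟨2 * (C0 * s) * W + 1, by omega, fun z0 hz0 G hG hpr H hH => ?_⟩
  obtain ⟨k₁, hk₁⟩ := hlev G hG H hH
  refine ⟨k₁ + W * (2 * W * (C0 * s) + 1) + 8 * b ^ (3 * c + 1) + 2, fun k t₀ hk ht => ?_⟩
  have hCs : 1 ≤ C0 * s := by rw [hs]; nlinarith
  obtain ⟨X, hX⟩ : ∃ X, X = b ^ (k / W) := ⟨_, rfl⟩
  obtain ⟨n, hn⟩ : ∃ n, n = Nat.log 2 X / (C0 * s) := ⟨_, rfl⟩
  obtain ⟨J, hJ⟩ : ∃ J, J = Nat.log 2 n := ⟨_, rfl⟩
  have hkW : 2 * W * (C0 * s) + 1 ≤ k / W := by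
    rw [Nat.le_div_iff_mul_le (by omega)]
    calc (2 * W * (C0 * s) + 1) * W = W * (2 * W * (C0 * s) + 1) := by ring
      _ ≤ k := by omega
  have hX0 : X ≠ 0 := by rw [hX]; positivity
  have hX2 : 2 ^ (2 * (C0 * s)) ≤ X := by
    calc 2 ^ (2 * (C0 * s)) ≤ b ^ (2 * (C0 * s)) := Nat.pow_le_pow_left hb _
      _ ≤ X := by
          rw [hX]
          apply Nat.pow_le_pow_right (by omega)
          nlinarith
  have hn2 : 2 ≤ n := by
    rw [hn, Nat.le_div_iff_mul_le (by omega)]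
    exact Nat.le_log_of_pow_le (by norm_num) hX2
  have hJ1 : 1 ≤ J := by
    rw [hJ]
    exact Nat.le_log_of_pow_le (by norm_num) (by omega)
  have hJn : 2 ^ J ≤ n := by rw [hJ]; exact Nat.pow_log_le_self 2 (by omega)
  have hnJ : n < 2 ^ (J + 1) := by rw [hJ]; exact Nat.lt_pow_succ_log_self (by norm_num) n
  have hXl : 2 ^ Nat.log 2 X ≤ X := Nat.pow_log_le_self 2 hX0
  have hXu : X < 2 ^ (Nat.log 2 X + 1) := Nat.lt_pow_succ_log_self (by norm_num) X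
  have hn3 : n * (C0 * s) ≤ Nat.log 2 X := by rw [hn]; exact Nat.div_mul_le_self _ _
  have hn4 : Nat.log 2 X < (n + 1) * (C0 * s) := by
    rw [hn, mul_comm]
    exact Nat.lt_mul_div_succ _ (by omega)
  -- the level
  have hD : (2 ^ 2 ^ J) ^ (C0 * s) ≤ X := by
    rw [← pow_mul]
    refine le_trans (Nat.pow_le_pow_right (by norm_num) ?_) hXl
    exact (Nat.mul_le_mul_right _ hJn).trans hn3
  have hzX : X ≤ (2 ^ 2 ^ J) ^ (2 * (C0 * s)) := by
    refine hXu.le.trans ?_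
    rw [← pow_mul]
    apply Nat.pow_le_pow_right (by norm_num)
    calc Nat.log 2 X + 1 ≤ (n + 1) * (C0 * s) := hn4
      _ ≤ 2 ^ (J + 1) * (C0 * s) := Nat.mul_le_mul_right _ hnJ
      _ = 2 ^ J * (2 * (C0 * s)) := by rw [pow_succ]; ring
  have hXk : X ≤ b ^ k := by
    rw [hX]
    exact Nat.pow_le_pow_right (by omega) (Nat.div_le_self _ _)
  have hzk : 2 ^ 2 ^ J ≤ b ^ k := by
    refine le_trans ?_ (hD.trans hXk)
    exact Nat.le_self_pow (by omega) _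
  have hbW : b ^ W ≤ 2 ^ 2 ^ J := by
    by_contra hcon
    push Not at hcon
    have h1 : X < b ^ (W * (2 * (C0 * s))) := by
      calc X ≤ (2 ^ 2 ^ J) ^ (2 * (C0 * s)) := hzX
        _ < (b ^ W) ^ (2 * (C0 * s)) := Nat.pow_lt_pow_left hcon (by omega)
        _ = _ := by rw [← pow_mul]
    rw [hX, Nat.pow_lt_pow_iff_right (by omega)] at h1
    nlinarith
  refine ⟨2 ^ 2 ^ J, ?_, hzk, ?_⟩
  · have h1 : k ≤ (k / W) * W + W := by
      have := Nat.div_add_mod k W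
      have h2 := Nat.mod_lt k (by omega : 0 < W)
      nlinarith
    calc b ^ k ≤ b ^ ((k / W) * W + W) := Nat.pow_le_pow_right (by omega) h1
      _ = X ^ W * b ^ W := by rw [hX, pow_add, pow_mul]
      _ ≤ ((2 ^ 2 ^ J) ^ (2 * (C0 * s))) ^ W * 2 ^ 2 ^ J := Nat.mul_le_mul (Nat.pow_le_pow_left hzX W) hbW
      _ = _ := by rw [← pow_mul, ← pow_succ]
  · intro Ω w v hw hw1 hDk P hP f hper hf01 hmean
    obtain ⟨μ, hμ⟩ : ∃ μ : ℕ → ℝ, μ = fun p => mean p (f p) := ⟨_, rfl⟩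
    have hf0 : ∀ p ∈ P, ∀ n, 0 ≤ f p n := by
      intro p hp n
      rcases hf01 p hp n with h | h <;> rw [h]
      norm_num
    have hμ0 : ∀ p ∈ P, 0 ≤ μ p := by
      intro p hp
      rw [hμ]
      exact mean_nonneg p _ (hf0 p hp)
    have hμ1 : ∀ p ∈ P, μ p ≤ κ / p := by
      intro p hp
      rw [hμ]
      exact hmean p hp
    have hp0 : ∀ p ∈ P, (2 * (κ + 1) ^ 4 : ℝ) < p := by
      intro p hp
      have := (hP p hp).2.1
      exact_mod_cast (by omega : 2 * (κ + 1) ^ 4 < p)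
    have hκ0 : (0 : ℝ) ≤ κ := Nat.cast_nonneg _
    have hκp : ∀ p ∈ P, (κ : ℝ) / p ≤ 1 / 2 := by
      intro p hp
      have h1 := hp0 p hp
      have h2 : (κ : ℝ) + 1 ≤ ((κ : ℝ) + 1) ^ 4 := le_self_pow₀ (by linarith) (by norm_num)
      have h3 : (0 : ℝ) < p := by linarith
      rw [div_le_iff₀ h3]
      linarith
    have hA0 : 0 ≤ ∑ i ∈ Ω, w i := sum_nonneg hw
    have hkr : (1 : ℝ) ≤ k := by exact_mod_cast (by omega : 1 ≤ k)
    -- the sum of the errors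
    have herr := err_sum (ph Ω w v) κ P (fun p hp => (hP p hp).1) μ hμ0 ((2 ^ 2 ^ J) ^ (C0 * s)) (1 / (k : ℝ) ^ U) (by
      intro T hT g hg
      apply hk₁ k t₀ (by omega) ht (ph Ω w v) hDk T _ g hg
      intro q hq
      obtain ⟨h1, h2, h3⟩ := hT q hq
      refine ⟨h1, ?_, ?_, ?_⟩
      · rw [← hX]
        exact h2.trans hD
      · apply Nat.Coprime.symm
        apply Nat.coprime_of_dvd
        intro p hp hpq hpb
        have h4 := h3 p (Nat.mem_primeFactors.2 ⟨hp, hpq, by omega⟩)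
        exact (hpr p hp (hP p h4).2.1).1 hpb
      · rw [Int.isCoprime_iff_gcd_eq_one]
        by_contra hcon
        obtain ⟨p, hp, hpd⟩ := Nat.exists_prime_and_dvd hcon
        have h4 : (p : ℤ) ∣ G := (Int.natCast_dvd_natCast.2 hpd).trans (Int.gcd_dvd_left ..)
        have h5 : (p : ℤ) ∣ (q : ℤ) := (Int.natCast_dvd_natCast.2 hpd).trans (Int.gcd_dvd_right ..)
        have h6 : p ∣ q := by exact_mod_cast h5
        have h7 := h3 p (Nat.mem_primeFactors.2 ⟨hp, h6, by omega⟩)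
        exact (hpr p hp (hP p h7).2.1).2 h4) (by
      intro p hp
      have h1 := hp0 p hp
      have h3 : (0 : ℝ) < p := by
        have : (0 : ℝ) ≤ 2 * (κ + 1) ^ 4 := by positivity
        linarith
      calc μ p ^ 4 * (p : ℝ) ^ 3 ≤ (κ / p) ^ 4 * (p : ℝ) ^ 3 :=
            mul_le_mul_of_nonneg_right (pow_le_pow_left₀ (hμ0 p hp) (hμ1 p hp) 4) (by positivity)
        _ = (κ : ℝ) ^ 4 / p := by field_simp
        _ ≤ 1 := by
            rw [div_le_one h3]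
            have h4 : (κ : ℝ) ^ 4 ≤ ((κ : ℝ) + 1) ^ 4 := pow_le_pow_left₀ hκ0 (by linarith) 4
            have h5 : 0 ≤ ((κ : ℝ) + 1) ^ 4 := by positivity
            linarith)
    -- the fundamental lemma
    have hmain := hfl s J z0 P μ (by omega) (by omega) (fun p hp => ⟨(hP p hp).1, (hP p hp).2.1, (hP p hp).2.2⟩) (by
      intro p hp
      refine ⟨hμ0 p hp, (hμ1 p hp).trans ?_⟩
      have h1 : (1 : ℝ) < p := by exact_mod_cast (hP p hp).1.one_lt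
      exact div_le_div_of_nonneg_left hκ0 (by linarith) (by linarith)) Ω w (fun p i => f p (v i) ≠ 0) (∑ i ∈ Ω, w i)
      (fun T => (∏ p ∈ T, μ p) * ∑ U ∈ T.powerset.filter (fun U => U ≠ ∅), Sq (ph Ω w v) (∏ p ∈ U, p)) hw hA0 (by
      intro T hT _
      have h1 := prod_est Ω w v f T (fun p hp => (hP p (hT hp)).1) (fun p hp => hper p (hT hp)) (fun p hp => hf0 p (hT hp))
      simp only [hμ]
      refine le_trans (le_of_eq ?_) h1
      congr 2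
      rw [sum_filter]
      apply sum_congr rfl
      intro i _
      split_ifs with h
      · rw [prod_eq_one, mul_one]
        intro p hp
        rcases hf01 p (hT hp) (v i) with h3 | h3
        · exact absurd h3 (h p hp)
        · exact h3
      · push Not at h
        obtain ⟨p, hp, h3⟩ := h
        rw [prod_eq_zero hp h3, mul_zero])
    have hmain' : |∑ i ∈ Ω.filter (fun i => ∀ p ∈ P, f p (v i) = 0), w i - (∑ i ∈ Ω, w i) * ∏ p ∈ P, (1 - μ p)| ≤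
        (1 / 2 : ℝ) ^ s * ((∑ i ∈ Ω, w i) * ∏ p ∈ P, (1 - μ p)) +
        ((J : ℝ) + 2) * ∑ T ∈ P.powerset.filter (fun T : Finset ℕ => ∏ p ∈ T, p ≤ (2 ^ 2 ^ J) ^ (C0 * s)),
          (∏ p ∈ T, μ p) * ∑ U ∈ T.powerset.filter (fun U => U ≠ ∅), Sq (ph Ω w v) (∏ p ∈ U, p) := by
      refine le_trans (le_of_eq ?_) hmain
      congr 2
      apply sum_congr _ (fun _ _ => rfl)
      ext i
      simp only [mem_filter, not_not, ne_eq]
    clear hmain
    -- the products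
    have hsumP := hK J hJ1 P (fun p hp => ⟨(hP p hp).1, (hP p hp).2.2⟩)
    have hexp : Real.exp (κ * ∑ p ∈ P, (1 : ℝ) / p) ≤ ((2 : ℝ) ^ J) ^ c := by
      calc Real.exp (κ * ∑ p ∈ P, (1 : ℝ) / p) ≤ Real.exp (κ * (K * J)) :=
            Real.exp_le_exp.2 (mul_le_mul_of_nonneg_left hsumP hκ0)
        _ = Real.exp (κ * K) ^ J := by rw [← Real.exp_nat_mul]; congr 1; ring
        _ ≤ (2 ^ c) ^ J := pow_le_pow_left₀ (Real.exp_pos _).le hc J
        _ = _ := by rw [← pow_mul, ← pow_mul, mul_comm]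
    have hup : ∏ p ∈ P, (1 + μ p) ≤ ((2 : ℝ) ^ J) ^ c := by
      refine le_trans ?_ hexp
      rw [mul_sum, Real.exp_sum]
      apply prod_le_prod
      · intro p hp
        have := hμ0 p hp
        linarith
      · intro p hp
        have h1 := Real.add_one_le_exp ((κ : ℝ) * (1 / p))
        have h2 := hμ1 p hp
        have h3 : (κ : ℝ) * (1 / p) = κ / p := by ring
        rw [h3] at h1 ⊢
        linarith
    have hlo : 1 ≤ (((2 : ℝ) ^ J) ^ c) ^ 2 * ∏ p ∈ P, (1 - μ p) := by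
      have h1 : Real.exp (-(2 * (κ * ∑ p ∈ P, (1 : ℝ) / p))) ≤ ∏ p ∈ P, (1 - μ p) := by
        rw [mul_sum, mul_sum, ← sum_neg_distrib, Real.exp_sum]
        apply prod_le_prod
        · intro p _
          exact (Real.exp_pos _).le
        · intro p hp
          have h2 := hμ1 p hp
          have h3 : (κ : ℝ) * (1 / p) = κ / p := by ring
          have h4 := one_sub_ge_exp (div_nonneg hκ0 (Nat.cast_nonneg p)) (hκp p hp)
          rw [h3]
          linarith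
      have h5 : Real.exp (-(2 * (κ * ∑ p ∈ P, (1 : ℝ) / p))) = 1 / (Real.exp (κ * ∑ p ∈ P, (1 : ℝ) / p)) ^ 2 := by
        rw [Real.exp_neg, ← Real.exp_nat_mul, one_div]
        norm_num
      rw [h5] at h1
      calc (1 : ℝ) = (Real.exp (κ * ∑ p ∈ P, (1 : ℝ) / p)) ^ 2 * (1 / (Real.exp (κ * ∑ p ∈ P, (1 : ℝ) / p)) ^ 2) := by
            rw [mul_one_div_cancel]
            positivity
        _ ≤ (((2 : ℝ) ^ J) ^ c) ^ 2 * ∏ p ∈ P, (1 - μ p) := by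
            apply mul_le_mul _ h1 (by positivity) (by positivity)
            exact pow_le_pow_left₀ (Real.exp_pos _).le hexp 2
    obtain ⟨Vp, hVp⟩ : ∃ Vp : ℝ, Vp = ∏ p ∈ P, (1 - μ p) := ⟨_, rfl⟩
    obtain ⟨Y, hY⟩ : ∃ Y : ℝ, Y = (2 : ℝ) ^ J := ⟨_, rfl⟩
    have hY1 : 1 ≤ Y := by rw [hY]; exact one_le_pow₀ (by norm_num)
    have hYk : Y ≤ b * k := by
      have h1 : 2 ^ 2 ^ J ≤ 2 ^ (b * k) := by
        refine hzk.trans ?_
        rw [pow_mul]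
        exact Nat.pow_le_pow_left (Nat.lt_two_pow_self).le k
      have h2 := (Nat.pow_le_pow_iff_right (by norm_num : 1 < 2)).1 h1
      rw [hY]
      exact_mod_cast h2
    have hJY : (J : ℝ) + 2 ≤ 2 * Y := by
      have h1 : J + 1 ≤ 2 ^ J := Nat.lt_two_pow_self
      have h2 : (J : ℝ) + 1 ≤ Y := by rw [hY]; exact_mod_cast h1
      linarith
    rw [← hY] at hup hlo
    rw [← hVp] at hlo hmain'
    have hVp0 : 0 < Vp := by
      by_contra hcon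
      push Not at hcon
      have : (Y ^ c) ^ 2 * Vp ≤ 0 := mul_nonpos_of_nonneg_of_nonpos (by positivity) hcon
      linarith
    have hb0 : (0 : ℝ) < b := by exact_mod_cast (by omega : 0 < b)
    have hbig : 8 * (b : ℝ) ^ (3 * c + 1) ≤ k := by
      have : 8 * b ^ (3 * c + 1) ≤ k := by omega
      exact_mod_cast this
    have hE : ((J : ℝ) + 2) * ((∏ p ∈ P, (1 + μ p)) * (1 / (k : ℝ) ^ U)) ≤ 1 / 4 * ((∑ i ∈ Ω, w i) * Vp) := by
      have h1 : 8 * Y ^ (3 * c + 1) * k ≤ (k : ℝ) ^ U := by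
        calc 8 * Y ^ (3 * c + 1) * k ≤ 8 * (b * k) ^ (3 * c + 1) * k := by
              apply mul_le_mul_of_nonneg_right _ (by linarith)
              exact mul_le_mul_of_nonneg_left (pow_le_pow_left₀ (by linarith) hYk _) (by norm_num)
          _ = (8 * (b : ℝ) ^ (3 * c + 1)) * (k : ℝ) ^ (3 * c + 2) := by ring
          _ ≤ k * (k : ℝ) ^ (3 * c + 2) := mul_le_mul_of_nonneg_right hbig (by positivity)
          _ = (k : ℝ) ^ U := by rw [hU]; ring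
      have hk0 : (0 : ℝ) < (k : ℝ) ^ U := by positivity
      calc ((J : ℝ) + 2) * ((∏ p ∈ P, (1 + μ p)) * (1 / (k : ℝ) ^ U)) ≤ (2 * Y) * (Y ^ c * (1 / (k : ℝ) ^ U)) := by
            apply mul_le_mul hJY _ _ (by positivity)
            · exact mul_le_mul_of_nonneg_right hup (by positivity)
            · exact mul_nonneg (prod_nonneg fun p hp => by have := hμ0 p hp; linarith) (by positivity)
        _ ≤ (2 * Y) * (Y ^ c * (1 / (k : ℝ) ^ U)) * ((Y ^ c) ^ 2 * Vp) := le_mul_of_one_le_right (by positivity) hlo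
        _ = (1 / 4 * (1 / k) * Vp) * ((8 * Y ^ (3 * c + 1) * k) / (k : ℝ) ^ U) := by
            field_simp
            ring
        _ ≤ (1 / 4 * (1 / k) * Vp) * 1 := by
            apply mul_le_mul_of_nonneg_left _ (by positivity)
            rw [div_le_one hk0]
            exact h1
        _ ≤ 1 / 4 * ((∑ i ∈ Ω, w i) * Vp) := by
            have := mul_le_mul_of_nonneg_right hw1 hVp0.le
            linarith
    have hs4 : (1 / 2 : ℝ) ^ s ≤ 1 / 4 := by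
      calc (1 / 2 : ℝ) ^ s ≤ (1 / 2) ^ 2 := pow_le_pow_of_le_one (by norm_num) (by norm_num) (by omega)
        _ = 1 / 4 := by norm_num
    have hAVp : 0 ≤ (∑ i ∈ Ω, w i) * Vp := mul_nonneg hA0 hVp0.le
    have hfin : |∑ i ∈ Ω.filter (fun i => ∀ p ∈ P, f p (v i) = 0), w i - (∑ i ∈ Ω, w i) * Vp| ≤
        1 / 2 * ((∑ i ∈ Ω, w i) * Vp) := by
      refine hmain'.trans ?_
      have h1 : (1 / 2 : ℝ) ^ s * ((∑ i ∈ Ω, w i) * Vp) ≤ 1 / 4 * ((∑ i ∈ Ω, w i) * Vp) :=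
        mul_le_mul_of_nonneg_right hs4 hAVp
      have h2 : ((J : ℝ) + 2) * ∑ T ∈ P.powerset.filter (fun T : Finset ℕ => ∏ p ∈ T, p ≤ (2 ^ 2 ^ J) ^ (C0 * s)),
          (∏ p ∈ T, μ p) * ∑ U ∈ T.powerset.filter (fun U => U ≠ ∅), Sq (ph Ω w v) (∏ p ∈ U, p) ≤
          1 / 4 * ((∑ i ∈ Ω, w i) * Vp) :=
        (mul_le_mul_of_nonneg_left herr (by positivity)).trans hE
      linarith
    have hVpe : ∏ p ∈ P, (1 - mean p (f p)) = Vp := by rw [hVp, hμ]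
    rw [hVpe]
    rw [abs_le] at hfin
    constructor <;> linarith [hfin.1, hfin.2]

end Pool.Agent.Run7.h560.AP
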