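import Pool.Agent.Run7.h560.AP.Mert

set_option autoImplicit false

/-!
# Goldbach representations with a summand in an automatic set
-/

namespace Pool.Agent.Run7.h560.AP

open Finset Polynomial
open Pool.Agent.W93.AU

variable {σ : Type}

lemma one_sub_ge_exp' {x : ℝ} (h0 : 0 ≤ x) (h1 : x ≤ 1 / 2) : Real.exp (-(x + 2 * x ^ 2)) ≤ 1 - x := by
  have h2 := Real.quadratic_le_exp_of_nonneg (show 0 ≤ x + 2 * x ^ 2 by positivity)
  have h3 : 1 ≤ (1 - x) * (1 + (x + 2 * x ^ 2) + (x + 2 * x ^ 2) ^ 2 / 2) := by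
    have e : (1 - x) * (1 + (x + 2 * x ^ 2) + (x + 2 * x ^ 2) ^ 2 / 2) - 1 =
        x ^ 2 * (3 / 2 - x / 2 - 2 * x ^ 3) := by ring
    have h4 : 0 ≤ 3 / 2 - x / 2 - 2 * x ^ 3 := by
      have : x ^ 3 ≤ (1 / 2) ^ 3 := pow_le_pow_left₀ h0 h1 3
      norm_num at this
      linarith
    have h5 := mul_nonneg (sq_nonneg x) h4
    linarith
  have h6 : 1 ≤ (1 - x) * Real.exp (x + 2 * x ^ 2) := h3.trans (mul_le_mul_of_nonneg_left h2 (by linarith))
  rw [Real.exp_neg, inv_le_comm₀ (Real.exp_pos _) (by linarith)]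
  rw [inv_le_iff_one_le_mul₀ (by linarith)]
  linarith

/-- the product over the primes up to `N` -/
noncomputable def Vp (N : ℕ) : ℝ := ∏ p ∈ prs N, (1 - 1 / (p : ℝ))

lemma prs_half (N p : ℕ) (hp : p ∈ prs N) : 0 ≤ 1 / (p : ℝ) ∧ 1 / (p : ℝ) ≤ 1 / 2 := by
  rw [mem_prs] at hp
  have h2 : (2 : ℝ) ≤ p := by exact_mod_cast hp.2.two_le
  exact ⟨by positivity, one_div_le_one_div_of_le (by norm_num) h2⟩

lemma Vp_bounds : ∃ K : ℝ, 0 < K ∧ ∀ N : ℕ, 2 ≤ N → 1 / (K * Real.log N) ≤ Vp N ∧ Vp N ≤ K / Real.log N := by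
  obtain ⟨K, hK, h⟩ := mert_sum
  refine ⟨K * Real.exp 2, by positivity, fun N hN => ?_⟩
  obtain ⟨h1, h2⟩ := h N hN
  have hNr : (2 : ℝ) ≤ N := by exact_mod_cast hN
  have hlog : 0 < Real.log N := Real.log_pos (by linarith)
  have he2 : 1 ≤ Real.exp 2 := Real.one_le_exp (by norm_num)
  constructor
  · have h3 : Real.exp (-(∑ p ∈ prs N, (1 : ℝ) / p + 2)) ≤ Vp N := by
      have h4 := sum_sq (prs N) (fun p hp => ((mem_prs N p).1 hp).2.two_le)
      calc Real.exp (-(∑ p ∈ prs N, (1 : ℝ) / p + 2)) ≤ Real.exp (-(∑ p ∈ prs N, (1 : ℝ) / p + 2 * ∑ p ∈ prs N, (1 : ℝ) / (p : ℝ) ^ 2)) := by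
            apply Real.exp_le_exp.2
            linarith
        _ = ∏ p ∈ prs N, Real.exp (-(1 / (p : ℝ) + 2 * (1 / (p : ℝ)) ^ 2)) := by
            rw [mul_sum, ← sum_add_distrib, ← sum_neg_distrib, Real.exp_sum]
            apply prod_congr rfl
            intro p _
            rw [one_div_pow]
        _ ≤ Vp N := by
            unfold Vp
            apply prod_le_prod
            · intro p _
              exact (Real.exp_pos _).le
            · intro p hp
              obtain ⟨a1, a2⟩ := prs_half N p hp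
              exact one_sub_ge_exp' a1 a2
    refine le_trans ?_ h3
    rw [Real.exp_neg, one_div]
    apply inv_anti₀ (Real.exp_pos _)
    rw [Real.exp_add]
    calc Real.exp (∑ p ∈ prs N, (1 : ℝ) / p) * Real.exp 2 ≤ (K * Real.log N) * Real.exp 2 :=
          mul_le_mul_of_nonneg_right h1 (Real.exp_pos _).le
      _ = _ := by ring
  · have h3 : Vp N ≤ Real.exp (-(∑ p ∈ prs N, (1 : ℝ) / p)) := by
      rw [← sum_neg_distrib, Real.exp_sum]
      unfold Vp
      apply prod_le_prod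
      · intro p hp
        obtain ⟨a1, a2⟩ := prs_half N p hp
        linarith
      · intro p _
        have := Real.add_one_le_exp (-(1 / (p : ℝ)))
        linarith
    refine h3.trans ?_
    rw [Real.exp_neg, inv_le_comm₀ (Real.exp_pos _) (by positivity), inv_div, div_le_iff₀ (by positivity)]
    have h5 : 0 < Real.exp (∑ p ∈ prs N, (1 : ℝ) / p) := Real.exp_pos _
    calc Real.log N ≤ K * Real.exp (∑ p ∈ prs N, (1 : ℝ) / p) := h2
      _ ≤ K * Real.exp 2 * Real.exp (∑ p ∈ prs N, (1 : ℝ) / p) := by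
          apply mul_le_mul_of_nonneg_right _ h5.le
          exact le_mul_of_one_le_right hK.le he2
      _ = _ := by ring

/-- `n / φ(n)` -/
lemma totient_prod (N : ℕ) (hN : 1 ≤ N) : (N : ℝ) / Nat.totient N = ∏ p ∈ (prs N).filter (fun p => p ∣ N), (1 - 1 / (p : ℝ))⁻¹ := by
  have h1 : ((prs N).filter (fun p => p ∣ N)) = N.primeFactors := by
    ext p
    rw [mem_filter, mem_prs, Nat.mem_primeFactors]
    constructor
    · rintro ⟨⟨_, h⟩, h2⟩
      exact ⟨h, h2, by omega⟩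
    · rintro ⟨h, h2, _⟩
      exact ⟨⟨Nat.le_of_dvd (by omega) h2, h⟩, h2⟩
  have h2 := Nat.totient_eq_mul_prod_factors N
  have h3 : ((Nat.totient N : ℕ) : ℝ) = N * ∏ p ∈ N.primeFactors, (1 - (p : ℝ)⁻¹) := by
    have : (((Nat.totient N : ℕ) : ℚ) : ℝ) = ((N * ∏ p ∈ N.primeFactors, (1 - (p : ℚ)⁻¹) : ℚ) : ℝ) := by rw [h2]
    push_cast at this
    exact this
  rw [h1, h3, prod_inv_distrib]
  have hN0 : (N : ℝ) ≠ 0 := by exact_mod_cast (by omega : N ≠ 0)
  have h4 : ∏ p ∈ N.primeFactors, (1 - 1 / (p : ℝ)) = ∏ p ∈ N.primeFactors, (1 - (p : ℝ)⁻¹) := by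
    apply prod_congr rfl
    intro p _
    rw [one_div]
  rw [h4]
  by_cases h5 : ∏ p ∈ N.primeFactors, (1 - (p : ℝ)⁻¹) = 0
  · rw [h5]
    simp
  · field_simp

/-- the polynomials -/
noncomputable def gp (N : ℕ) : Fin 2 → ℤ[X] := ![X, C (N : ℤ) - X]

lemma gp_prod (N : ℕ) : ∏ i, gp N i = X * (C (N : ℤ) - X) := by
  rw [Fin.prod_univ_two]
  rfl

lemma gp_rt (N p : ℕ) (hp : p.Prime) : rt (∏ i, gp N i) p = if p ∣ N then 1 else 2 := by
  classical
  rw [gp_prod]
  unfold rt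
  have h1 : (range p).filter (fun t : ℕ => (p : ℤ) ∣ (X * (C (N : ℤ) - X) : ℤ[X]).eval (t : ℤ)) = {0, N % p} := by
    ext t
    rw [mem_filter, mem_range, mem_insert, mem_singleton]
    simp only [eval_mul, eval_X, eval_sub, eval_C]
    rw [(Nat.prime_iff_prime_int.1 hp).dvd_mul]
    constructor
    · rintro ⟨h1, h2 | h2⟩
      · left
        have h3 : p ∣ t := by exact_mod_cast h2
        exact Nat.eq_zero_of_dvd_of_lt h3 h1
      · right
        have h3 : (N : ℤ) ≡ t [ZMOD p] := ((Int.modEq_iff_dvd).2 h2).symm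
        have h4 : N ≡ t [MOD p] := (Int.natCast_modEq_iff).1 h3
        unfold Nat.ModEq at h4
        rw [h4, Nat.mod_eq_of_lt h1]
    · rintro (h | h)
      · rw [h]
        exact ⟨hp.pos, Or.inl (by simp)⟩
      · rw [h]
        refine ⟨Nat.mod_lt _ hp.pos, Or.inr ?_⟩
        have h4 : N % p ≡ N [MOD p] := Nat.mod_modEq _ _
        have h3 : ((N % p : ℕ) : ℤ) ≡ N [ZMOD p] := (Int.natCast_modEq_iff).2 h4
        exact (Int.modEq_iff_dvd).1 h3
  rw [h1]
  split_ifs with h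
  · rw [Nat.mod_eq_zero_of_dvd h]
    simp
  · rw [card_pair]
    intro h2
    exact h (Nat.dvd_of_mod_eq_zero h2.symm)

/-- the lower bound for the product -/
lemma gold_low (N : ℕ) (hN : 2 ≤ N) (he : Even N) :
    Real.exp (-(9 / 2)) * (Vp N ^ 2 * ((N : ℝ) / Nat.totient N)) ≤ ∏ p ∈ prs N, (1 - (rt (∏ i, gp N i) p : ℝ) / p) := by
  rw [totient_prod N (by omega), prod_filter]
  unfold Vp
  rw [← prod_pow, ← prod_mul_distrib]
  have h0 := sum_sq (prs N) (fun p hp => ((mem_prs N p).1 hp).2.two_le)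
  have h1 : Real.exp (-(9 / 2)) ≤ ∏ p ∈ prs N, Real.exp (-((9 / 2) * (1 / (p : ℝ) ^ 2))) := by
    rw [← Real.exp_sum]
    apply Real.exp_le_exp.2
    rw [sum_neg_distrib, ← mul_sum]
    linarith
  have h2 : 0 ≤ ∏ p ∈ prs N, ((1 - 1 / (p : ℝ)) ^ 2 * if p ∣ N then (1 - 1 / (p : ℝ))⁻¹ else 1) := by
    apply prod_nonneg
    intro p hp
    obtain ⟨a1, a2⟩ := prs_half N p hp
    apply mul_nonneg (by positivity)
    split_ifs
    · exact inv_nonneg.2 (by linarith)
    · norm_num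
  refine (mul_le_mul_of_nonneg_right h1 h2).trans ?_
  rw [← prod_mul_distrib]
  apply prod_le_prod
  · intro p hp
    obtain ⟨a1, a2⟩ := prs_half N p hp
    apply mul_nonneg (Real.exp_pos _).le
    apply mul_nonneg (by positivity)
    split_ifs
    · exact inv_nonneg.2 (by linarith)
    · norm_num
  · intro p hp
    obtain ⟨a1, a2⟩ := prs_half N p hp
    have hpp := ((mem_prs N p).1 hp).2
    have hp0 : (0 : ℝ) < p := by exact_mod_cast hpp.pos
    rw [gp_rt N p hpp]
    split_ifs with h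
    · have h3 : (1 - 1 / (p : ℝ)) ^ 2 * (1 - 1 / (p : ℝ))⁻¹ = 1 - 1 / (p : ℝ) := by
        have : (1 - 1 / (p : ℝ)) ≠ 0 := by
          have : (0 : ℝ) < 1 - 1 / (p : ℝ) := by linarith
          exact this.ne'
        rw [sq, mul_assoc, mul_inv_cancel₀ this, mul_one]
      rw [h3, Nat.cast_one]
      apply mul_le_of_le_one_left (by linarith)
      apply Real.exp_le_one_iff.2
      have : 0 ≤ (9 : ℝ) / 2 * (1 / (p : ℝ) ^ 2) := by positivity
      linarith
    · have hp3 : (3 : ℝ) ≤ p := by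
        have h4 : p ≠ 2 := by
          rintro rfl
          exact h he.two_dvd
        have h5 := hpp.two_le
        exact_mod_cast (by omega : 3 ≤ p)
      obtain ⟨x, hx⟩ : ∃ x : ℝ, x = 1 / (p : ℝ) := ⟨_, rfl⟩
      have hx3 : x ≤ 1 / 3 := by rw [hx]; exact one_div_le_one_div_of_le (by norm_num) hp3
      have hx0 : 0 ≤ x := by rw [hx]; positivity
      have e1 : 1 / (p : ℝ) ^ 2 = x ^ 2 := by rw [hx, one_div_pow]
      have e2 : ((2 : ℕ) : ℝ) / p = 2 * x := by rw [hx]; push_cast; ring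
      rw [e1, e2, ← hx, mul_one]
      have h6 : Real.exp (-(9 / 2 * x ^ 2)) ≤ 1 - 9 / 4 * x ^ 2 := by
        have := one_sub_ge_exp (x := 9 / 4 * x ^ 2) (by positivity) (by nlinarith)
        have e3 : -(2 * (9 / 4 * x ^ 2)) = -(9 / 2 * x ^ 2) := by ring
        rwa [e3] at this
      calc Real.exp (-(9 / 2 * x ^ 2)) * (1 - x) ^ 2 ≤ (1 - 9 / 4 * x ^ 2) * (1 - x) ^ 2 :=
            mul_le_mul_of_nonneg_right h6 (by positivity)
        _ ≤ 1 - 2 * x := by
            have h7 : 4 / 9 ≤ (1 - x) ^ 2 := by nlinarith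
            nlinarith [sq_nonneg x, mul_nonneg (sq_nonneg x) (by linarith : (0:ℝ) ≤ (1 - x) ^ 2 - 4 / 9)]

/-- the upper bound for the product -/
lemma gold_up (N z0 : ℕ) (hN : 1 ≤ N) :
    ∏ p ∈ (range (N + 1)).filter (fun p => p.Prime ∧ z0 < p), (1 - (rt (∏ i, gp N i) p : ℝ) / p) ≤
      4 ^ (z0 + 1) * (Vp N ^ 2 * ((N : ℝ) / Nat.totient N)) := by
  classical
  have hS : (range (N + 1)).filter (fun p => p.Prime ∧ z0 < p) = (prs N).filter (fun p => z0 < p) := by
    unfold prs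
    rw [filter_filter]
  rw [hS, totient_prod N hN, prod_filter (fun p => p ∣ N)]
  unfold Vp
  rw [← prod_pow, ← prod_mul_distrib]
  obtain ⟨g, hg⟩ : ∃ g : ℕ → ℝ, g = (fun p : ℕ => (1 - 1 / (p : ℝ)) ^ 2 * (if p ∣ N then (1 - 1 / (p : ℝ))⁻¹ else 1)) :=
    ⟨_, rfl⟩
  have hg0 : ∀ p ∈ prs N, 0 ≤ g p ∧ 1 ≤ 4 * g p := by
    intro p hp
    obtain ⟨a1, a2⟩ := prs_half N p hp
    rw [hg]
    simp only
    have h1 : 1 / 4 ≤ (1 - 1 / (p : ℝ)) ^ 2 := by nlinarith
    split_ifs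
    · have h3 : (1 - 1 / (p : ℝ)) ^ 2 * (1 - 1 / (p : ℝ))⁻¹ = 1 - 1 / (p : ℝ) := by
        have : (1 - 1 / (p : ℝ)) ≠ 0 := by
          have : (0 : ℝ) < 1 - 1 / (p : ℝ) := by linarith
          exact this.ne'
        rw [sq, mul_assoc, mul_inv_cancel₀ this, mul_one]
      rw [h3]
      constructor <;> linarith
    · rw [mul_one]
      constructor
      · positivity
      · linarith
  have h1 : ∏ p ∈ (prs N).filter (fun p => z0 < p), (1 - (rt (∏ i, gp N i) p : ℝ) / p) ≤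
      ∏ p ∈ (prs N).filter (fun p => z0 < p), g p := by
    apply prod_le_prod
    · intro p hp
      have hpp := ((mem_prs N p).1 (mem_filter.1 hp).1).2
      have hp0 : (0 : ℝ) < p := by exact_mod_cast hpp.pos
      rw [sub_nonneg, div_le_one hp0]
      exact_mod_cast rt_le_self _ p
    · intro p hp
      obtain ⟨a1, a2⟩ := prs_half N p (mem_filter.1 hp).1
      have hpp := ((mem_prs N p).1 (mem_filter.1 hp).1).2
      rw [gp_rt N p hpp, hg]
      simp only
      split_ifs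
      · have h3 : (1 - 1 / (p : ℝ)) ^ 2 * (1 - 1 / (p : ℝ))⁻¹ = 1 - 1 / (p : ℝ) := by
          have : (1 - 1 / (p : ℝ)) ≠ 0 := by
            have : (0 : ℝ) < 1 - 1 / (p : ℝ) := by linarith
            exact this.ne'
          rw [sq, mul_assoc, mul_inv_cancel₀ this, mul_one]
        rw [h3, Nat.cast_one]
      · rw [mul_one]
        have e2 : ((2 : ℕ) : ℝ) / p = 2 * (1 / (p : ℝ)) := by push_cast; ring
        rw [e2]
        nlinarith [sq_nonneg (1 / (p : ℝ))]
  have h2 : ∏ p ∈ (prs N).filter (fun p => z0 < p), g p ≤ 4 ^ (z0 + 1) * ∏ p ∈ prs N, g p := by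
    rw [← prod_filter_mul_prod_filter_not (prs N) (fun p => z0 < p) g]
    have h3 : 1 ≤ 4 ^ (z0 + 1) * ∏ p ∈ (prs N).filter (fun p => ¬ z0 < p), g p := by
      calc (1 : ℝ) ≤ ∏ p ∈ (prs N).filter (fun p => ¬ z0 < p), (4 * g p) := by
            have : ∏ p ∈ (prs N).filter (fun p => ¬ z0 < p), (1 : ℝ) ≤ ∏ p ∈ (prs N).filter (fun p => ¬ z0 < p), (4 * g p) :=
              prod_le_prod (fun _ _ => by norm_num) (fun p hp => (hg0 p (mem_filter.1 hp).1).2)
            rwa [prod_const_one] at this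
        _ = 4 ^ ((prs N).filter (fun p => ¬ z0 < p)).card * ∏ p ∈ (prs N).filter (fun p => ¬ z0 < p), g p := by
            rw [prod_mul_distrib, prod_const]
        _ ≤ _ := by
            apply mul_le_mul_of_nonneg_right _ (prod_nonneg fun p hp => (hg0 p (mem_filter.1 hp).1).1)
            apply pow_le_pow_right₀ (by norm_num)
            have h4 : (prs N).filter (fun p => ¬ z0 < p) ⊆ range (z0 + 1) := by
              intro p hp
              rw [mem_filter] at hp
              rw [mem_range]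
              omega
            have h5 := card_le_card h4
            rwa [card_range] at h5
    have h4 : 0 ≤ ∏ p ∈ (prs N).filter (fun p => z0 < p), g p := prod_nonneg fun p hp => (hg0 p (mem_filter.1 hp).1).1
    calc ∏ p ∈ (prs N).filter (fun p => z0 < p), g p ≤ (∏ p ∈ (prs N).filter (fun p => z0 < p), g p) *
          (4 ^ (z0 + 1) * ∏ p ∈ (prs N).filter (fun p => ¬ z0 < p), g p) := le_mul_of_one_le_right h4 h3
      _ = _ := by ring
  rw [hg] at h2
  refine h1.trans ?_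
  rw [hg]
  exact h2

end Pool.Agent.Run7.h560.AP
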