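import Pool.Agent.Run7.h560.AP.Gold

set_option autoImplicit false

/-!
# Goldbach representations with a summand in an automatic set: the theorems
-/

namespace Pool.Agent.Run7.h560.AP

open Finset Polynomial
open Pool.Agent.W93.AU

variable {σ : Type}

/-- the growth of automatic sets -/
lemma growth [Fintype σ] (b : ℕ) (hb : 2 ≤ b) (M : DFA ℕ σ)
    (hS : ∀ k : ℕ, ∃ᶠ N : ℕ in Filter.atTop, Real.log N ^ k < (cnt b M N (fun _ => True) : ℝ)) :
    ∃ a N₀ : ℕ, 1 ≤ a ∧ ∀ N : ℕ, N₀ ≤ N → (N : ℝ) ≤ (cnt b M N (fun _ => True) : ℝ) ^ a := by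
  classical
  obtain ⟨B, δ, F, s0, κ₀, C, ρ, k, hB2, hρ, hG, hrun⟩ := setup b hb M
    (fun k => (hS k).mono (fun N hN => by
      have e1 : cnt b M N (fun _ => True) = ((range N).filter fun v => Nat.digits b v ∈ M.accepts).card := by
        unfold cnt
        congr 1
        ext v
        simp only [mem_filter, and_true]
      rwa [e1] at hN))
  have hC1 := hG.C1
  have hC0 : 0 < C := by linarith
  have hρ0 : 0 < ρ := by linarith
  obtain ⟨a, ha⟩ := pow_unbounded_of_one_lt (B : ℝ) hρ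
  obtain ⟨m₁, hm₁⟩ := pow_unbounded_of_one_lt (C ^ (a + 1) * ρ ^ a) hρ
  refine ⟨a + 1, B ^ (κ₀ + m₁), by omega, fun N hN => ?_⟩
  have hN0 : N ≠ 0 := by
    have : 0 < B ^ (κ₀ + m₁) := by positivity
    omega
  obtain ⟨m, hm⟩ : ∃ m, m = Nat.log B N := ⟨_, rfl⟩
  have hm0 : κ₀ + m₁ ≤ m := by
    rw [hm]
    exact Nat.le_log_of_pow_le (by omega) hN
  have hmN : B ^ m ≤ N := by rw [hm]; exact Nat.pow_log_le_self B hN0
  have hNm : N < B ^ (m + 1) := by rw [hm]; exact Nat.lt_pow_succ_log_self (by omega) N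
  have hAcc : Ac B δ F m s0 = cnt b M (B ^ m) (fun _ => True) := by
    rw [Ac_eq B (by omega), ← sum_filter, sum_const, nsmul_eq_mul, mul_one]
    unfold cnt
    congr 2
    ext v
    simp only [mem_filter, mem_range, and_true]
    exact ⟨fun h => ⟨h.1, (hrun m v h.1).1 h.2⟩, fun h => ⟨h.1, (hrun m v h.1).2 h.2⟩⟩
  obtain ⟨x, hx⟩ : ∃ x : ℝ, x = cnt b M N (fun _ => True) := ⟨_, rfl⟩
  rw [← hx]
  have h1 : ρ ^ m ≤ C * x := by
    refine (hG.low m (by omega)).trans (mul_le_mul_of_nonneg_left ?_ hC0.le)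
    rw [hAcc, hx, Nat.cast_le]
    exact cnt_mono b M hmN (fun _ _ h => h)
  have hx0 : 0 ≤ x := by rw [hx]; positivity
  have h2 : C ^ a * ρ ^ a ≤ x := by
    have h3 : ρ ^ m₁ ≤ ρ ^ m := pow_le_pow_right₀ hρ.le (by omega)
    have h4 : C * (C ^ a * ρ ^ a) ≤ C * x := by
      calc C * (C ^ a * ρ ^ a) = C ^ (a + 1) * ρ ^ a := by ring
        _ ≤ _ := by linarith
    exact le_of_mul_le_mul_left h4 hC0
  calc (N : ℝ) ≤ (B : ℝ) ^ (m + 1) := by exact_mod_cast hNm.le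
    _ ≤ (ρ ^ a) ^ (m + 1) := pow_le_pow_left₀ (Nat.cast_nonneg _) ha.le _
    _ = (ρ ^ m) ^ a * ρ ^ a := by ring
    _ ≤ (C * x) ^ a * ρ ^ a := mul_le_mul_of_nonneg_right (pow_le_pow_left₀ (by positivity) h1 a) (by positivity)
    _ = (C ^ a * ρ ^ a) * x ^ a := by ring
    _ ≤ x * x ^ a := mul_le_mul_of_nonneg_right h2 (by positivity)
    _ = x ^ (a + 1) := by ring

lemma cnt_split (b : ℕ) (M : DFA ℕ σ) (N : ℕ) (E E' : ℕ → Prop) (T : Finset ℕ) (h : ∀ n, n < N → E n → E' n ∨ n ∈ T) :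
    cnt b M N E ≤ cnt b M N E' + T.card := by
  classical
  unfold cnt
  refine le_trans (card_le_card ?_) (card_union_le _ _)
  intro v hv
  rw [mem_filter, mem_range] at hv
  rw [mem_union, mem_filter, mem_range]
  rcases h v hv.1 hv.2.2 with h1 | h1
  · exact Or.inl ⟨hv.1, hv.2.1, h1⟩
  · exact Or.inr h1

lemma one_le_ratio (N : ℕ) (hN : 1 ≤ N) : 1 ≤ (N : ℝ) / Nat.totient N := by
  have h1 : (0 : ℝ) < Nat.totient N := by exact_mod_cast Nat.totient_pos.2 (by omega)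
  rw [one_le_div h1]
  exact_mod_cast Nat.totient_le N

lemma log_pow_small (C : ℝ) (n : ℕ) : ∃ N₀ : ℕ, ∀ N : ℕ, N₀ ≤ N → C * Real.log N ^ n ≤ N := by
  have h1 := (Real.isLittleO_pow_log_id_atTop (n := n)).def (show (0 : ℝ) < 1 / (|C| + 1) by positivity)
  have h2 : ∀ᶠ N : ℕ in Filter.atTop, ‖Real.log (N : ℝ) ^ n‖ ≤ 1 / (|C| + 1) * ‖(id (N : ℝ) : ℝ)‖ :=
    tendsto_natCast_atTop_atTop.eventually h1
  obtain ⟨N₀, h3⟩ := Filter.eventually_atTop.1 h2
  refine ⟨N₀, fun N hN => ?_⟩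
  have h4 := h3 N hN
  simp only [id, Real.norm_eq_abs] at h4
  rw [abs_of_nonneg (Nat.cast_nonneg N : (0 : ℝ) ≤ N)] at h4
  have h5 : 0 < |C| + 1 := by positivity
  have h6 : |C * Real.log N ^ n| ≤ N := by
    rw [abs_mul]
    calc |C| * |Real.log N ^ n| ≤ (|C| + 1) * |Real.log N ^ n| := mul_le_mul_of_nonneg_right (by linarith) (abs_nonneg _)
      _ ≤ (|C| + 1) * (1 / (|C| + 1) * N) := mul_le_mul_of_nonneg_left h4 h5.le
      _ = N := by field_simp
  exact (le_abs_self _).trans h6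

/-- few small members -/
lemma few_small [Fintype σ] (b : ℕ) (hb : 2 ≤ b) (M : DFA ℕ σ)
    (hS : ∀ k : ℕ, ∃ᶠ N : ℕ in Filter.atTop, Real.log N ^ k < (cnt b M N (fun _ => True) : ℝ)) (r : ℕ) (D : ℝ) (hD : 0 ≤ D) :
    ∃ h N₀ : ℕ, 1 ≤ h ∧ ∀ N : ℕ, N₀ ≤ N → ∀ y : ℕ, y ^ h ≤ N →
      D * ((y : ℝ) + 1) * Real.log N ^ r ≤ cnt b M N (fun _ => True) := by
  obtain ⟨a, N₁, ha, h1⟩ := growth b hb M hS
  obtain ⟨N₂, h2⟩ := log_pow_small ((2 * (D + 1)) ^ (2 * a)) (r * (2 * a))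
  refine ⟨2 * a + 2, N₁ + N₂ + 3, by omega, fun N hN y hy => ?_⟩
  obtain ⟨x, hx⟩ : ∃ x : ℝ, x = cnt b M N (fun _ => True) := ⟨_, rfl⟩
  have hx0 : 0 ≤ x := by rw [hx]; positivity
  have e1 := h1 N (by omega)
  have e2 := h2 N (by omega)
  rw [← hx] at e1 ⊢
  have hNr : (3 : ℝ) ≤ N := by exact_mod_cast (by omega : 3 ≤ N)
  have hlog : 0 ≤ Real.log N := Real.log_nonneg (by linarith)
  have hx1 : 1 ≤ x := by
    by_contra hcon
    push Not at hcon
    have : x ^ a ≤ 1 := pow_le_one₀ hx0 hcon.le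
    linarith
  have e3 : (y : ℝ) ^ 2 ≤ x := by
    by_contra hcon
    push Not at hcon
    have e4 : x ^ (a + 1) < ((y : ℝ) ^ 2) ^ (a + 1) := pow_lt_pow_left₀ hcon hx0 (by omega)
    have e5 : ((y : ℝ) ^ 2) ^ (a + 1) ≤ N := by
      rw [← pow_mul]
      have : 2 * (a + 1) = 2 * a + 2 := by ring
      rw [this]
      exact_mod_cast hy
    have e6 : x ^ a ≤ x ^ (a + 1) := pow_le_pow_right₀ hx1 (by omega)
    linarith
  have e7 : (2 * (D + 1) * Real.log N ^ r) ^ 2 ≤ x := by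
    by_contra hcon
    push Not at hcon
    have e4 : x ^ a < ((2 * (D + 1) * Real.log N ^ r) ^ 2) ^ a := pow_lt_pow_left₀ hcon hx0 (by omega)
    have e5 : ((2 * (D + 1) * Real.log N ^ r) ^ 2) ^ a = (2 * (D + 1)) ^ (2 * a) * Real.log N ^ (r * (2 * a)) := by
      rw [← pow_mul, mul_pow, ← pow_mul]
    linarith
  obtain ⟨s, hs⟩ : ∃ s : ℝ, s = √x := ⟨_, rfl⟩
  have hs0 : 0 ≤ s := by rw [hs]; exact Real.sqrt_nonneg _
  have hss : s * s = x := by rw [hs]; exact Real.mul_self_sqrt hx0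
  have hs1 : 1 ≤ s := by rw [hs]; exact Real.one_le_sqrt.2 hx1
  have f1 : (y : ℝ) ≤ s := by rw [hs]; exact Real.le_sqrt_of_sq_le e3
  have f2 : 2 * (D + 1) * Real.log N ^ r ≤ s := by rw [hs]; exact Real.le_sqrt_of_sq_le e7
  have f3 : 0 ≤ Real.log N ^ r := by positivity
  calc D * ((y : ℝ) + 1) * Real.log N ^ r ≤ (D + 1) * (2 * s) * Real.log N ^ r := by
        apply mul_le_mul_of_nonneg_right _ f3
        exact mul_le_mul (by linarith) (by linarith) (by positivity) (by linarith)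
    _ = s * (2 * (D + 1) * Real.log N ^ r) := by ring
    _ ≤ s * s := mul_le_mul_of_nonneg_left f2 hs0
    _ = x := hss

lemma gp_deg (N : ℕ) : (∏ i, gp N i).natDegree ≤ 2 := by
  rw [gp_prod]
  compute_degree

lemma gp_prim (N p : ℕ) (hp : p.Prime) : ∃ j, ¬ (p : ℤ) ∣ (∏ i, gp N i).coeff j := by
  refine ⟨2, ?_⟩
  rw [gp_prod]
  have h1 : (X * (C (N : ℤ) - X) : ℤ[X]).coeff 2 = -1 := by
    rw [show (2 : ℕ) = 1 + 1 by rfl, coeff_X_mul, coeff_sub, coeff_X_one, coeff_C]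
    simp
  rw [h1]
  intro h
  have h2 : (p : ℤ) ∣ 1 := by
    have := (dvd_neg).2 h
    simpa using this
  have h3 := Int.natCast_dvd_natCast.1 (by simpa using h2 : ((p : ℕ) : ℤ) ∣ ((1 : ℕ) : ℤ))
  have := Nat.le_of_dvd one_pos h3
  have := hp.two_le
  omega

/-- **the upper bound for the number of representations as a sum of two primes, the first in an automatic set** -/
theorem gold_upper [Fintype σ] (b : ℕ) (hb : 2 ≤ b) (M : DFA ℕ σ)
    (hS : ∀ k : ℕ, ∃ᶠ N : ℕ in Filter.atTop, Real.log N ^ k < (cnt b M N (fun _ => True) : ℝ)) :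
    ∃ C : ℝ, 0 < C ∧ ∀ᶠ N : ℕ in Filter.atTop, (cnt b M N (fun p => p.Prime ∧ (N - p).Prime) : ℝ) ≤
      C * cnt b M N (fun _ => True) * ((N : ℝ) / Nat.totient N) / Real.log N ^ 2 := by
  classical
  obtain ⟨z0, hup⟩ := unif_upper b hb M hS 2
  obtain ⟨h, N₁, hh, hsmall⟩ := few_small b hb M hS 2 2 (by norm_num)
  obtain ⟨C, N₂, hC, hbound⟩ := hup h hh
  obtain ⟨K, hK, hV⟩ := Vp_bounds
  refine ⟨C * (4 ^ (z0 + 1) * K ^ 2) + 1, by positivity, ?_⟩
  rw [Filter.eventually_atTop]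
  refine ⟨N₁ + N₂ + 3, fun N hN => ?_⟩
  have hNr : (3 : ℝ) ≤ N := by exact_mod_cast (by omega : 3 ≤ N)
  have hlog : 0 < Real.log N := Real.log_pos (by linarith)
  obtain ⟨y, hy1, hy2⟩ := root_exists N h hh
  have h1 := cnt_split b M N (fun p => p.Prime ∧ (N - p).Prime)
    (fun n => ∀ i, ∀ p : ℕ, p.Prime → (p : ℤ) ∣ (gp N i).eval (n : ℤ) → N < p ^ h)
    (range (y + 1) ∪ (range (y + 1)).image (fun t => N - t)) (by
      rintro n hn ⟨hp1, hp2⟩
      by_cases hc1 : n ^ h ≤ N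
      · right
        rw [mem_union, mem_range]
        left
        by_contra hcon
        have : (y + 1) ^ h ≤ n ^ h := Nat.pow_le_pow_left (by omega) h
        omega
      · by_cases hc2 : (N - n) ^ h ≤ N
        · right
          rw [mem_union, mem_image]
          right
          refine ⟨N - n, ?_, by omega⟩
          rw [mem_range]
          by_contra hcon
          have : (y + 1) ^ h ≤ (N - n) ^ h := Nat.pow_le_pow_left (by omega) h
          omega
        · left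
          intro i p hp hpd
          fin_cases i
          · simp only [gp, Fin.zero_eta, Matrix.cons_val_zero, eval_X] at hpd
            have h2 : p ∣ n := by exact_mod_cast hpd
            have h3 := (Nat.prime_dvd_prime_iff_eq hp hp1).1 h2
            rw [h3]
            omega
          · simp only [gp, Fin.mk_one, Matrix.cons_val_one, Matrix.cons_val_zero, eval_sub, eval_C, eval_X] at hpd
            have h2 : p ∣ N - n := by
              have h4 : ((N - n : ℕ) : ℤ) = (N : ℤ) - n := by push_cast [Nat.cast_sub hn.le]; ring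
              rw [← h4] at hpd
              exact_mod_cast hpd
            have h3 := (Nat.prime_dvd_prime_iff_eq hp hp2).1 h2
            rw [h3]
            omega)
  have h2 : (range (y + 1) ∪ (range (y + 1)).image (fun t => N - t)).card ≤ 2 * (y + 1) := by
    refine (card_union_le _ _).trans ?_
    have := card_image_le (s := range (y + 1)) (f := fun t => N - t)
    rw [card_range] at this ⊢
    omega
  have h3 := hbound N (by omega) (Fin 2) (gp N) (gp_deg N) (fun p hp _ => gp_prim N p hp)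
  have h4 := gold_up N z0 (by omega)
  have h5 := (hV N (by omega)).2
  have h6 := hsmall N (by omega) y hy1
  have h7 := one_le_ratio N (by omega)
  have hV0 : 0 ≤ Vp N := by
    refine le_trans ?_ (hV N (by omega)).1
    positivity
  obtain ⟨x, hx⟩ : ∃ x : ℝ, x = cnt b M N (fun _ => True) := ⟨_, rfl⟩
  have hx0 : 0 ≤ x := by rw [hx]; positivity
  obtain ⟨r, hr⟩ : ∃ r : ℝ, r = (N : ℝ) / Nat.totient N := ⟨_, rfl⟩
  rw [← hx] at h3 h6 ⊢
  rw [← hr] at h4 h7 ⊢
  have h8 : (cnt b M N (fun p => p.Prime ∧ (N - p).Prime) : ℝ) ≤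
      (cnt b M N (fun n => ∀ i, ∀ p : ℕ, p.Prime → (p : ℤ) ∣ (gp N i).eval (n : ℤ) → N < p ^ h) : ℝ) + 2 * ((y : ℝ) + 1) := by
    have : cnt b M N (fun p => p.Prime ∧ (N - p).Prime) ≤
      cnt b M N (fun n => ∀ i, ∀ p : ℕ, p.Prime → (p : ℤ) ∣ (gp N i).eval (n : ℤ) → N < p ^ h) + 2 * (y + 1) := by omega
    exact_mod_cast this
  have h9 : 2 * ((y : ℝ) + 1) ≤ x / Real.log N ^ 2 := by
    rw [le_div_iff₀ (by positivity)]
    exact h6
  have hV2 : Vp N ^ 2 ≤ K ^ 2 / Real.log N ^ 2 := by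
    rw [← div_pow]
    exact pow_le_pow_left₀ hV0 h5 2
  have hr0 : 0 ≤ r := by linarith
  calc (cnt b M N (fun p => p.Prime ∧ (N - p).Prime) : ℝ) ≤
      C * x * (4 ^ (z0 + 1) * (Vp N ^ 2 * r)) + x / Real.log N ^ 2 := by
        refine h8.trans (add_le_add (h3.trans ?_) h9)
        exact mul_le_mul_of_nonneg_left h4 (by positivity)
    _ ≤ C * x * (4 ^ (z0 + 1) * (K ^ 2 / Real.log N ^ 2 * r)) + x * r / Real.log N ^ 2 := by
        apply add_le_add
        · apply mul_le_mul_of_nonneg_left _ (by positivity)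
          apply mul_le_mul_of_nonneg_left _ (by positivity)
          exact mul_le_mul_of_nonneg_right hV2 hr0
        · apply div_le_div_of_nonneg_right _ (by positivity)
          exact le_mul_of_one_le_right hx0 h7
    _ = _ := by ring

/-- **the lower bound for the number of representations as a sum of two almost primes, the first in an automatic set** -/
theorem gold_lower [Fintype σ] (b : ℕ) (hb : 2 ≤ b) (M : DFA ℕ σ)
    (hS : ∀ k : ℕ, ∃ᶠ N : ℕ in Filter.atTop, Real.log N ^ k < (cnt b M N (fun _ => True) : ℝ)) (T : Set ℕ)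
    (hT : ∀ N ∈ T, Even N)
    (hloc : ∀ q : ℕ, 1 ≤ q → ∃ c : ℝ, 0 < c ∧ ∃ L₀ : ℕ, ∀ L, L₀ ≤ L → ∀ N ∈ T,
      c * cnt b M L (fun _ => True) ≤ cnt b M L (fun n => IsCoprime (n : ℤ) (q : ℤ) ∧ IsCoprime ((N : ℤ) - n) (q : ℤ))) :
    ∃ (R : ℕ) (η c : ℝ), 0 < η ∧ 0 < c ∧ ∀ᶠ N : ℕ in Filter.atTop, N ∈ T →
      c * cnt b M N (fun _ => True) * ((N : ℝ) / Nat.totient N) / Real.log N ^ 2 ≤
      cnt b M N (fun n => n ≠ 0 ∧ n.primeFactorsList.length ≤ R ∧ (N - n).primeFactorsList.length ≤ R ∧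
        ∀ p : ℕ, p.Prime → p ∣ n ∨ p ∣ N - n → (N : ℝ) ^ η < p) := by
  classical
  obtain ⟨z0, R, η, C, hz0, hη, hC, hlow⟩ := unif_lower b hb M hS 2 1
  obtain ⟨c₁, hc₁, L₀, hL₀⟩ := hloc z0.factorial (Nat.factorial_pos _)
  obtain ⟨N₁, hN₁⟩ := hlow c₁ hc₁
  obtain ⟨K, hK, hV⟩ := Vp_bounds
  refine ⟨R, η, c₁ / C * (Real.exp (-(9 / 2)) / K ^ 2), hη, by positivity, ?_⟩
  rw [Filter.eventually_atTop]
  refine ⟨N₁ + z0 * L₀ + 3, fun N hN hNT => ?_⟩
  have hNr : (3 : ℝ) ≤ N := by exact_mod_cast (by omega : 3 ≤ N)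
  have hlog : 0 < Real.log N := Real.log_pos (by linarith)
  have h1 := hN₁ N (by omega) (Fin 2) (gp N) (gp_deg N) (fun p hp _ => gp_prim N p hp) (by
    intro i n hn
    rw [pow_one]
    fin_cases i
    · simp only [gp, Fin.zero_eta, Matrix.cons_val_zero, eval_X]
      simpa using hn
    · simp only [gp, Fin.mk_one, Matrix.cons_val_one, Matrix.cons_val_zero, eval_sub, eval_C, eval_X]
      omega) (by
    intro L hL1 hL2
    have hL3 : L₀ ≤ L := by
      by_contra hcon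
      have : z0 * L ≤ z0 * L₀ := Nat.mul_le_mul_left _ (by omega)
      omega
    refine (hL₀ L hL3 N hNT).trans ?_
    rw [Nat.cast_le]
    apply cnt_mono b M le_rfl
    rintro n _ ⟨hn1, hn2⟩ i
    fin_cases i
    · simp only [gp, Fin.zero_eta, Matrix.cons_val_zero, eval_X]
      exact hn1
    · simp only [gp, Fin.mk_one, Matrix.cons_val_one, Matrix.cons_val_zero, eval_sub, eval_C, eval_X]
      exact hn2)
  have h2 := gold_low N (by omega) (hT N hNT)
  have h3 := (hV N (by omega)).1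
  have h7 := one_le_ratio N (by omega)
  obtain ⟨x, hx⟩ : ∃ x : ℝ, x = cnt b M N (fun _ => True) := ⟨_, rfl⟩
  have hx0 : 0 ≤ x := by rw [hx]; positivity
  obtain ⟨r, hr⟩ : ∃ r : ℝ, r = (N : ℝ) / Nat.totient N := ⟨_, rfl⟩
  rw [← hx] at h1 ⊢
  rw [← hr] at h2 h7 ⊢
  have hr0 : 0 ≤ r := by linarith
  have h4 : (1 / (K * Real.log N)) ^ 2 ≤ Vp N ^ 2 := pow_le_pow_left₀ (by positivity) h3 2
  have h5 : cnt b M N (fun n => ∀ i, (gp N i).eval (n : ℤ) ≠ 0 ∧ ((gp N i).eval (n : ℤ)).natAbs.primeFactorsList.length ≤ R ∧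
        ∀ p : ℕ, p.Prime → (p : ℤ) ∣ (gp N i).eval (n : ℤ) → (N : ℝ) ^ η < p) ≤
      cnt b M N (fun n => n ≠ 0 ∧ n.primeFactorsList.length ≤ R ∧ (N - n).primeFactorsList.length ≤ R ∧
        ∀ p : ℕ, p.Prime → p ∣ n ∨ p ∣ N - n → (N : ℝ) ^ η < p) := by
    apply cnt_mono b M le_rfl
    intro n hn h
    have g0 := h 0
    have g1 := h 1
    simp only [gp, Matrix.cons_val_zero, eval_X] at g0
    simp only [gp, Matrix.cons_val_one, Matrix.cons_val_zero, eval_sub, eval_C, eval_X] at g1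
    have e4 : (N : ℤ) - n = ((N - n : ℕ) : ℤ) := by push_cast [Nat.cast_sub hn.le]; ring
    rw [e4] at g1
    rw [Int.natAbs_natCast] at g0 g1
    refine ⟨by exact_mod_cast g0.1, g0.2.1, g1.2.1, fun p hp hpd => ?_⟩
    rcases hpd with hpd | hpd
    · exact g0.2.2 p hp (by exact_mod_cast hpd)
    · exact g1.2.2 p hp (Int.natCast_dvd_natCast.2 hpd)
  calc c₁ / C * (Real.exp (-(9 / 2)) / K ^ 2) * x * r / Real.log N ^ 2 =
      c₁ / C * x * (Real.exp (-(9 / 2)) * ((1 / (K * Real.log N)) ^ 2 * r)) := by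
        field_simp
    _ ≤ c₁ / C * x * (Real.exp (-(9 / 2)) * (Vp N ^ 2 * r)) := by
        apply mul_le_mul_of_nonneg_left _ (by positivity)
        apply mul_le_mul_of_nonneg_left _ (Real.exp_pos _).le
        exact mul_le_mul_of_nonneg_right h4 hr0
    _ ≤ c₁ / C * x * ∏ p ∈ prs N, (1 - (rt (∏ i, gp N i) p : ℝ) / p) :=
        mul_le_mul_of_nonneg_left h2 (by positivity)
    _ ≤ _ := h1
    _ ≤ _ := by exact_mod_cast h5

end Pool.Agent.Run7.h560.AP
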