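import Pool.Agent.Run7.h560.AP.Bad

set_option autoImplicit false

/-!
# The sum of a decaying characteristic function over all fractions with denominators up to a power
-/

namespace Pool.Agent.Run7.h560.AP

open Finset
open Pool.Agent.R459.Eq

/-- the function `φ` is bounded by `1` and small at the frequencies with many places far from the integers -/
structure Dk (b : ℕ) (G : ℤ) (A k t₀ : ℕ) (γ H : ℝ) (φ : ℝ → ℂ) : Prop where
  one : ∀ θ, ‖φ θ‖ ≤ 1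
  char : ∀ (θ : ℝ) (N : ℕ), t₀ ≤ N → A * (N + 1) ≤ far b G k θ → ‖φ θ‖ ≤ H * γ ^ N

/-- the sum over the reduced fractions with denominator `q` -/
noncomputable def Sq (φ : ℝ → ℂ) (q : ℕ) : ℝ := ∑ a ∈ (range q).filter (fun a => Nat.Coprime a q), ‖φ ((a : ℝ) / q)‖

lemma Sq_nonneg (φ : ℝ → ℂ) (q : ℕ) : 0 ≤ Sq φ q := sum_nonneg fun _ _ => norm_nonneg _

lemma scl_up (b : ℕ) (hb : 2 ≤ b) (q : ℕ) (hq : 1 ≤ q) : b ^ scl b q ≤ b * q ^ 2 := by
  have h1 : 1 < q ^ 2 + 1 := by nlinarith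
  have h2 := Nat.pow_pred_clog_lt_self (by omega : 1 < b) h1
  have h3 : 1 ≤ Nat.clog b (q ^ 2 + 1) := Nat.clog_pos (by omega) (by omega)
  have h4 : b ^ scl b q = b * b ^ (Nat.clog b (q ^ 2 + 1)).pred := by
    rw [← pow_succ', Nat.pred_eq_sub_one, Nat.sub_add_cancel h3]
    rfl
  rw [h4]
  exact Nat.mul_le_mul_left _ (by omega)

/-- one scale -/
lemma scale_sum (b : ℕ) (hb : 2 ≤ b) (G : ℤ) (hG : G ≠ 0) (A k t₀ : ℕ) (γ H : ℝ) (hγ0 : 0 < γ) (hH : 0 ≤ H)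
    (φ : ℝ → ℂ) (hφ : Dk b G A k t₀ γ H φ)
    (β z : ℝ) (hβ : β ^ 16 = b) (hβ1 : 1 < β) (hz : 0 < z) (hz1 : z ≤ 1) (hz2 : 1 + 2 * b * z = β) (R : ℕ)
    (hR : 1 ≤ z * β ^ (R + 1)) (g0 : ℕ) (hg01 : 1 ≤ g0) (hg0 : γ ^ g0 ≤ 1 / b) (V : ℕ)
    (hV : V = 2 * (A + 1) * (3 * g0 + 1) * (R + 1))
    (K : ℕ) (hK : 1 ≤ K) (hVK : V * K ≤ k) (ht : t₀ ≤ K)
    (T : Finset ℕ) (hT : ∀ q ∈ T, 1 ≤ q ∧ scl b q = K ∧ Nat.Coprime b q) (g : ℕ → ℝ)
    (hg : ∀ q ∈ T, 0 ≤ g q ∧ g q ^ 4 * (q : ℝ) ^ 3 ≤ 1) :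
    ∑ q ∈ T, g q * Sq φ q ≤ (2 * (2 * |G| + 1 : ℤ) * (b : ℝ) ^ 3 + H) * (1 / β) ^ (4 * K) := by
  classical
  have hb0 : (0 : ℝ) < b := by exact_mod_cast (by omega : 0 < b)
  have hb1 : (1 : ℝ) < b := by exact_mod_cast (by omega : 1 < b)
  have hβ0 : 0 < β := by linarith
  obtain ⟨L, hL⟩ : ∃ L, L = K / (R + 1) := ⟨_, rfl⟩
  have hL1 : L * (R + 1) ≤ K := by rw [hL]; exact Nat.div_mul_le_self _ _
  have hL2 : K < (L + 1) * (R + 1) := by
    rw [hL, mul_comm]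
    exact Nat.lt_mul_div_succ K (by omega)
  have hV1 : 1 ≤ V := by rw [hV]; exact Nat.succ_le_of_lt (by positivity)
  have hqK : ∀ q ∈ T, q ^ 2 < b ^ K := fun q hq => by
    have := scl_lt b hb q
    rwa [(hT q hq).2.1] at this
  have hqb : ∀ q ∈ T, q < b ^ K := fun q hq => lt_of_le_of_lt (by nlinarith [(hT q hq).1]) (hqK q hq)
  -- the weights
  have hgK : ∀ q ∈ T, g q ≤ (b : ℝ) ^ 3 * (1 / β) ^ (6 * K) := by
    intro q hq
    obtain ⟨g1, g2⟩ := hg q hq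
    have e1 : (b : ℝ) ^ K ≤ b * (q : ℝ) ^ 2 := by
      have := scl_up b hb q (hT q hq).1
      rw [(hT q hq).2.1] at this
      exact_mod_cast this
    have e2 : (g q * β ^ (6 * K)) ^ 8 ≤ ((b : ℝ) ^ 3) ^ 8 := by
      have e3 : (β ^ (6 * K)) ^ 8 = ((b : ℝ) ^ K) ^ 3 := by
        rw [← hβ]
        ring
      have e4 : ((b : ℝ) ^ K) ^ 3 ≤ (b : ℝ) ^ 3 * (q : ℝ) ^ 6 := by
        calc ((b : ℝ) ^ K) ^ 3 ≤ (b * (q : ℝ) ^ 2) ^ 3 := pow_le_pow_left₀ (by positivity) e1 3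
          _ = _ := by ring
      have e5 : (g q ^ 4 * (q : ℝ) ^ 3) ^ 2 ≤ 1 := pow_le_one₀ (by positivity) g2
      calc (g q * β ^ (6 * K)) ^ 8 = g q ^ 8 * (β ^ (6 * K)) ^ 8 := by ring
        _ ≤ g q ^ 8 * ((b : ℝ) ^ 3 * (q : ℝ) ^ 6) := by rw [e3]; exact mul_le_mul_of_nonneg_left e4 (by positivity)
        _ = (b : ℝ) ^ 3 * (g q ^ 4 * (q : ℝ) ^ 3) ^ 2 := by ring
        _ ≤ (b : ℝ) ^ 3 * 1 := mul_le_mul_of_nonneg_left e5 (by positivity)
        _ ≤ ((b : ℝ) ^ 3) ^ 8 := by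
            rw [mul_one]
            exact le_self_pow₀ (one_le_pow₀ hb1.le) (by norm_num)
    have e6 : g q * β ^ (6 * K) ≤ (b : ℝ) ^ 3 :=
      le_of_pow_le_pow_left₀ (by norm_num) (by positivity) e2
    rw [one_div, inv_pow, ← div_eq_mul_inv, le_div_iff₀ (by positivity)]
    exact e6
  have hg1 : ∀ q ∈ T, g q ≤ 1 := by
    intro q hq
    obtain ⟨g1, g2⟩ := hg q hq
    have h1 : (1 : ℝ) ≤ (q : ℝ) ^ 3 := one_le_pow₀ (by exact_mod_cast (hT q hq).1)
    have h2 : g q ^ 4 ≤ 1 := by nlinarith [pow_nonneg g1 4]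
    exact (pow_le_one_iff_of_nonneg g1 (by norm_num)).1 h2
  -- the number of the fractions with few far places
  have hcard : (∑ q ∈ T, ((br b G K L q).card : ℝ)) ≤ (2 * |G| + 1 : ℤ) * β ^ (2 * K) := by
    obtain ⟨T', hT'⟩ : ∃ T' : Finset (ℕ × ℕ), T' = (range (b ^ K) ×ˢ T).filter (fun x => x.1 ∈ br b G K L x.2) := ⟨_, rfl⟩
    have h1 : T'.card = ∑ q ∈ T, (br b G K L q).card := by
      rw [hT', card_filter, sum_product_right]
      apply sum_congr rfl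
      intro q hq
      rw [← card_filter]
      congr 1
      ext a
      rw [mem_filter]
      refine ⟨fun h => h.2, fun h => ⟨?_, h⟩⟩
      unfold br at h
      rw [mem_filter, mem_range] at h
      rw [mem_range]
      exact h.1.trans (hqb q hq)
    have h2 := frac_card b hb G hG K L (Nat.sqrt (b ^ K - 1)) (by
      have h3 := Nat.sqrt_le' (b ^ K - 1)
      have h4 : 0 < b ^ K := by positivity
      omega) z hz hz1 T' (by
      intro x hx
      rw [hT', mem_filter, mem_product] at hx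
      have h3 := hx.2
      unfold br at h3
      rw [mem_filter, mem_range] at h3
      refine ⟨(hT _ hx.1.2).1, ?_, h3.2.1, h3.1, h3.2.2⟩
      rw [Nat.le_sqrt']
      have := hqK _ hx.1.2
      omega)
    rw [hz2] at h2
    have h3 : (1 : ℝ) ≤ z ^ L * β ^ K := by
      calc (1 : ℝ) ≤ (z * β ^ (R + 1)) ^ L := one_le_pow₀ hR
        _ = z ^ L * β ^ ((R + 1) * L) := by rw [mul_pow, ← pow_mul]
        _ ≤ z ^ L * β ^ K := by
            apply mul_le_mul_of_nonneg_left _ (by positivity)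
            exact pow_le_pow_right₀ hβ1.le (by rw [mul_comm]; exact hL1)
    have h4 : (∑ q ∈ T, ((br b G K L q).card : ℝ)) = (T'.card : ℝ) := by rw [h1]; push_cast; rfl
    rw [h4]
    calc (T'.card : ℝ) ≤ T'.card * (z ^ L * β ^ K) := le_mul_of_one_le_right (Nat.cast_nonneg _) h3
      _ = (T'.card * z ^ L) * β ^ K := by ring
      _ ≤ ((2 * |G| + 1 : ℤ) * β ^ K) * β ^ K := mul_le_mul_of_nonneg_right h2 (by positivity)
      _ = _ := by rw [show 2 * K = K + K by ring, pow_add]; ring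
  -- the other fractions
  have hbnd : ∀ q ∈ T, ∀ a, a < q → Nat.Coprime a q → a ∉ vb b G K L V q →
      ‖φ ((a : ℝ) / q)‖ ≤ H * (1 / (b : ℝ)) ^ (3 * K) := by
    intro q hq a ha hc hnv
    have h1 := far_of_not_vb b G K L V q a (hT q hq).1 ha hc hnv
    have h2 := far_mono b G hVK ((a : ℝ) / q)
    have h3 : A * (3 * g0 * K + 1) ≤ far b G k ((a : ℝ) / q) := by
      have h4 : 2 * (A * (3 * g0 * K + 1)) ≤ V * (L + 1) := by
        calc 2 * (A * (3 * g0 * K + 1)) ≤ 2 * ((A + 1) * ((3 * g0 + 1) * K)) := by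
              apply Nat.mul_le_mul_left
              apply Nat.mul_le_mul (by omega)
              nlinarith
          _ ≤ 2 * ((A + 1) * ((3 * g0 + 1) * ((L + 1) * (R + 1)))) := by
              apply Nat.mul_le_mul_left
              apply Nat.mul_le_mul_left
              exact Nat.mul_le_mul_left _ hL2.le
          _ = V * (L + 1) := by rw [hV]; ring
      omega
    refine (hφ.char _ (3 * g0 * K) (by nlinarith) h3).trans ?_
    apply mul_le_mul_of_nonneg_left _ hH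
    calc γ ^ (3 * g0 * K) = (γ ^ g0) ^ (3 * K) := by rw [← pow_mul]; congr 1; ring
      _ ≤ (1 / (b : ℝ)) ^ (3 * K) := pow_le_pow_left₀ (by positivity) hg0 _
  have hSq : ∀ q ∈ T, Sq φ q ≤ (vb b G K L V q).card + q * (H * (1 / (b : ℝ)) ^ (3 * K)) := by
    intro q hq
    unfold Sq
    rw [← sum_filter_add_sum_filter_not _ (fun a => a ∈ vb b G K L V q)]
    apply add_le_add
    · refine (sum_le_card_nsmul _ _ 1 (fun a _ => hφ.one _)).trans ?_
      rw [nsmul_eq_mul, mul_one, Nat.cast_le]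
      apply card_le_card
      intro a ha
      exact (mem_filter.1 ha).2
    · refine (sum_le_card_nsmul _ _ (H * (1 / (b : ℝ)) ^ (3 * K)) (fun a ha => ?_)).trans ?_
      · rw [mem_filter, mem_filter, mem_range] at ha
        exact hbnd q hq a ha.1.1 ha.1.2 ha.2
      · rw [nsmul_eq_mul]
        apply mul_le_mul_of_nonneg_right _ (by positivity)
        rw [Nat.cast_le]
        refine (card_le_card ((filter_subset _ _).trans (filter_subset _ _))).trans ?_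
        rw [card_range]
  have hvb : (∑ q ∈ T, ((vb b G K L V q).card : ℝ)) ≤ 2 * ((2 * |G| + 1 : ℤ) * β ^ (2 * K)) := by
    refine le_trans ?_ (mul_le_mul_of_nonneg_left hcard (by norm_num))
    rw [mul_sum]
    apply sum_le_sum
    intro q hq
    exact_mod_cast vb_card b G K L V q hV1 (hT q hq).1 (hT q hq).2.2
  have hsq : (∑ q ∈ T, (q : ℝ)) ≤ (b : ℝ) ^ (2 * K) := by
    calc (∑ q ∈ T, (q : ℝ)) ≤ ∑ q ∈ range (b ^ K), (q : ℝ) := by
          apply sum_le_sum_of_subset_of_nonneg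
          · intro q hq
            rw [mem_range]
            exact hqb q hq
          · intro _ _ _
            positivity
      _ ≤ ∑ _q ∈ range (b ^ K), (b : ℝ) ^ K := by
          apply sum_le_sum
          intro q hq
          exact_mod_cast (mem_range.1 hq).le
      _ = _ := by rw [sum_const, card_range, nsmul_eq_mul, two_mul, pow_add]; push_cast; rfl
  have hG0 : (0 : ℝ) ≤ (2 * |G| + 1 : ℤ) := by
    have : (0 : ℤ) ≤ 2 * |G| + 1 := by positivity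
    exact_mod_cast this
  have hlast : (1 / (b : ℝ)) ^ K ≤ (1 / β) ^ (4 * K) := by
    have e1 : (1 / (b : ℝ)) ^ K = (1 / β) ^ (16 * K) := by
      rw [← hβ, pow_mul]
      congr 1
      rw [one_div_pow]
    rw [e1]
    exact pow_le_pow_of_le_one (by positivity) (by rw [div_le_one hβ0]; exact hβ1.le) (by omega)
  calc ∑ q ∈ T, g q * Sq φ q ≤ ∑ q ∈ T, (((b : ℝ) ^ 3 * (1 / β) ^ (6 * K)) * (vb b G K L V q).card +
        q * (H * (1 / (b : ℝ)) ^ (3 * K))) := by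
        apply sum_le_sum
        intro q hq
        obtain ⟨g1, g2⟩ := hg q hq
        calc g q * Sq φ q ≤ g q * ((vb b G K L V q).card + q * (H * (1 / (b : ℝ)) ^ (3 * K))) :=
              mul_le_mul_of_nonneg_left (hSq q hq) g1
          _ = g q * (vb b G K L V q).card + g q * (q * (H * (1 / (b : ℝ)) ^ (3 * K))) := by ring
          _ ≤ _ := by
              apply add_le_add
              · exact mul_le_mul_of_nonneg_right (hgK q hq) (Nat.cast_nonneg _)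
              · exact mul_le_of_le_one_left (by positivity) (hg1 q hq)
    _ = ((b : ℝ) ^ 3 * (1 / β) ^ (6 * K)) * ∑ q ∈ T, ((vb b G K L V q).card : ℝ) +
        (∑ q ∈ T, (q : ℝ)) * (H * (1 / (b : ℝ)) ^ (3 * K)) := by rw [sum_add_distrib, mul_sum, sum_mul]
    _ ≤ ((b : ℝ) ^ 3 * (1 / β) ^ (6 * K)) * (2 * ((2 * |G| + 1 : ℤ) * β ^ (2 * K))) +
        (b : ℝ) ^ (2 * K) * (H * (1 / (b : ℝ)) ^ (3 * K)) := by
        apply add_le_add
        · exact mul_le_mul_of_nonneg_left hvb (by positivity)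
        · exact mul_le_mul_of_nonneg_right hsq (by positivity)
    _ = (2 * (2 * |G| + 1 : ℤ) * (b : ℝ) ^ 3) * (1 / β) ^ (4 * K) + H * (1 / (b : ℝ)) ^ K := by
        have e1 : (1 / β) ^ (6 * K) * β ^ (2 * K) = (1 / β) ^ (4 * K) := by
          rw [show 6 * K = 4 * K + 2 * K by ring, pow_add, mul_assoc, ← mul_pow, one_div_mul_cancel hβ0.ne', one_pow, mul_one]
        have e2 : (b : ℝ) ^ (2 * K) * (1 / (b : ℝ)) ^ (3 * K) = (1 / (b : ℝ)) ^ K := by
          rw [show 3 * K = 2 * K + K by ring, pow_add, ← mul_assoc, ← mul_pow, mul_one_div_cancel hb0.ne', one_pow, one_mul]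
        rw [← e1, ← e2]
        ring
    _ ≤ (2 * (2 * |G| + 1 : ℤ) * (b : ℝ) ^ 3) * (1 / β) ^ (4 * K) + H * (1 / β) ^ (4 * K) := by
        have := mul_le_mul_of_nonneg_left hlast hH
        linarith
    _ = _ := by ring

/-- small denominators -/
lemma small_sum (b : ℕ) (hb : 2 ≤ b) (G : ℤ) (A k t₀ : ℕ) (γ H : ℝ) (hγ0 : 0 < γ) (hH : 0 ≤ H)
    (φ : ℝ → ℂ) (hφ : Dk b G A k t₀ γ H φ) (g0 : ℕ) (hg01 : 1 ≤ g0) (hg0 : γ ^ g0 ≤ 1 / b)
    (K : ℕ) (hK : 1 ≤ K) (hAK : A * (3 * g0 * K + 1) * K ≤ k) (ht : t₀ ≤ K)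
    (T : Finset ℕ) (hT : ∀ q ∈ T, 1 < q ∧ q < b ^ K ∧ Nat.Coprime b q ∧ IsCoprime G (q : ℤ)) (g : ℕ → ℝ)
    (hg : ∀ q ∈ T, 0 ≤ g q ∧ g q ^ 4 * (q : ℝ) ^ 3 ≤ 1) :
    ∑ q ∈ T, g q * Sq φ q ≤ H * (1 / (b : ℝ)) ^ K := by
  classical
  have hb0 : (0 : ℝ) < b := by exact_mod_cast (by omega : 0 < b)
  have hg1 : ∀ q ∈ T, g q ≤ 1 := by
    intro q hq
    obtain ⟨g1, g2⟩ := hg q hq
    have h1 : (1 : ℝ) ≤ (q : ℝ) ^ 3 := one_le_pow₀ (by exact_mod_cast (hT q hq).1.le)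
    have h2 : g q ^ 4 ≤ 1 := by nlinarith [pow_nonneg g1 4]
    exact (pow_le_one_iff_of_nonneg g1 (by norm_num)).1 h2
  have hbnd : ∀ q ∈ T, ∀ a, a < q → Nat.Coprime a q → ‖φ ((a : ℝ) / q)‖ ≤ H * (1 / (b : ℝ)) ^ (3 * K) := by
    intro q hq a ha hc
    obtain ⟨h1, h2, h3, h4⟩ := hT q hq
    have h5 := far_small b hb G K (A * (3 * g0 * K + 1)) k q a h1 h4 h3 hc h2.le hAK
    refine (hφ.char _ (3 * g0 * K) (by nlinarith) h5).trans ?_
    apply mul_le_mul_of_nonneg_left _ hH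
    calc γ ^ (3 * g0 * K) = (γ ^ g0) ^ (3 * K) := by rw [← pow_mul]; congr 1; ring
      _ ≤ (1 / (b : ℝ)) ^ (3 * K) := pow_le_pow_left₀ (by positivity) hg0 _
  have hSq : ∀ q ∈ T, g q * Sq φ q ≤ q * (H * (1 / (b : ℝ)) ^ (3 * K)) := by
    intro q hq
    have h1 : Sq φ q ≤ q * (H * (1 / (b : ℝ)) ^ (3 * K)) := by
      unfold Sq
      refine (sum_le_card_nsmul _ _ (H * (1 / (b : ℝ)) ^ (3 * K)) (fun a ha => ?_)).trans ?_
      · rw [mem_filter, mem_range] at ha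
        exact hbnd q hq a ha.1 ha.2
      · rw [nsmul_eq_mul]
        apply mul_le_mul_of_nonneg_right _ (by positivity)
        rw [Nat.cast_le]
        refine (card_le_card (filter_subset _ _)).trans ?_
        rw [card_range]
    exact (mul_le_of_le_one_left (Sq_nonneg _ _) (hg1 q hq)).trans h1
  calc ∑ q ∈ T, g q * Sq φ q ≤ ∑ q ∈ T, (q : ℝ) * (H * (1 / (b : ℝ)) ^ (3 * K)) := sum_le_sum hSq
    _ ≤ ∑ q ∈ range (b ^ K), (q : ℝ) * (H * (1 / (b : ℝ)) ^ (3 * K)) := by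
        apply sum_le_sum_of_subset_of_nonneg
        · intro q hq
          rw [mem_range]
          exact (hT q hq).2.1
        · intro _ _ _
          positivity
    _ ≤ ∑ _q ∈ range (b ^ K), (b : ℝ) ^ K * (H * (1 / (b : ℝ)) ^ (3 * K)) := by
        apply sum_le_sum
        intro q hq
        apply mul_le_mul_of_nonneg_right _ (by positivity)
        exact_mod_cast (mem_range.1 hq).le
    _ = H * ((b : ℝ) ^ (2 * K) * (1 / (b : ℝ)) ^ (3 * K)) := by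
        rw [sum_const, card_range, nsmul_eq_mul, two_mul, pow_add]
        push_cast
        ring
    _ = _ := by
        have e2 : (b : ℝ) ^ (2 * K) * (1 / (b : ℝ)) ^ (3 * K) = (1 / (b : ℝ)) ^ K := by
          rw [show 3 * K = 2 * K + K by ring, pow_add, ← mul_assoc, ← mul_pow, mul_one_div_cancel hb0.ne', one_pow, one_mul]
        rw [e2]

lemma clog_small (b : ℕ) (hb : 2 ≤ b) (C : ℕ) : ∃ k₁ : ℕ, ∀ k : ℕ, k₁ ≤ k → C * (Nat.clog b k) ^ 2 ≤ k := by
  have h1 := tendsto_pow_const_div_const_pow_of_one_lt 2 (by norm_num : (1 : ℝ) < 2)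
  have h2 : ∀ᶠ n : ℕ in Filter.atTop, (n : ℝ) ^ 2 / 2 ^ n < 1 / (2 * (C + 1)) :=
    h1.eventually (gt_mem_nhds (by positivity))
  obtain ⟨n₀, hn₀⟩ := Filter.eventually_atTop.1 h2
  refine ⟨b ^ (n₀ + 1) + 2, fun k hk => ?_⟩
  obtain ⟨n, hn⟩ : ∃ n, n = Nat.clog b k := ⟨_, rfl⟩
  have h3 : k ≤ b ^ n := by rw [hn]; exact Nat.le_pow_clog (by omega) k
  have h4 : n₀ < n := by
    have : b ^ (n₀ + 1) < b ^ n := by omega
    have := (Nat.pow_lt_pow_iff_right (by omega : 1 < b)).1 this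
    omega
  have h5 : b ^ (n - 1) < k := by
    have := Nat.pow_pred_clog_lt_self (by omega : 1 < b) (by omega : 1 < k)
    rw [← hn, Nat.pred_eq_sub_one] at this
    exact this
  have h6 := hn₀ n h4.le
  rw [div_lt_iff₀ (by positivity)] at h6
  have h7 : (2 : ℝ) ^ n = 2 * 2 ^ (n - 1) := by
    rw [← pow_succ']
    congr 1
    omega
  have h8 : ((C : ℝ) + 1) * (n : ℝ) ^ 2 < 2 ^ (n - 1) := by
    rw [h7] at h6
    have hC : (0 : ℝ) < 2 * (C + 1) := by positivity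
    have := mul_lt_mul_of_pos_left h6 hC
    have e : 2 * ((C : ℝ) + 1) * (1 / (2 * (C + 1)) * (2 * 2 ^ (n - 1))) = 2 * 2 ^ (n - 1) := by
      field_simp
    rw [e] at this
    linarith
  have h9 : (C + 1) * n ^ 2 < 2 ^ (n - 1) := by exact_mod_cast h8
  have h10 : 2 ^ (n - 1) ≤ b ^ (n - 1) := Nat.pow_le_pow_left hb _
  rw [← hn]
  nlinarith

/-- **the level of distribution** -/
theorem level (b : ℕ) (hb : 2 ≤ b) (A : ℕ) (γ : ℝ) (hγ0 : 0 < γ) (hγ1 : γ < 1) (U e : ℕ) : ∃ W : ℕ, 1 ≤ W ∧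
    ∀ (G : ℤ), G ≠ 0 → ∀ H : ℝ, 1 ≤ H → ∃ k₀ : ℕ, ∀ k t₀ : ℕ, k₀ ≤ k → b ^ t₀ ≤ k ^ e → ∀ φ : ℝ → ℂ,
    Dk b G A k t₀ γ H φ → ∀ T : Finset ℕ,
    (∀ q ∈ T, 1 < q ∧ q ≤ b ^ (k / W) ∧ Nat.Coprime b q ∧ IsCoprime G (q : ℤ)) → ∀ g : ℕ → ℝ,
    (∀ q ∈ T, 0 ≤ g q ∧ g q ^ 4 * (q : ℝ) ^ 3 ≤ 1) → ∑ q ∈ T, g q * Sq φ q ≤ 1 / (k : ℝ) ^ U := by
  classical
  have hb0 : (0 : ℝ) < b := by exact_mod_cast (by omega : 0 < b)
  have hb1 : (1 : ℝ) < b := by exact_mod_cast (by omega : 1 < b)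
  obtain ⟨β, hβ1, hβ⟩ : ∃ β : ℝ, 1 < β ∧ β ^ 16 = b := by
    refine ⟨(b : ℝ) ^ (1 / 16 : ℝ), Real.one_lt_rpow hb1 (by norm_num), ?_⟩
    rw [← Real.rpow_natCast, ← Real.rpow_mul hb0.le]
    norm_num
  have hβ0 : 0 < β := by linarith
  have hβb : β ≤ b := by
    rw [← hβ]
    exact le_self_pow₀ hβ1.le (by norm_num)
  obtain ⟨z, hz⟩ : ∃ z : ℝ, z = (β - 1) / (2 * b) := ⟨_, rfl⟩
  have hz0 : 0 < z := by rw [hz]; exact div_pos (by linarith) (by linarith)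
  have hz1 : z ≤ 1 := by
    rw [hz, div_le_one (by linarith)]
    linarith
  have hz2 : 1 + 2 * b * z = β := by
    rw [hz]
    field_simp
    ring
  obtain ⟨R, hR⟩ := pow_unbounded_of_one_lt (1 / z) hβ1
  have hR1 : 1 ≤ z * β ^ (R + 1) := by
    have h1 : β ^ R ≤ β ^ (R + 1) := pow_le_pow_right₀ hβ1.le (by omega)
    have h2 : 1 / z < β ^ (R + 1) := lt_of_lt_of_le hR h1
    rw [div_lt_iff₀ hz0] at h2
    linarith
  obtain ⟨g0', hg0'⟩ := exists_pow_lt_of_lt_one (show (0 : ℝ) < 1 / b by positivity) hγ1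
  obtain ⟨g0, hg0e⟩ : ∃ g0, g0 = g0' + 1 := ⟨_, rfl⟩
  have hg01 : 1 ≤ g0 := by omega
  have hg0 : γ ^ g0 ≤ 1 / b := by
    refine le_trans ?_ hg0'.le
    exact pow_le_pow_of_le_one hγ0.le hγ1.le (by omega)
  obtain ⟨V, hV⟩ : ∃ V, V = 2 * (A + 1) * (3 * g0 + 1) * (R + 1) := ⟨_, rfl⟩
  have hV1 : 1 ≤ V := by rw [hV]; exact Nat.succ_le_of_lt (by positivity)
  refine ⟨3 * V, by omega, fun G hG H hH => ?_⟩
  obtain ⟨c, hc⟩ : ∃ c, c = 4 * (U + 2) + e := ⟨_, rfl⟩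
  have hc1 : 1 ≤ c := by omega
  -- the size of `k`
  obtain ⟨k₁, hk₁⟩ : ∃ k₁ : ℕ, ∀ k : ℕ, k₁ ≤ k → A * (3 * g0 * (c * Nat.clog b k) + 1) * (c * Nat.clog b k) ≤ k := by
    obtain ⟨k₁, h1⟩ := clog_small b hb (A * (3 * g0 * c + 1) * c)
    refine ⟨k₁ + 2, fun k hk => (?_ : _ ≤ _).trans (h1 k (by omega))⟩
    have h2 : 1 ≤ Nat.clog b k := Nat.clog_pos (by omega) (by omega)
    calc A * (3 * g0 * (c * Nat.clog b k) + 1) * (c * Nat.clog b k) ≤
        A * ((3 * g0 * c + 1) * Nat.clog b k) * (c * Nat.clog b k) := by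
          apply Nat.mul_le_mul_right
          apply Nat.mul_le_mul_left
          nlinarith
      _ = _ := by ring
  obtain ⟨C₃, hC₃⟩ : ∃ C₃ : ℝ, C₃ = 2 * (2 * |G| + 1 : ℤ) * (b : ℝ) ^ 3 + H := ⟨_, rfl⟩
  have hG0 : (0 : ℝ) ≤ (2 * |G| + 1 : ℤ) := by
    have : (0 : ℤ) ≤ 2 * |G| + 1 := by positivity
    exact_mod_cast this
  have hC0 : 0 ≤ C₃ := by rw [hC₃]; positivity
  obtain ⟨k₂, hk₂⟩ := exists_nat_ge (H + C₃)
  refine ⟨k₁ + k₂ + 3 * V + 2, fun k t₀ hk ht φ hφ T hT g hg => ?_⟩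
  have hH0 : 0 ≤ H := by linarith
  have hkr : (1 : ℝ) ≤ k := by exact_mod_cast (by omega : 1 ≤ k)
  obtain ⟨l, hl⟩ : ∃ l, l = Nat.clog b k := ⟨_, rfl⟩
  have hl1 : 1 ≤ l := by rw [hl]; exact Nat.clog_pos (by omega) (by omega)
  have hl2 : k ≤ b ^ l := by rw [hl]; exact Nat.le_pow_clog (by omega) k
  obtain ⟨K₁, hK₁⟩ : ∃ K₁, K₁ = c * l := ⟨_, rfl⟩
  have hK₁1 : 1 ≤ K₁ := by rw [hK₁]; exact Nat.succ_le_of_lt (by positivity)
  have ht0 : t₀ ≤ K₁ := by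
    have h1 : b ^ t₀ ≤ b ^ (e * l) := by
      calc b ^ t₀ ≤ k ^ e := ht
        _ ≤ (b ^ l) ^ e := Nat.pow_le_pow_left hl2 e
        _ = b ^ (e * l) := by rw [← pow_mul, mul_comm]
    have h2 := (Nat.pow_le_pow_iff_right (by omega : 1 < b)).1 h1
    rw [hK₁, hc]
    nlinarith
  have hβK : (1 / β) ^ (4 * K₁) ≤ 1 / (k : ℝ) ^ (U + 2) := by
    have h1 : (k : ℝ) ^ (U + 2) ≤ β ^ (4 * K₁) := by
      calc (k : ℝ) ^ (U + 2) ≤ ((b : ℝ) ^ l) ^ (U + 2) := pow_le_pow_left₀ (by linarith) (by exact_mod_cast hl2) _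
        _ = β ^ (4 * (4 * (U + 2)) * l) := by rw [← hβ]; ring
        _ ≤ β ^ (4 * K₁) := by
            apply pow_le_pow_right₀ hβ1.le
            rw [hK₁, hc]
            nlinarith
    rw [one_div_pow]
    exact one_div_le_one_div_of_le (by positivity) h1
  have hsplit : ∑ q ∈ T, g q * Sq φ q = ∑ q ∈ T.filter (fun q => scl b q < K₁), g q * Sq φ q +
      ∑ q ∈ T.filter (fun q => ¬ scl b q < K₁), g q * Sq φ q := (sum_filter_add_sum_filter_not _ _ _).symm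
  have hsm : ∑ q ∈ T.filter (fun q => scl b q < K₁), g q * Sq φ q ≤ H * (1 / (b : ℝ)) ^ K₁ := by
    apply small_sum b hb G A k t₀ γ H hγ0 hH0 φ hφ g0 hg01 hg0 K₁ hK₁1 _ ht0 _ _ g
      (fun q hq => hg q (mem_filter.1 hq).1)
    · rw [hK₁, hl]
      exact hk₁ k (by omega)
    · intro q hq
      rw [mem_filter] at hq
      obtain ⟨h1, h2, h3, h4⟩ := hT q hq.1
      refine ⟨h1, ?_, h3, h4⟩
      have h5 := scl_lt b hb q
      have h6 : b ^ scl b q ≤ b ^ K₁ := Nat.pow_le_pow_right (by omega) hq.2.le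
      have h7 : q ≤ q ^ 2 := by nlinarith
      omega
  have hkW : 1 ≤ k / (3 * V) := (Nat.one_le_div_iff (by omega)).2 (by omega)
  have hkW2 : k / (3 * V) * (3 * V) ≤ k := Nat.div_mul_le_self _ _
  have hscl : ∀ q ∈ T, scl b q ≤ 3 * (k / (3 * V)) := by
    intro q hq
    obtain ⟨h1, h2, h3, h4⟩ := hT q hq
    apply scl_le b hb
    calc q ^ 2 + 1 ≤ (b ^ (k / (3 * V))) ^ 2 + 1 := by
          have := Nat.pow_le_pow_left h2 2
          omega
      _ ≤ 2 * (b ^ (k / (3 * V))) ^ 2 := by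
          have : 1 ≤ (b ^ (k / (3 * V))) ^ 2 := Nat.one_le_pow _ _ (by positivity)
          omega
      _ ≤ b ^ (k / (3 * V)) * (b ^ (k / (3 * V))) ^ 2 := by
          apply Nat.mul_le_mul_right
          calc 2 ≤ b ^ 1 := by rw [pow_one]; exact hb
            _ ≤ _ := Nat.pow_le_pow_right (by omega) hkW
      _ = b ^ (3 * (k / (3 * V))) := by rw [← pow_mul, ← pow_add]; congr 1; ring
  have hbig : ∑ q ∈ T.filter (fun q => ¬ scl b q < K₁), g q * Sq φ q ≤ k * (C₃ * (1 / β) ^ (4 * K₁)) := by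
    have h1 : ∑ q ∈ T.filter (fun q => ¬ scl b q < K₁), g q * Sq φ q =
        ∑ K ∈ (range (k + 1)).filter (fun K => 1 ≤ K), ∑ q ∈ (T.filter (fun q => ¬ scl b q < K₁)).filter (fun q => scl b q = K), g q * Sq φ q := by
      rw [sum_fiberwise_of_maps_to]
      intro q hq
      rw [mem_filter] at hq
      have h2 := hscl q hq.1
      rw [mem_filter, mem_range]
      constructor
      · have : 3 * (k / (3 * V)) ≤ k := by nlinarith
        omega
      · omega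
    rw [h1]
    have h2 : ∀ K ∈ (range (k + 1)).filter (fun K => 1 ≤ K), ∑ q ∈ (T.filter (fun q => ¬ scl b q < K₁)).filter (fun q => scl b q = K), g q * Sq φ q ≤
        C₃ * (1 / β) ^ (4 * K₁) := by
      intro K hK
      rw [mem_filter, mem_range] at hK
      rcases (T.filter (fun q => ¬ scl b q < K₁)).filter (fun q => scl b q = K) |>.eq_empty_or_nonempty with h0 | ⟨q₀, hq₀⟩
      · rw [h0, sum_empty]
        positivity
      · rw [mem_filter, mem_filter] at hq₀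
        have hK₁K : K₁ ≤ K := by
          rw [← hq₀.2]
          omega
        have hVK : V * K ≤ k := by
          have := hscl q₀ hq₀.1.1
          rw [hq₀.2] at this
          nlinarith
        refine (scale_sum b hb G hG A k t₀ γ H hγ0 hH0 φ hφ β z hβ hβ1 hz0 hz1 hz2 R hR1 g0 hg01 hg0 V hV K hK.2
          hVK (ht0.trans hK₁K) _ (fun q hq => ?_) g (fun q hq => ?_)).trans ?_
        · rw [mem_filter, mem_filter] at hq
          obtain ⟨h1, h2, h3, h4⟩ := hT q hq.1.1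
          exact ⟨h1.le, hq.2, h3⟩
        · rw [mem_filter, mem_filter] at hq
          exact hg q hq.1.1
        · rw [← hC₃]
          apply mul_le_mul_of_nonneg_left _ hC0
          exact pow_le_pow_of_le_one (by positivity) (by rw [div_le_one hβ0]; exact hβ1.le) (by omega)
    refine (sum_le_card_nsmul _ _ _ h2).trans ?_
    rw [nsmul_eq_mul]
    apply mul_le_mul_of_nonneg_right _ (by positivity)
    rw [Nat.cast_le]
    have h3 : (range (k + 1)).filter (fun K => 1 ≤ K) ⊆ Icc 1 k := by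
      intro K hK
      rw [mem_filter, mem_range] at hK
      rw [mem_Icc]
      omega
    refine (card_le_card h3).trans ?_
    rw [Nat.card_Icc]
    omega
  have hlast : (1 / (b : ℝ)) ^ K₁ ≤ (1 / β) ^ (4 * K₁) := by
    have e1 : (1 / (b : ℝ)) ^ K₁ = (1 / β) ^ (16 * K₁) := by
      rw [← hβ, pow_mul]
      congr 1
      rw [one_div_pow]
    rw [e1]
    exact pow_le_pow_of_le_one (by positivity) (by rw [div_le_one hβ0]; exact hβ1.le) (by omega)
  rw [hsplit]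
  have hk₂' : H + C₃ ≤ k := hk₂.trans (by exact_mod_cast (by omega : k₂ ≤ k))
  calc _ ≤ H * (1 / β) ^ (4 * K₁) + k * (C₃ * (1 / β) ^ (4 * K₁)) :=
        add_le_add (hsm.trans (mul_le_mul_of_nonneg_left hlast hH0)) hbig
    _ = (H + k * C₃) * (1 / β) ^ (4 * K₁) := by ring
    _ ≤ (k : ℝ) ^ 2 * (1 / (k : ℝ) ^ (U + 2)) := by
        apply mul_le_mul _ hβK (by positivity) (by positivity)
        nlinarith
    _ = _ := by
        rw [pow_add]
        field_simp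

end Pool.Agent.Run7.h560.AP
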