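import Pool.Agent.Run7.h560.AP.Upper

set_option autoImplicit false

/-!
# Mertens products
-/

namespace Pool.Agent.Run7.h560.AP

open Finset

/-- the primes up to `N` -/
def prs (N : ℕ) : Finset ℕ := (range (N + 1)).filter Nat.Prime

lemma mem_prs (N p : ℕ) : p ∈ prs N ↔ p ≤ N ∧ p.Prime := by
  unfold prs
  rw [mem_filter, mem_range]
  constructor
  · rintro ⟨h1, h2⟩
    exact ⟨by omega, h2⟩
  · rintro ⟨h1, h2⟩
    exact ⟨by omega, h2⟩

lemma sum_sq (P : Finset ℕ) (hP : ∀ p ∈ P, 2 ≤ p) : ∑ p ∈ P, (1 : ℝ) / (p : ℝ) ^ 2 ≤ 1 := by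
  have h1 : ∀ M : ℕ, ∑ p ∈ Ico 2 (M + 2), (1 : ℝ) / (p : ℝ) ^ 2 ≤ 1 - 1 / (M + 1) := by
    intro M
    induction M with
    | zero => simp
    | succ M ih =>
      rw [Nat.succ_add, Nat.Ico_succ_right_eq_insert_Ico (by omega), sum_insert (by simp)]
      have h2 : (0 : ℝ) < M + 1 := by positivity
      have h3 : (1 : ℝ) / ((M + 2 : ℕ) : ℝ) ^ 2 ≤ 1 / (M + 1) - 1 / ((M + 1 : ℕ) + 1) := by
        push_cast
        rw [div_sub_div _ _ (by positivity) (by positivity), div_le_div_iff₀ (by positivity) (by positivity)]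
        nlinarith
      linarith
  obtain ⟨M, hM⟩ : ∃ M : ℕ, ∀ p ∈ P, p < M + 2 := ⟨P.sup id, fun p hp => by
    have := le_sup (f := id) hp
    simp only [id] at this
    omega⟩
  calc ∑ p ∈ P, (1 : ℝ) / (p : ℝ) ^ 2 ≤ ∑ p ∈ Ico 2 (M + 2), (1 : ℝ) / (p : ℝ) ^ 2 := by
        apply sum_le_sum_of_subset_of_nonneg
        · intro p hp
          rw [mem_Ico]
          exact ⟨hP p hp, hM p hp⟩
        · intro _ _ _
          positivity
    _ ≤ 1 - 1 / (M + 1) := h1 M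
    _ ≤ 1 := by
        have : (0 : ℝ) ≤ 1 / (M + 1) := by positivity
        linarith

/-- Mertens: the sum of the reciprocals of the primes, in exponential form -/
lemma mert_sum : ∃ K : ℝ, 0 < K ∧ ∀ N : ℕ, 2 ≤ N →
    Real.exp (∑ p ∈ prs N, (1 : ℝ) / p) ≤ K * Real.log N ∧
    Real.log N ≤ K * Real.exp (∑ p ∈ prs N, (1 : ℝ) / p) := by
  classical
  obtain ⟨C0, hC0, hM⟩ := Pool.Agent.Helper112.LP.mertens_group
  refine ⟨2 * Real.exp C0 * 4, by positivity, fun N hN => ?_⟩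
  have hlog2 : 0 < Real.log 2 := Real.log_pos (by norm_num)
  have hlog2' : 1 / 2 < Real.log 2 := by have := Real.log_two_gt_d9; linarith
  have hlog2'' : Real.log 2 < 1 := by have := Real.log_two_lt_d9; linarith
  obtain ⟨n, hn⟩ : ∃ n, n = Nat.log 2 N := ⟨_, rfl⟩
  obtain ⟨J, hJ⟩ : ∃ J, J = Nat.log 2 n := ⟨_, rfl⟩
  have hn1 : 1 ≤ n := by rw [hn]; exact Nat.le_log_of_pow_le (by norm_num) (by simpa using hN)
  have hJ1 : 2 ^ J ≤ n := by rw [hJ]; exact Nat.pow_log_le_self 2 (by omega)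
  have hJ2 : n < 2 ^ (J + 1) := by rw [hJ]; exact Nat.lt_pow_succ_log_self (by norm_num) n
  have hy1 : 2 ^ n ≤ N := by rw [hn]; exact Nat.pow_log_le_self 2 (by omega)
  have hy2 : N < 2 ^ (n + 1) := by rw [hn]; exact Nat.lt_pow_succ_log_self (by norm_num) N
  have hlo : 2 ^ 2 ^ J ≤ N := (Nat.pow_le_pow_right (by norm_num) hJ1).trans hy1
  have hhi : N < 2 ^ 2 ^ (J + 1) := lt_of_lt_of_le hy2 (Nat.pow_le_pow_right (by norm_num) hJ2)
  -- the geometric series
  have hgeo : ∀ M : ℕ, ∑ j ∈ Icc 1 M, C0 / 2 ^ j ≤ C0 := by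
    intro M
    have h1 : ∑ j ∈ Icc 1 M, C0 / 2 ^ j = C0 * (1 - 1 / 2 ^ M) := by
      induction M with
      | zero => simp
      | succ M ih =>
        rw [Finset.sum_Icc_succ_top (by omega), ih, pow_succ]
        field_simp
        ring
    rw [h1]
    have : (0 : ℝ) ≤ 1 / 2 ^ M := by positivity
    nlinarith
  have hdisj : ∀ M : ℕ, Set.PairwiseDisjoint (Icc 1 M : Set ℕ) (fun j => Pool.Agent.Helper112.LP.Gj j) := by
    intro M i hi j hj hij
    rw [Function.onFun, disjoint_left]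
    intro p hp hp'
    unfold Pool.Agent.Helper112.LP.Gj at hp hp'
    rw [mem_filter, mem_Ico] at hp hp'
    rw [coe_Icc, Set.mem_Icc] at hi hj
    rcases Nat.lt_or_gt_of_ne hij with h | h
    · have h1 : 2 ^ 2 ^ i ≤ 2 ^ 2 ^ (j - 1) := Nat.pow_le_pow_right (by norm_num) (Nat.pow_le_pow_right (by norm_num) (by omega))
      omega
    · have h1 : 2 ^ 2 ^ j ≤ 2 ^ 2 ^ (i - 1) := Nat.pow_le_pow_right (by norm_num) (Nat.pow_le_pow_right (by norm_num) (by omega))
      omega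
  have hgroup : ∀ M : ℕ, |∑ j ∈ Icc 1 M, ∑ l ∈ Pool.Agent.Helper112.LP.Gj j, (1 : ℝ) / l - M * Real.log 2| ≤ C0 := by
    intro M
    have h1 : ∑ j ∈ Icc 1 M, ∑ l ∈ Pool.Agent.Helper112.LP.Gj j, (1 : ℝ) / l - M * Real.log 2 =
        ∑ j ∈ Icc 1 M, (∑ l ∈ Pool.Agent.Helper112.LP.Gj j, (1 : ℝ) / l - Real.log 2) := by
      rw [sum_sub_distrib, sum_const, nsmul_eq_mul, Nat.card_Icc, Nat.add_sub_cancel]
    rw [h1]
    refine (abs_sum_le_sum_abs _ _).trans (le_trans (sum_le_sum fun j hj => ?_) (hgeo M))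
    exact hM j (mem_Icc.1 hj).1
  have hup : ∑ p ∈ prs N, (1 : ℝ) / p ≤ (J + 1) * Real.log 2 + C0 := by
    have h1 : prs N ⊆ (Icc 1 (J + 1)).biUnion (fun j => Pool.Agent.Helper112.LP.Gj j) := by
      intro p hp
      rw [mem_prs] at hp
      have h3 : p < 2 ^ 2 ^ (J + 1) := by omega
      have hex : ∃ j, p < 2 ^ 2 ^ j := ⟨_, h3⟩
      obtain ⟨j, hj⟩ : ∃ j, j = Nat.find hex := ⟨_, rfl⟩
      have h4 : p < 2 ^ 2 ^ j := by rw [hj]; exact Nat.find_spec hex
      have h5 : j ≤ J + 1 := by rw [hj]; exact Nat.find_min' hex h3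
      have h6 : 1 ≤ j := by
        by_contra h
        have h7 : j = 0 := by omega
        rw [h7] at h4
        have := hp.2.two_le
        norm_num at h4
        omega
      have h7 : 2 ^ 2 ^ (j - 1) ≤ p := by
        by_contra hcon
        have h8 : j - 1 < Nat.find hex := by rw [← hj]; omega
        have := Nat.find_min hex h8
        omega
      rw [mem_biUnion]
      refine ⟨j, mem_Icc.2 ⟨h6, h5⟩, ?_⟩
      unfold Pool.Agent.Helper112.LP.Gj
      rw [mem_filter, mem_Ico]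
      exact ⟨⟨h7, h4⟩, hp.2⟩
    have h2 := (abs_le.1 (hgroup (J + 1))).2
    push_cast at h2
    calc ∑ p ∈ prs N, (1 : ℝ) / p ≤ ∑ p ∈ (Icc 1 (J + 1)).biUnion (fun j => Pool.Agent.Helper112.LP.Gj j), (1 : ℝ) / p := by
          apply sum_le_sum_of_subset_of_nonneg h1
          intro _ _ _
          positivity
      _ ≤ ∑ j ∈ Icc 1 (J + 1), ∑ p ∈ Pool.Agent.Helper112.LP.Gj j, (1 : ℝ) / p :=
          sum_biUnion_le' _ _ _ (fun x => by positivity)
      _ ≤ _ := by linarith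
  have hdn : J * Real.log 2 - C0 ≤ ∑ p ∈ prs N, (1 : ℝ) / p := by
    have h1 : (Icc 1 J).biUnion (fun j => Pool.Agent.Helper112.LP.Gj j) ⊆ prs N := by
      intro p hp
      rw [mem_biUnion] at hp
      obtain ⟨j, hj, hp⟩ := hp
      unfold Pool.Agent.Helper112.LP.Gj at hp
      rw [mem_filter, mem_Ico] at hp
      rw [mem_Icc] at hj
      rw [mem_prs]
      have h3 : 2 ^ 2 ^ j ≤ 2 ^ 2 ^ J := Nat.pow_le_pow_right (by norm_num) (Nat.pow_le_pow_right (by norm_num) hj.2)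
      exact ⟨by omega, hp.2⟩
    have h2 := (abs_le.1 (hgroup J)).1
    calc J * Real.log 2 - C0 ≤ ∑ j ∈ Icc 1 J, ∑ p ∈ Pool.Agent.Helper112.LP.Gj j, (1 : ℝ) / p := by linarith
      _ = ∑ p ∈ (Icc 1 J).biUnion (fun j => Pool.Agent.Helper112.LP.Gj j), (1 : ℝ) / p :=
          (sum_biUnion (hdisj J)).symm
      _ ≤ _ := by
          apply sum_le_sum_of_subset_of_nonneg h1
          intro _ _ _
          positivity
  have hNr : (0 : ℝ) < N := by exact_mod_cast (by omega : 0 < N)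
  have hl1 : (2 : ℝ) ^ J * Real.log 2 ≤ Real.log N := by
    have h1 : ((2 : ℝ) ^ 2 ^ J) ≤ N := by exact_mod_cast hlo
    have h2 := Real.log_le_log (by positivity) h1
    rw [Real.log_pow] at h2
    push_cast at h2
    exact h2
  have hl2 : Real.log N ≤ (2 : ℝ) ^ (J + 1) * Real.log 2 := by
    have h1 : (N : ℝ) ≤ ((2 : ℝ) ^ 2 ^ (J + 1)) := by exact_mod_cast hhi.le
    have h2 := Real.log_le_log hNr h1
    rw [Real.log_pow] at h2
    push_cast at h2
    exact h2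
  have hE : ∀ M : ℕ, Real.exp (M * Real.log 2) = 2 ^ M := by
    intro M
    rw [Real.exp_nat_mul, Real.exp_log (by norm_num)]
  have heC : 1 ≤ Real.exp C0 := Real.one_le_exp hC0.le
  constructor
  · calc Real.exp (∑ p ∈ prs N, (1 : ℝ) / p) ≤ Real.exp ((J + 1 : ℕ) * Real.log 2 + C0) := by
          apply Real.exp_le_exp.2
          push_cast
          exact hup
      _ = 2 * 2 ^ J * Real.exp C0 := by rw [Real.exp_add, hE, pow_succ]; ring
      _ ≤ 2 * Real.exp C0 * 4 * (2 ^ J * Real.log 2) := by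
          have : (0 : ℝ) < 2 ^ J * Real.exp C0 := by positivity
          nlinarith
      _ ≤ _ := mul_le_mul_of_nonneg_left hl1 (by positivity)
  · have h1 : Real.exp (J * Real.log 2 - C0) ≤ Real.exp (∑ p ∈ prs N, (1 : ℝ) / p) := Real.exp_le_exp.2 hdn
    rw [Real.exp_sub, hE] at h1
    calc Real.log N ≤ (2 : ℝ) ^ (J + 1) * Real.log 2 := hl2
      _ ≤ 2 * 2 ^ J := by
          rw [pow_succ]
          have : (0 : ℝ) < 2 ^ J := by positivity
          nlinarith
      _ = 2 * Real.exp C0 * (2 ^ J / Real.exp C0) := by field_simp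
      _ ≤ 2 * Real.exp C0 * Real.exp (∑ p ∈ prs N, (1 : ℝ) / p) := mul_le_mul_of_nonneg_left h1 (by positivity)
      _ ≤ 2 * Real.exp C0 * 4 * Real.exp (∑ p ∈ prs N, (1 : ℝ) / p) := by
          have : (0 : ℝ) < Real.exp C0 * Real.exp (∑ p ∈ prs N, (1 : ℝ) / p) := by positivity
          nlinarith

end Pool.Agent.Run7.h560.AP
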