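import Pool.Agent.Run7.h560.AP.Sys2

set_option autoImplicit false

/-!
# Pairs of linear forms with a fixed sum
-/

namespace Pool.Agent.Run7.h560.AP

open Finset Polynomial

variable {σ : Type}

/-- the part of `M / φ(M)` of the primes up to `L` -/
noncomputable def Am (L M : ℕ) : ℝ := ∏ p ∈ (prs L).filter (fun p => p ∣ M), (1 - 1 / (p : ℝ))⁻¹

lemma inv_sq (L p : ℕ) (hp : p ∈ prs L) : (1 - 1 / (p : ℝ)) ^ 2 * (1 - 1 / (p : ℝ))⁻¹ = 1 - 1 / (p : ℝ) := by
  obtain ⟨a1, a2⟩ := prs_half L p hp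
  have : (1 - 1 / (p : ℝ)) ≠ 0 := by
    have : (0 : ℝ) < 1 - 1 / (p : ℝ) := by linarith
    exact this.ne'
  rw [sq, mul_assoc, mul_inv_cancel₀ this, mul_one]

/-- the lower bound for the product -/
lemma pair_low (L M : ℕ) (he : Even M) (r : ℕ → ℕ) (hr : ∀ p ∈ prs L, r p = if p ∣ M then 1 else 2) :
    Real.exp (-(9 / 2)) * (Vp L ^ 2 * Am L M) ≤ ∏ p ∈ prs L, (1 - (r p : ℝ) / p) := by
  unfold Am Vp
  rw [prod_filter, ← prod_pow, ← prod_mul_distrib]
  have h0 := sum_sq (prs L) (fun p hp => ((mem_prs L p).1 hp).2.two_le)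
  have h1 : Real.exp (-(9 / 2)) ≤ ∏ p ∈ prs L, Real.exp (-((9 / 2) * (1 / (p : ℝ) ^ 2))) := by
    rw [← Real.exp_sum]
    apply Real.exp_le_exp.2
    rw [sum_neg_distrib, ← mul_sum]
    linarith
  have h2 : 0 ≤ ∏ p ∈ prs L, ((1 - 1 / (p : ℝ)) ^ 2 * if p ∣ M then (1 - 1 / (p : ℝ))⁻¹ else 1) := by
    apply prod_nonneg
    intro p hp
    obtain ⟨a1, a2⟩ := prs_half L p hp
    apply mul_nonneg (by positivity)
    split_ifs
    · exact inv_nonneg.2 (by linarith)
    · norm_num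
  refine (mul_le_mul_of_nonneg_right h1 h2).trans ?_
  rw [← prod_mul_distrib]
  apply prod_le_prod
  · intro p hp
    obtain ⟨a1, a2⟩ := prs_half L p hp
    apply mul_nonneg (Real.exp_pos _).le
    apply mul_nonneg (by positivity)
    split_ifs
    · exact inv_nonneg.2 (by linarith)
    · norm_num
  · intro p hp
    obtain ⟨a1, a2⟩ := prs_half L p hp
    have hpp := ((mem_prs L p).1 hp).2
    have hp0 : (0 : ℝ) < p := by exact_mod_cast hpp.pos
    rw [hr p hp]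
    split_ifs with h
    · rw [inv_sq L p hp, Nat.cast_one]
      apply mul_le_of_le_one_left (by linarith)
      apply Real.exp_le_one_iff.2
      have : 0 ≤ (9 : ℝ) / 2 * (1 / (p : ℝ) ^ 2) := by positivity
      linarith
    · have hp3 : (3 : ℝ) ≤ p := by
        have h4 : p ≠ 2 := by
          rintro rfl
          exact h he.two_dvd
        have h5 := hpp.two_le
        exact_mod_cast (by omega : 3 ≤ p)
      obtain ⟨x, hx⟩ : ∃ x : ℝ, x = 1 / (p : ℝ) := ⟨_, rfl⟩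
      have hx3 : x ≤ 1 / 3 := by rw [hx]; exact one_div_le_one_div_of_le (by norm_num) hp3
      have hx0 : 0 ≤ x := by rw [hx]; positivity
      have e1 : 1 / (p : ℝ) ^ 2 = x ^ 2 := by rw [hx, one_div_pow]
      have e2 : ((2 : ℕ) : ℝ) / p = 2 * x := by rw [hx]; push_cast; ring
      rw [e1, e2, ← hx, mul_one]
      have h6 : Real.exp (-(9 / 2 * x ^ 2)) ≤ 1 - 9 / 4 * x ^ 2 := by
        have := one_sub_ge_exp (x := 9 / 4 * x ^ 2) (by positivity) (by nlinarith)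
        have e3 : -(2 * (9 / 4 * x ^ 2)) = -(9 / 2 * x ^ 2) := by ring
        rwa [e3] at this
      calc Real.exp (-(9 / 2 * x ^ 2)) * (1 - x) ^ 2 ≤ (1 - 9 / 4 * x ^ 2) * (1 - x) ^ 2 :=
            mul_le_mul_of_nonneg_right h6 (by positivity)
        _ ≤ 1 - 2 * x := by
            have h7 : 4 / 9 ≤ (1 - x) ^ 2 := by nlinarith
            nlinarith [sq_nonneg x, mul_nonneg (sq_nonneg x) (by linarith : (0:ℝ) ≤ (1 - x) ^ 2 - 4 / 9)]

/-- the upper bound for the product -/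
lemma pair_up (L M : ℕ) (r : ℕ → ℕ) (hr : ∀ p ∈ prs L, r p = if p ∣ M then 1 else 2) :
    ∏ p ∈ prs L, (1 - (r p : ℝ) / p) ≤ Vp L ^ 2 * Am L M := by
  unfold Am Vp
  rw [prod_filter, ← prod_pow, ← prod_mul_distrib]
  apply prod_le_prod
  · intro p hp
    have hpp := ((mem_prs L p).1 hp).2
    have hp0 : (0 : ℝ) < p := by exact_mod_cast hpp.pos
    rw [sub_nonneg, div_le_one hp0, hr p hp]
    have := hpp.two_le
    exact_mod_cast (by split_ifs <;> omega : (if p ∣ M then 1 else 2) ≤ p)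
  · intro p hp
    obtain ⟨a1, a2⟩ := prs_half L p hp
    rw [hr p hp]
    split_ifs
    · rw [inv_sq L p hp, Nat.cast_one]
    · rw [mul_one]
      have e2 : ((2 : ℕ) : ℝ) / p = 2 * (1 / (p : ℝ)) := by push_cast; ring
      rw [e2]
      nlinarith [sq_nonneg (1 / (p : ℝ))]

lemma totient_ratio (M : ℕ) (hM : 1 ≤ M) : (M : ℝ) / Nat.totient M = ∏ p ∈ M.primeFactors, (1 - 1 / (p : ℝ))⁻¹ := by
  rw [totient_prod M hM]
  apply prod_congr _ (fun _ _ => rfl)
  ext p
  rw [mem_filter, mem_prs, Nat.mem_primeFactors]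
  constructor
  · rintro ⟨⟨_, h⟩, h2⟩
    exact ⟨h, h2, by omega⟩
  · rintro ⟨h, h2, _⟩
    exact ⟨⟨Nat.le_of_dvd (by omega) h2, h⟩, h2⟩

lemma Am_bounds (L M D : ℕ) (hL : 2 ≤ L) (hM : 1 ≤ M) : Am L M ≤ (M : ℝ) / Nat.totient M ∧
    (M ≤ L ^ D → (M : ℝ) / Nat.totient M ≤ 2 ^ D * Am L M) := by
  classical
  have e1 : (prs L).filter (fun p => p ∣ M) = M.primeFactors.filter (fun p => p ≤ L) := by
    ext p
    rw [mem_filter, mem_filter, mem_prs, Nat.mem_primeFactors]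
    constructor
    · rintro ⟨⟨h1, h⟩, h2⟩
      exact ⟨⟨h, h2, by omega⟩, h1⟩
    · rintro ⟨⟨h, h2, _⟩, h1⟩
      exact ⟨⟨h1, h⟩, h2⟩
  have e2 := prod_filter_mul_prod_filter_not M.primeFactors (fun p => p ≤ L) (fun p : ℕ => (1 - 1 / (p : ℝ))⁻¹)
  have hfac : ∀ p ∈ M.primeFactors, 1 ≤ (1 - 1 / (p : ℝ))⁻¹ ∧ (1 - 1 / (p : ℝ))⁻¹ ≤ 2 := by
    intro p hp
    have h2 : (2 : ℝ) ≤ p := by exact_mod_cast (Nat.prime_of_mem_primeFactors hp).two_le
    have h3 : 0 ≤ 1 / (p : ℝ) := by positivity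
    have h4 : 1 / (p : ℝ) ≤ 1 / 2 := one_div_le_one_div_of_le (by norm_num) h2
    constructor
    · apply (one_le_inv₀ (by linarith)).2
      linarith
    · rw [inv_le_comm₀ (by linarith) (by norm_num)]
      linarith
  rw [totient_ratio M hM, ← e2]
  unfold Am
  rw [e1]
  have hpos : 0 ≤ ∏ p ∈ M.primeFactors.filter (fun p => p ≤ L), (1 - 1 / (p : ℝ))⁻¹ :=
    prod_nonneg fun p hp => zero_le_one.trans (hfac p (mem_filter.1 hp).1).1
  constructor
  · apply le_mul_of_one_le_right hpos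
    have h9 : ∏ p ∈ M.primeFactors.filter (fun p => ¬ p ≤ L), (1 : ℝ) ≤
        ∏ p ∈ M.primeFactors.filter (fun p => ¬ p ≤ L), (1 - 1 / (p : ℝ))⁻¹ :=
      prod_le_prod (fun _ _ => zero_le_one) (fun p hp => (hfac p (mem_filter.1 hp).1).1)
    rwa [prod_const_one] at h9
  · intro hML
    rw [mul_comm]
    apply mul_le_mul_of_nonneg_right _ hpos
    have h1 : ∏ p ∈ M.primeFactors.filter (fun p => ¬ p ≤ L), (1 - 1 / (p : ℝ))⁻¹ ≤
        2 ^ (M.primeFactors.filter (fun p => ¬ p ≤ L)).card := by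
      rw [← prod_const]
      apply prod_le_prod
      · intro p hp
        exact zero_le_one.trans (hfac p (mem_filter.1 hp).1).1
      · intro p hp
        exact (hfac p (mem_filter.1 hp).1).2
    refine h1.trans (pow_le_pow_right₀ (by norm_num) ?_)
    have h2 : L ^ (M.primeFactors.filter (fun p => ¬ p ≤ L)).card ≤ L ^ D := by
      calc L ^ (M.primeFactors.filter (fun p => ¬ p ≤ L)).card ≤ ∏ p ∈ M.primeFactors.filter (fun p => ¬ p ≤ L), p := by
            apply pow_card_le_prod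
            intro p hp
            have := (mem_filter.1 hp).2
            omega
        _ ≤ ∏ p ∈ M.primeFactors, p := by
            apply Finset.prod_le_prod_of_subset_of_one_le' (filter_subset _ _)
            intro p hp _
            exact (Nat.prime_of_mem_primeFactors hp).pos
        _ ≤ M := Nat.le_of_dvd (by omega) (Nat.prod_primeFactors_dvd M)
        _ ≤ _ := hML
    exact (Nat.pow_le_pow_iff_right (by omega : 1 < L)).1 h2

/-- the coefficients of `n + c₁` and `c₂ - n` -/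
def ca : Fin 2 → ℤ := ![1, -1]

lemma pair_rho (c₁ c₂ : ℤ) (m p : ℕ) (hm : c₁ + c₂ = m) (hp : p.Prime) : rho ca ![c₁, c₂] p = if p ∣ m then 1 else 2 := by
  classical
  have hp0 : (0 : ℤ) < p := by exact_mod_cast hp.pos
  unfold rho
  have hx : ∀ x : ℤ, ((x % (p : ℤ)).toNat : ℤ) = x % p := fun x => Int.toNat_of_nonneg (Int.emod_nonneg _ hp0.ne')
  have hlt : ∀ x : ℤ, (x % (p : ℤ)).toNat < p := by
    intro x
    have h1 := Int.emod_lt_of_pos x hp0
    have h2 := hx x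
    omega
  have hkey : ∀ (x : ℤ) (t : ℕ), t < p → ((p : ℤ) ∣ t - x ↔ t = (x % (p : ℤ)).toNat) := by
    intro x t ht
    constructor
    · intro h
      have h1 : (t : ℤ) % p = x % p := (Int.emod_eq_emod_iff_emod_sub_eq_zero).2 (Int.emod_eq_zero_of_dvd h)
      have h2 : (t : ℤ) % p = t := Int.emod_eq_of_lt (by omega) (by exact_mod_cast ht)
      have h3 := hx x
      omega
    · intro h
      have h3 := hx x
      rw [← h] at h3
      have h4 : (t : ℤ) - x = -(p * (x / p)) := by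
        have := Int.emod_add_mul_ediv x p
        rw [h3]
        linarith
      rw [h4]
      exact (dvd_mul_right _ _).neg_right
  have h1 : (range p).filter (fun t : ℕ => (p : ℤ) ∣ ∏ i, (ca i * (t : ℤ) + (![c₁, c₂] : Fin 2 → ℤ) i)) =
      {((-c₁) % (p : ℤ)).toNat, (c₂ % (p : ℤ)).toNat} := by
    ext t
    rw [mem_filter, mem_range, mem_insert, mem_singleton, Fin.prod_univ_two]
    simp only [ca, Matrix.cons_val_zero, Matrix.cons_val_one]
    rw [(Nat.prime_iff_prime_int.1 hp).dvd_mul]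
    constructor
    · rintro ⟨h1, h2 | h2⟩
      · left
        rw [← hkey _ t h1]
        have e : (t : ℤ) - -c₁ = 1 * t + c₁ := by ring
        rw [e]
        exact h2
      · right
        rw [← hkey _ t h1]
        have e : (t : ℤ) - c₂ = -(-1 * t + c₂) := by ring
        rw [e]
        exact h2.neg_right
    · rintro (h | h)
      · have h1 : t < p := by rw [h]; exact hlt _
        refine ⟨h1, Or.inl ?_⟩
        have h2 := (hkey (-c₁) t h1).2 h
        have e : (t : ℤ) - -c₁ = 1 * t + c₁ := by ring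
        rwa [e] at h2
      · have h1 : t < p := by rw [h]; exact hlt _
        refine ⟨h1, Or.inr ?_⟩
        have h2 := (hkey c₂ t h1).2 h
        have e : (-1 * (t : ℤ) + c₂) = -((t : ℤ) - c₂) := by ring
        rw [e]
        exact h2.neg_right
  have h2 : (range p).filter (fun n : ℕ => (p : ℤ) ∣ ∏ i, (ca i * (n : ℤ) + (![c₁, c₂] : Fin 2 → ℤ) i)) =
    {((-c₁) % (p : ℤ)).toNat, (c₂ % (p : ℤ)).toNat} := h1
  rw [h2]
  have h3 : ((-c₁) % (p : ℤ)).toNat = (c₂ % (p : ℤ)).toNat ↔ p ∣ m := by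
    rw [← hkey c₂ _ (hlt (-c₁)), hx]
    have e : (-c₁) % (p : ℤ) - c₂ = -(m : ℤ) - p * ((-c₁) / p) := by
      have := Int.emod_add_mul_ediv (-c₁) p
      linarith
    rw [e, dvd_sub_left (dvd_mul_right _ _), dvd_neg, Int.natCast_dvd_natCast]
  split_ifs with h
  · rw [h3.2 h]
    simp
  · rw [card_pair]
    exact fun h4 => h (h3.1 h4)

/-- **the upper bound for pairs of primes with a fixed sum** -/
theorem pair_upper [Fintype σ] (b : ℕ) (hb : 2 ≤ b) (M : DFA ℕ σ)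
    (hS : ∀ k : ℕ, ∃ᶠ N : ℕ in Filter.atTop, Real.log N ^ k < (cnt b M N (fun _ => True) : ℝ)) :
    ∃ (C : ℝ) (N₀ : ℕ), 0 < C ∧ ∀ N : ℕ, N₀ ≤ N → ∀ (c₁ c₂ : ℤ) (m : ℕ), c₁ + c₂ = m → 1 ≤ m → Even m →
    (cnt b M N (fun n => (n + c₁).natAbs.Prime ∧ (c₂ - n).natAbs.Prime) : ℝ) ≤
      C * cnt b M N (fun _ => True) * ((m : ℝ) / Nat.totient m) / Real.log N ^ 2 := by
  obtain ⟨C, N₀, hC, h⟩ := sys_upper b hb M hS 2
  obtain ⟨K, hK, hV⟩ := Vp_bounds
  refine ⟨C * K ^ 2, N₀ + 2, by positivity, fun N hN c₁ c₂ m hm hm1 hme => ?_⟩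
  have hNr : (2 : ℝ) ≤ N := by exact_mod_cast (by omega : 2 ≤ N)
  have hlog : 0 < Real.log N := Real.log_pos (by linarith)
  have hr : ∀ p : ℕ, p.Prime → rho ca ![c₁, c₂] p = if p ∣ m then 1 else 2 := fun p hp => pair_rho c₁ c₂ m p hm hp
  have h1 := h N (by omega) ca ![c₁, c₂] (by
    intro i
    fin_cases i
    · exact ⟨by simp [ca], isCoprime_one_left⟩
    · exact ⟨by simp [ca], isCoprime_one_left.neg_left⟩) (by
    intro p hp
    rw [hr p hp]
    have h2 := hp.two_le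
    split_ifs with h3
    · omega
    · have h4 : p ≠ 2 := by
        rintro rfl
        exact h3 hme.two_dvd
      omega)
  have h2 : cnt b M N (fun n => (n + c₁).natAbs.Prime ∧ (c₂ - n).natAbs.Prime) ≤
      cnt b M N (fun n => ∀ i, (ca i * n + (![c₁, c₂] : Fin 2 → ℤ) i).natAbs.Prime) := by
    apply cnt_mono b M le_rfl
    rintro n _ ⟨h3, h4⟩ i
    fin_cases i
    · simpa [ca] using h3
    · simp only [ca, Fin.mk_one, Matrix.cons_val_one]
      have e : c₂ - n = (-1 * (n : ℤ) + c₂) := by ring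
      rw [e] at h4
      exact h4
  have h3 := pair_up N m (rho ca ![c₁, c₂]) (fun p hp => hr p ((mem_prs N p).1 hp).2)
  have h4 := (Am_bounds N m 0 (by omega) hm1).1
  have hVp0 : 0 ≤ Vp N := le_trans (by positivity) (hV N (by omega)).1
  have h5 : Vp N ^ 2 ≤ K ^ 2 / Real.log N ^ 2 := by
    rw [← div_pow]
    exact pow_le_pow_left₀ hVp0 (hV N (by omega)).2 2
  have hratio : 0 ≤ (m : ℝ) / Nat.totient m := by positivity
  calc (cnt b M N (fun n => (n + c₁).natAbs.Prime ∧ (c₂ - n).natAbs.Prime) : ℝ) ≤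
      cnt b M N (fun n => ∀ i, (ca i * n + (![c₁, c₂] : Fin 2 → ℤ) i).natAbs.Prime) := by exact_mod_cast h2
    _ ≤ _ := h1
    _ ≤ C * cnt b M N (fun _ => True) * (K ^ 2 / Real.log N ^ 2 * ((m : ℝ) / Nat.totient m)) := by
        apply mul_le_mul_of_nonneg_left _ (mul_nonneg hC.le (Nat.cast_nonneg _))
        refine h3.trans ?_
        apply mul_le_mul h5 h4 _ (by positivity)
        unfold Am
        apply prod_nonneg
        intro p hp
        obtain ⟨a1, a2⟩ := prs_half N p (mem_filter.1 hp).1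
        exact inv_nonneg.2 (by linarith)
    _ = _ := by ring

/-- **the lower bound for pairs of almost primes with a fixed sum, one of them a shift of an integer with digits in `S`** -/
theorem pair_lower (b : ℕ) (hb : 2 ≤ b) (S : Finset ℕ) (h0 : 0 ∈ S) (h1 : 1 ∈ S) (D : ℕ) :
    ∃ (R : ℕ) (η c₀ : ℝ) (N₀ : ℕ), 0 < η ∧ 0 < c₀ ∧ ∀ N : ℕ, N₀ ≤ N → ∀ (c₁ c₂ : ℤ) (m : ℕ), c₁ + c₂ = m → 1 ≤ m → Even m →
    c₁.natAbs ≤ N ^ D → c₂.natAbs ≤ N ^ D →
    (∃ e ∈ S, e < b ∧ IsCoprime ((e : ℤ) + c₁) (b : ℤ) ∧ IsCoprime (c₂ - e) (b : ℤ)) →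
      c₀ * cnt b (dfa S) N (fun _ => True) * ((m : ℝ) / Nat.totient m) / Real.log N ^ 2 ≤
      cnt b (dfa S) N (fun n => (n + c₁ ≠ 0 ∧ (n + c₁).natAbs.primeFactorsList.length ≤ R ∧
        c₂ - n ≠ 0 ∧ (c₂ - n).natAbs.primeFactorsList.length ≤ R) ∧
        ∀ p : ℕ, p.Prime → (p : ℤ) ∣ n + c₁ ∨ (p : ℤ) ∣ c₂ - n → (N : ℝ) ^ η < p) := by
  obtain ⟨R, η, c₀, N₀, hη, hc₀, h⟩ := digits_lower b hb S h0 h1 2 D
  obtain ⟨K, hK, hV⟩ := Vp_bounds
  refine ⟨R, η, c₀ * (Real.exp (-(9 / 2)) / (K ^ 2 * 2 ^ (D + 1))), N₀ + 2, hη, by positivity, fun N hN c₁ c₂ m hm hm1 hme hs1 hs2 he => ?_⟩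
  have hNr : (2 : ℝ) ≤ N := by exact_mod_cast (by omega : 2 ≤ N)
  have hlog : 0 < Real.log N := Real.log_pos (by linarith)
  have hr : ∀ p : ℕ, p.Prime → rho ca ![c₁, c₂] p = if p ∣ m then 1 else 2 := fun p hp => pair_rho c₁ c₂ m p hm hp
  obtain ⟨e, heS, heb, he1, he2⟩ := he
  have h2 := h N (by omega) ca ![c₁, c₂] (by
    intro i
    fin_cases i
    · exact isCoprime_one_left
    · exact isCoprime_one_left.neg_left) (by
    intro i
    have h3 : 1 ≤ N ^ D := Nat.one_le_pow _ _ (by omega)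
    fin_cases i
    · simpa [ca] using ⟨h3, hs1⟩
    · simpa [ca] using ⟨h3, hs2⟩) (by
    intro p hp _
    rw [hr p hp]
    have h2 := hp.two_le
    split_ifs with h3
    · omega
    · have h4 : p ≠ 2 := by
        rintro rfl
        exact h3 hme.two_dvd
      omega) ⟨e, heS, heb, by
    intro i
    fin_cases i
    · simp only [ca, Fin.zero_eta, Matrix.cons_val_zero, one_mul]
      exact he1
    · have e3 : c₂ - (e : ℤ) = (-1 * (e : ℤ) + c₂) := by ring
      rw [e3] at he2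
      exact he2⟩
  have h3 := pair_low N m hme (rho ca ![c₁, c₂]) (fun p hp => hr p ((mem_prs N p).1 hp).2)
  have hmD : m ≤ N ^ (D + 1) := by
    have h4 : m ≤ N ^ D + N ^ D := by omega
    calc m ≤ N ^ D + N ^ D := h4
      _ = N ^ D * 2 := by ring
      _ ≤ N ^ D * N := Nat.mul_le_mul_left _ (by omega)
      _ = _ := (pow_succ _ _).symm
  have h4 := (Am_bounds N m (D + 1) (by omega) hm1).2 hmD
  have h5 : 1 / (K ^ 2 * Real.log N ^ 2) ≤ Vp N ^ 2 := by
    have h6 := pow_le_pow_left₀ (by positivity) (hV N (by omega)).1 2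
    rwa [div_pow, one_pow, mul_pow] at h6
  have h6 : 0 ≤ (m : ℝ) / Nat.totient m := by positivity
  have h7 : 1 / 2 ^ (D + 1) * ((m : ℝ) / Nat.totient m) ≤ Am N m := by
    rw [one_div, inv_mul_le_iff₀ (by positivity)]
    exact h4
  have hmain : (cnt b (dfa S) N (fun n => ∀ i, ca i * n + (![c₁, c₂] : Fin 2 → ℤ) i ≠ 0 ∧
      (ca i * n + (![c₁, c₂] : Fin 2 → ℤ) i).natAbs.primeFactorsList.length ≤ R ∧
        ∀ p : ℕ, p.Prime → (p : ℤ) ∣ ca i * n + (![c₁, c₂] : Fin 2 → ℤ) i → (N : ℝ) ^ η < p)) ≤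
      cnt b (dfa S) N (fun n => (n + c₁ ≠ 0 ∧ (n + c₁).natAbs.primeFactorsList.length ≤ R ∧
        c₂ - n ≠ 0 ∧ (c₂ - n).natAbs.primeFactorsList.length ≤ R) ∧
        ∀ p : ℕ, p.Prime → (p : ℤ) ∣ n + c₁ ∨ (p : ℤ) ∣ c₂ - n → (N : ℝ) ^ η < p) := by
    apply cnt_mono b (dfa S) le_rfl
    intro n _ hn
    have a0 := hn 0
    have a1 := hn 1
    simp only [ca, Matrix.cons_val_zero, Matrix.cons_val_one, one_mul] at a0 a1
    have e3 : (-1 * (n : ℤ) + c₂) = c₂ - n := by ring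
    rw [e3] at a1
    refine ⟨⟨a0.1, a0.2.1, a1.1, a1.2.1⟩, ?_⟩
    rintro p hp (h8 | h8)
    · exact a0.2.2 p hp h8
    · exact a1.2.2 p hp h8
  calc c₀ * (Real.exp (-(9 / 2)) / (K ^ 2 * 2 ^ (D + 1))) * cnt b (dfa S) N (fun _ => True) * ((m : ℝ) / Nat.totient m) / Real.log N ^ 2 =
      c₀ * cnt b (dfa S) N (fun _ => True) * (Real.exp (-(9 / 2)) * (1 / (K ^ 2 * Real.log N ^ 2) *
        (1 / 2 ^ (D + 1) * ((m : ℝ) / Nat.totient m)))) := by field_simp
    _ ≤ c₀ * cnt b (dfa S) N (fun _ => True) * (Real.exp (-(9 / 2)) * (Vp N ^ 2 * Am N m)) := by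
        apply mul_le_mul_of_nonneg_left _ (by positivity)
        apply mul_le_mul_of_nonneg_left _ (Real.exp_pos _).le
        exact mul_le_mul h5 h7 (by positivity) (by positivity)
    _ ≤ c₀ * cnt b (dfa S) N (fun _ => True) * ∏ p ∈ (range (N + 1)).filter Nat.Prime, (1 - (rho ca ![c₁, c₂] p : ℝ) / p) :=
        mul_le_mul_of_nonneg_left h3 (by positivity)
    _ ≤ _ := h2
    _ ≤ _ := by exact_mod_cast hmain

end Pool.Agent.Run7.h560.AP
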