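import Pool.Agent.Run7.h560.AP.Level

set_option autoImplicit false

/-!
# Products of centered functions modulo primes and the sum over the reduced fractions
-/

namespace Pool.Agent.Run7.h560.AP

open Finset
open Pool.Agent.R459.Eq
open Pool.Agent.H807R2.Dav

/-- the function has an expansion with different reduced fractions of denominator `m`, with coefficients at most `C` -/
def PureI (m : ℕ) (f : ℤ → ℝ) (C : ℝ) : Prop :=
  ∃ (α : Type) (I : Finset α) (c : α → ℂ) (a : α → ℕ), (∀ i ∈ I, Nat.Coprime (a i) m) ∧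
    (∀ i ∈ I, ∀ j ∈ I, a i ≡ a j [MOD m] → i = j) ∧ (∀ i ∈ I, ‖c i‖ ≤ C) ∧
    ∀ n : ℤ, (f n : ℂ) = ∑ i ∈ I, c i * ee ((n : ℝ) * ((a i : ℝ) / m))

lemma pureI_trivial : PureI 1 (fun _ => 1) 1 := by
  refine ⟨Unit, {()}, fun _ => 1, fun _ => 0, fun _ _ => Nat.coprime_one_right 0, fun _ _ _ _ _ => rfl, by simp, fun n => ?_⟩
  simp [ee_zero]

lemma mean_nonneg (p : ℕ) (f : ℤ → ℝ) (hf : ∀ n, 0 ≤ f n) : 0 ≤ mean p f :=
  div_nonneg (sum_nonneg fun _ _ => hf _) (Nat.cast_nonneg _)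

lemma norm_co_le (p : ℕ) (hp : 1 ≤ p) (f : ℤ → ℝ) (hf : ∀ n, 0 ≤ f n) (a : ℕ) : ‖co p f a‖ ≤ mean p f := by
  have hp0 : (0 : ℝ) < p := by exact_mod_cast hp
  unfold co mean
  rw [norm_mul, norm_div, norm_one, Complex.norm_natCast, one_div, inv_mul_eq_div]
  apply div_le_div_of_nonneg_right _ hp0.le
  refine (norm_sum_le _ _).trans (sum_le_sum fun t _ => ?_)
  rw [norm_mul, norm_ee, mul_one, Complex.norm_real, Real.norm_eq_abs, abs_of_nonneg (hf _)]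

lemma pureI_one {p : ℕ} (hp : p.Prime) (f : ℤ → ℝ) (hper : Per p f) (hf : ∀ n, 0 ≤ f n) :
    PureI p (fun n => f n - mean p f) (mean p f) := by
  refine ⟨ℕ, Ico 1 p, co p f, id, ?_, ?_, ?_, ?_⟩
  · intro a ha
    rw [mem_Ico] at ha
    exact (Nat.coprime_of_lt_prime (by omega) ha.2 hp).symm
  · intro a ha b hb h
    rw [mem_Ico] at ha hb
    unfold Nat.ModEq at h
    simp only [id] at h
    rwa [Nat.mod_eq_of_lt ha.2, Nat.mod_eq_of_lt hb.2] at h
  · intro a _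
    exact norm_co_le p hp.one_le f hf a
  · intro n
    rw [centered p hp.one_le f hper n]
    apply sum_congr rfl
    intro a _
    congr 2
    simp only [id]
    ring

lemma pureI_mul {m m' : ℕ} (hm : 1 ≤ m) (hm' : 1 ≤ m') (hc : Nat.Coprime m m') {f g : ℤ → ℝ} {C C' : ℝ}
    (hC : 0 ≤ C) (hf : PureI m f C) (hg : PureI m' g C') : PureI (m * m') (fun n => f n * g n) (C * C') := by
  obtain ⟨α, I, c, a, h1, h0, h2, h3⟩ := hf
  obtain ⟨α', I', c', a', h1', h0', h2', h3'⟩ := hg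
  have hm0 : (m : ℝ) ≠ 0 := by exact_mod_cast (by omega : m ≠ 0)
  have hm0' : (m' : ℝ) ≠ 0 := by exact_mod_cast (by omega : m' ≠ 0)
  refine ⟨α × α', I ×ˢ I', fun z => c z.1 * c' z.2, fun z => a z.1 * m' + a' z.2 * m, ?_, ?_, ?_, ?_⟩
  · intro z hz
    rw [mem_product] at hz
    show Nat.Coprime (a z.1 * m' + a' z.2 * m) (m * m')
    apply Nat.Coprime.mul_right
    · rw [Nat.coprime_add_mul_right_left]
      exact Nat.Coprime.mul_left (h1 _ hz.1) hc.symm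
    · rw [add_comm, Nat.coprime_add_mul_right_left]
      exact Nat.Coprime.mul_left (h1' _ hz.2) hc
  · intro z hz z' hz' h
    rw [mem_product] at hz hz'
    have e1 : a z.1 ≡ a z'.1 [MOD m] := by
      have h4 : a z.1 * m' + a' z.2 * m ≡ a z'.1 * m' + a' z'.2 * m [MOD m] := h.of_mul_right m'
      have h5 : a z.1 * m' + a' z.2 * m ≡ a z.1 * m' [MOD m] := by
        unfold Nat.ModEq
        rw [Nat.add_mul_mod_self_right]
      have h6 : a z'.1 * m' + a' z'.2 * m ≡ a z'.1 * m' [MOD m] := by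
        unfold Nat.ModEq
        rw [Nat.add_mul_mod_self_right]
      exact Nat.ModEq.cancel_right_of_coprime hc ((h5.symm.trans h4).trans h6)
    have e2 : a' z.2 ≡ a' z'.2 [MOD m'] := by
      have h4 : a z.1 * m' + a' z.2 * m ≡ a z'.1 * m' + a' z'.2 * m [MOD m'] := h.of_mul_left m
      have h5 : a z.1 * m' + a' z.2 * m ≡ a' z.2 * m [MOD m'] := by
        unfold Nat.ModEq
        rw [add_comm, Nat.add_mul_mod_self_right]
      have h6 : a z'.1 * m' + a' z'.2 * m ≡ a' z'.2 * m [MOD m'] := by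
        unfold Nat.ModEq
        rw [add_comm, Nat.add_mul_mod_self_right]
      exact Nat.ModEq.cancel_right_of_coprime hc.symm ((h5.symm.trans h4).trans h6)
    exact Prod.ext (h0 _ hz.1 _ hz'.1 e1) (h0' _ hz.2 _ hz'.2 e2)
  · intro z hz
    rw [mem_product] at hz
    simp only [norm_mul]
    exact mul_le_mul (h2 _ hz.1) (h2' _ hz.2) (norm_nonneg _) hC
  · intro n
    push_cast
    rw [h3, h3', sum_mul_sum, sum_product]
    apply sum_congr rfl
    intro i _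
    apply sum_congr rfl
    intro j _
    have e1 : ee ((n : ℝ) * (((a i : ℝ) * m' + a' j * m) / (m * m'))) = ee ((n : ℝ) * ((a i : ℝ) / m)) * ee ((n : ℝ) * ((a' j : ℝ) / m')) := by
      rw [← ee_add]
      congr 1
      field_simp
    rw [e1]
    ring

lemma pureI_prod (J : Finset ℕ) (f : ℕ → ℤ → ℝ) (C : ℕ → ℝ) (hC : ∀ p ∈ J, 0 ≤ C p) (hJ : ∀ p ∈ J, p.Prime)
    (h : ∀ p ∈ J, PureI p (f p) (C p)) :
    PureI (∏ p ∈ J, p) (fun n => ∏ p ∈ J, f p n) (∏ p ∈ J, C p) := by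
  classical
  induction J using Finset.induction_on with
  | empty => simpa using pureI_trivial
  | insert i J hi ih =>
    rw [prod_insert hi, prod_insert hi]
    simp only [prod_insert hi]
    refine pureI_mul (hJ i (mem_insert_self i J)).one_le ?_ ?_ (hC i (mem_insert_self i J)) (h i (mem_insert_self i J))
      (ih ?_ ?_ ?_)
    · exact Nat.one_le_iff_ne_zero.2 (prod_ne_zero_iff.2 fun j hj => (hJ j (mem_insert_of_mem hj)).ne_zero)
    · apply Nat.Coprime.prod_right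
      intro j hj
      exact (Nat.coprime_primes (hJ i (mem_insert_self i J)) (hJ j (mem_insert_of_mem hj))).2 (fun h => hi (h ▸ hj))
    · exact fun j hj => hC j (mem_insert_of_mem hj)
    · exact fun j hj => hJ j (mem_insert_of_mem hj)
    · exact fun j hj => h j (mem_insert_of_mem hj)

/-- the characteristic function -/
noncomputable def ph {ι : Type} (Ω : Finset ι) (w : ι → ℝ) (v : ι → ℤ) (θ : ℝ) : ℂ :=
  ∑ i ∈ Ω, (w i : ℂ) * ee ((v i : ℝ) * θ)

lemma ph_mod {ι : Type} (Ω : Finset ι) (w : ι → ℝ) (v : ι → ℤ) (m : ℕ) (hm : 1 ≤ m) (a : ℕ) :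
    ph Ω w v ((a : ℝ) / m) = ph Ω w v (((a % m : ℕ) : ℝ) / m) := by
  have hm0 : (m : ℝ) ≠ 0 := by exact_mod_cast (by omega : m ≠ 0)
  unfold ph
  apply sum_congr rfl
  intro i _
  congr 1
  obtain ⟨t, ht⟩ : ∃ t : ℕ, t = a / m := ⟨_, rfl⟩
  obtain ⟨s, hs⟩ : ∃ s : ℕ, s = a % m := ⟨_, rfl⟩
  have h1 : (a : ℝ) = m * (t : ℝ) + (s : ℝ) := by
    rw [ht, hs]
    exact_mod_cast (Nat.div_add_mod a m).symm
  rw [← hs]
  have h2 : (v i : ℝ) * ((a : ℝ) / m) = ((v i * (t : ℤ) : ℤ) : ℝ) + (v i : ℝ) * ((s : ℝ) / m) := by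
    rw [h1]
    push_cast
    field_simp
  rw [h2, ee_add, ee_int, one_mul]

lemma pureI_exp {ι : Type} (Ω : Finset ι) (w : ι → ℝ) (v : ι → ℤ) {m : ℕ} (hm : 1 ≤ m) {f : ℤ → ℝ} {C : ℝ}
    (h : PureI m f C) (hC : 0 ≤ C) : |∑ i ∈ Ω, w i * f (v i)| ≤ C * Sq (ph Ω w v) m := by
  classical
  obtain ⟨α, I, c, a, h1, h0, h2, h3⟩ := h
  have e1 : ((∑ i ∈ Ω, w i * f (v i) : ℝ) : ℂ) = ∑ j ∈ I, c j * ph Ω w v ((a j : ℝ) / (m : ℝ)) := by
    unfold ph
    push_cast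
    simp only [h3, mul_sum]
    rw [sum_comm]
    apply sum_congr rfl
    intro j _
    apply sum_congr rfl
    intro i _
    ring
  rw [← Real.norm_eq_abs, ← Complex.norm_real, e1]
  refine (norm_sum_le _ _).trans ?_
  calc ∑ j ∈ I, ‖c j * ph Ω w v ((a j : ℝ) / (m : ℝ))‖ ≤ ∑ j ∈ I, C * ‖ph Ω w v (((a j % m : ℕ) : ℝ) / (m : ℝ))‖ := by
        apply sum_le_sum
        intro j hj
        rw [norm_mul, ph_mod Ω w v m hm]
        exact mul_le_mul_of_nonneg_right (h2 j hj) (norm_nonneg _)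
    _ = C * ∑ j ∈ I, ‖ph Ω w v (((a j % m : ℕ) : ℝ) / (m : ℝ))‖ := by rw [mul_sum]
    _ = C * ∑ x ∈ I.image (fun j => a j % m), ‖ph Ω w v ((x : ℝ) / (m : ℝ))‖ := by
        rw [sum_image]
        intro i hi j hj hij
        exact h0 i hi j hj hij
    _ ≤ C * Sq (ph Ω w v) m := by
        apply mul_le_mul_of_nonneg_left _ hC
        unfold Sq
        apply sum_le_sum_of_subset_of_nonneg
        · intro x hx
          rw [mem_image] at hx
          obtain ⟨j, hj, rfl⟩ := hx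
          rw [mem_filter, mem_range]
          refine ⟨Nat.mod_lt _ hm, ?_⟩
          have := h1 j hj
          unfold Nat.Coprime at this ⊢
          rw [← Nat.gcd_rec, Nat.gcd_comm]
          exact this
        · intro _ _ _
          exact norm_nonneg _

/-- **the products over a set of primes** -/
theorem prod_est {ι : Type} (Ω : Finset ι) (w : ι → ℝ) (v : ι → ℤ) (f : ℕ → ℤ → ℝ) (T : Finset ℕ)
    (hT : ∀ p ∈ T, p.Prime) (hper : ∀ p ∈ T, Per p (f p)) (hf : ∀ p ∈ T, ∀ n, 0 ≤ f p n) :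
    |∑ i ∈ Ω, w i * ∏ p ∈ T, f p (v i) - (∑ i ∈ Ω, w i) * ∏ p ∈ T, mean p (f p)| ≤
      (∏ p ∈ T, mean p (f p)) * ∑ U ∈ T.powerset.filter (fun U => U ≠ ∅), Sq (ph Ω w v) (∏ p ∈ U, p) := by
  classical
  have h1 : ∀ n : ℤ, ∏ p ∈ T, f p n = ∑ U ∈ T.powerset, (∏ p ∈ U, (f p n - mean p (f p))) * ∏ p ∈ T \ U, mean p (f p) := by
    intro n
    rw [← prod_add]
    apply prod_congr rfl
    intro p _
    ring
  have h2 : ∑ i ∈ Ω, w i * ∏ p ∈ T, f p (v i) - (∑ i ∈ Ω, w i) * ∏ p ∈ T, mean p (f p) =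
      ∑ U ∈ T.powerset.filter (fun U => U ≠ ∅), (∏ p ∈ T \ U, mean p (f p)) *
        ∑ i ∈ Ω, w i * ∏ p ∈ U, (f p (v i) - mean p (f p)) := by
    simp only [h1, mul_sum]
    rw [sum_comm]
    have h3 : ∀ U : Finset ℕ, ∑ i ∈ Ω, w i * ((∏ p ∈ U, (f p (v i) - mean p (f p))) * ∏ p ∈ T \ U, mean p (f p)) =
        ∑ i ∈ Ω, (∏ p ∈ T \ U, mean p (f p)) * (w i * ∏ p ∈ U, (f p (v i) - mean p (f p))) := by
      intro U
      apply sum_congr rfl
      intro i _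
      ring
    simp only [h3]
    rw [← sum_filter_add_sum_filter_not T.powerset (fun U => U ≠ ∅)]
    have h4 : (T.powerset.filter (fun U => ¬ U ≠ ∅)) = {∅} := by
      ext U
      rw [mem_filter, mem_singleton, not_not, mem_powerset]
      constructor
      · exact fun h => h.2
      · rintro rfl
        exact ⟨empty_subset _, rfl⟩
    rw [h4, sum_singleton]
    simp only [prod_empty, mul_one, sdiff_empty]
    rw [sum_mul]
    have h5 : ∑ i ∈ Ω, w i * ∏ p ∈ T, mean p (f p) = ∑ i ∈ Ω, (∏ p ∈ T, mean p (f p)) * w i := by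
      apply sum_congr rfl
      intro i _
      ring
    rw [h5]
    ring
  rw [h2]
  refine (abs_sum_le_sum_abs _ _).trans ?_
  rw [mul_sum]
  apply sum_le_sum
  intro U hU
  rw [mem_filter, mem_powerset] at hU
  have hUT : ∀ p ∈ U, p ∈ T := fun p hp => hU.1 hp
  have h6 : 0 ≤ ∏ p ∈ T \ U, mean p (f p) := prod_nonneg fun p hp => mean_nonneg p _ (hf p (mem_sdiff.1 hp).1)
  have h7 : 0 ≤ ∏ p ∈ U, mean p (f p) := prod_nonneg fun p hp => mean_nonneg p _ (hf p (hUT p hp))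
  rw [abs_mul, abs_of_nonneg h6]
  have h8 := pureI_exp Ω w v (m := ∏ p ∈ U, p)
    (Nat.one_le_iff_ne_zero.2 (prod_ne_zero_iff.2 fun j hj => (hT j (hUT j hj)).ne_zero))
    (pureI_prod U (fun p n => f p n - mean p (f p)) (fun p => mean p (f p))
      (fun p hp => mean_nonneg p _ (hf p (hUT p hp))) (fun p hp => hT p (hUT p hp))
      (fun p hp => pureI_one (hT p (hUT p hp)) (f p) (hper p (hUT p hp)) (hf p (hUT p hp)))) h7
  calc (∏ p ∈ T \ U, mean p (f p)) * |∑ i ∈ Ω, w i * ∏ p ∈ U, (f p (v i) - mean p (f p))| ≤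
      (∏ p ∈ T \ U, mean p (f p)) * ((∏ p ∈ U, mean p (f p)) * Sq (ph Ω w v) (∏ p ∈ U, p)) :=
        mul_le_mul_of_nonneg_left h8 h6
    _ = ((∏ p ∈ T \ U, mean p (f p)) * ∏ p ∈ U, mean p (f p)) * Sq (ph Ω w v) (∏ p ∈ U, p) := by ring
    _ = _ := by rw [prod_sdiff hU.1]

/-- **the sum of the errors** -/
theorem err_sum (φ : ℝ → ℂ) (κ : ℕ) (P : Finset ℕ) (hP : ∀ p ∈ P, p.Prime) (μ : ℕ → ℝ) (hμ : ∀ p ∈ P, 0 ≤ μ p)
    (D : ℕ) (E : ℝ) (hE : ∀ T : Finset ℕ, (∀ q ∈ T, 1 < q ∧ q ≤ D ∧ ∀ p ∈ q.primeFactors, p ∈ P) → ∀ g : ℕ → ℝ,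
      (∀ q ∈ T, 0 ≤ g q ∧ g q ^ 4 * (q : ℝ) ^ 3 ≤ 1) → ∑ q ∈ T, g q * Sq φ q ≤ E)
    (hκ : ∀ p ∈ P, μ p ^ 4 * (p : ℝ) ^ 3 ≤ 1) :
    ∑ T ∈ P.powerset.filter (fun T : Finset ℕ => ∏ p ∈ T, p ≤ D),
      (∏ p ∈ T, μ p) * ∑ U ∈ T.powerset.filter (fun U => U ≠ ∅), Sq φ (∏ p ∈ U, p) ≤ (∏ p ∈ P, (1 + μ p)) * E := by
  classical
  obtain ⟨Q, hQ⟩ : ∃ Q : Finset (Finset ℕ), Q = (P.powerset.filter (fun U => U ≠ ∅)).filter (fun U => ∏ p ∈ U, p ≤ D) := ⟨_, rfl⟩
  have hQm : ∀ U, U ∈ Q ↔ (U ⊆ P ∧ U ≠ ∅) ∧ ∏ p ∈ U, p ≤ D := by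
    intro U
    rw [hQ, mem_filter, mem_filter, mem_powerset]
  have hnn : ∀ U, U ⊆ P → 0 ≤ ∏ p ∈ U, μ p := fun U hU => prod_nonneg fun p hp => hμ p (hU hp)
  -- exchange the sums
  have h1 : ∑ T ∈ P.powerset.filter (fun T : Finset ℕ => ∏ p ∈ T, p ≤ D),
      (∏ p ∈ T, μ p) * ∑ U ∈ T.powerset.filter (fun U => U ≠ ∅), Sq φ (∏ p ∈ U, p) ≤
      ∑ U ∈ Q, ∑ T ∈ P.powerset.filter (fun T => U ⊆ T), (∏ p ∈ T, μ p) * Sq φ (∏ p ∈ U, p) := by
    have h2 : ∀ T ∈ P.powerset.filter (fun T : Finset ℕ => ∏ p ∈ T, p ≤ D),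
        (∏ p ∈ T, μ p) * ∑ U ∈ T.powerset.filter (fun U => U ≠ ∅), Sq φ (∏ p ∈ U, p) ≤
        ∑ U ∈ Q, if U ⊆ T then (∏ p ∈ T, μ p) * Sq φ (∏ p ∈ U, p) else 0 := by
      intro T hT
      rw [mem_filter, mem_powerset] at hT
      rw [← sum_filter, mul_sum]
      apply sum_le_sum_of_subset_of_nonneg
      · intro U hU
        rw [mem_filter, mem_powerset] at hU
        rw [mem_filter, hQm]
        refine ⟨⟨⟨hU.1.trans hT.1, hU.2⟩, ?_⟩, hU.1⟩
        refine le_trans ?_ hT.2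
        apply Nat.le_of_dvd
        · exact Nat.pos_of_ne_zero (prod_ne_zero_iff.2 fun p hp => (hP p (hT.1 hp)).ne_zero)
        · exact prod_dvd_prod_of_subset _ _ _ hU.1
      · intro U _ _
        exact mul_nonneg (hnn T hT.1) (Sq_nonneg _ _)
    calc _ ≤ ∑ T ∈ P.powerset.filter (fun T : Finset ℕ => ∏ p ∈ T, p ≤ D), ∑ U ∈ Q,
          if U ⊆ T then (∏ p ∈ T, μ p) * Sq φ (∏ p ∈ U, p) else 0 := sum_le_sum h2
      _ ≤ ∑ T ∈ P.powerset, ∑ U ∈ Q, if U ⊆ T then (∏ p ∈ T, μ p) * Sq φ (∏ p ∈ U, p) else 0 := by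
          apply sum_le_sum_of_subset_of_nonneg (filter_subset _ _)
          intro T hT _
          apply sum_nonneg
          intro U _
          split_ifs
          · exact mul_nonneg (hnn T (mem_powerset.1 hT)) (Sq_nonneg _ _)
          · exact le_rfl
      _ = _ := by
          rw [sum_comm]
          apply sum_congr rfl
          intro U _
          rw [sum_filter]
  have h3 : ∀ U ∈ Q, ∑ T ∈ P.powerset.filter (fun T => U ⊆ T), (∏ p ∈ T, μ p) * Sq φ (∏ p ∈ U, p) ≤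
      (∏ p ∈ P, (1 + μ p)) * ((∏ p ∈ U, μ p) * Sq φ (∏ p ∈ U, p)) := by
    intro U hU
    rw [hQm] at hU
    rw [← sum_mul]
    have h4 : ∑ T ∈ P.powerset.filter (fun T => U ⊆ T), ∏ p ∈ T, μ p ≤ (∏ p ∈ P, (1 + μ p)) * ∏ p ∈ U, μ p := by
      have h5 : ∀ T ∈ P.powerset.filter (fun T => U ⊆ T), ∏ p ∈ T, μ p = (∏ p ∈ T \ U, μ p) * ∏ p ∈ U, μ p := by
        intro T hT
        rw [prod_sdiff (mem_filter.1 hT).2]
      rw [sum_congr rfl h5, ← sum_mul]
      apply mul_le_mul_of_nonneg_right _ (hnn U hU.1.1)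
      have h6 : ∑ T ∈ P.powerset.filter (fun T => U ⊆ T), ∏ p ∈ T \ U, μ p =
          ∑ V ∈ (P.powerset.filter (fun T => U ⊆ T)).image (fun T => T \ U), ∏ p ∈ V, μ p := by
        rw [sum_image]
        intro T hT T' hT' h
        rw [mem_coe, mem_filter] at hT hT'
        simp only at h
        rw [← sdiff_union_of_subset hT.2, h, sdiff_union_of_subset hT'.2]
      rw [h6]
      have h7 : ∏ p ∈ P, (1 + μ p) = ∑ V ∈ P.powerset, ∏ p ∈ V, μ p := by
        rw [prod_one_add]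
      rw [h7]
      apply sum_le_sum_of_subset_of_nonneg
      · intro V hV
        rw [mem_image] at hV
        obtain ⟨T, hT, rfl⟩ := hV
        rw [mem_filter, mem_powerset] at hT
        rw [mem_powerset]
        exact sdiff_subset.trans hT.1
      · intro V hV _
        exact hnn V (mem_powerset.1 hV)
    calc _ ≤ ((∏ p ∈ P, (1 + μ p)) * ∏ p ∈ U, μ p) * Sq φ (∏ p ∈ U, p) :=
          mul_le_mul_of_nonneg_right h4 (Sq_nonneg _ _)
      _ = _ := by ring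
  refine h1.trans ((sum_le_sum h3).trans ?_)
  rw [← mul_sum]
  have hpos : 0 ≤ ∏ p ∈ P, (1 + μ p) := prod_nonneg fun p hp => by have := hμ p hp; linarith
  apply mul_le_mul_of_nonneg_left _ hpos
  -- to the sum over the integers
  have hpf : ∀ U, U ⊆ P → (∏ p ∈ U, p).primeFactors = U := fun U hU =>
    Nat.primeFactors_prod fun p hp => hP p (hU hp)
  have h8 : ∑ U ∈ Q, (∏ p ∈ U, μ p) * Sq φ (∏ p ∈ U, p) =
      ∑ q ∈ Q.image (fun U => ∏ p ∈ U, p), (∏ p ∈ q.primeFactors, μ p) * Sq φ q := by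
    rw [sum_image]
    · apply sum_congr rfl
      intro U hU
      rw [hQm] at hU
      rw [hpf U hU.1.1]
    · intro U hU U' hU' h
      rw [mem_coe, hQm] at hU hU'
      rw [← hpf U hU.1.1, ← hpf U' hU'.1.1]
      exact congrArg Nat.primeFactors h
  rw [h8]
  apply hE
  · intro q hq
    rw [mem_image] at hq
    obtain ⟨U, hU, rfl⟩ := hq
    rw [hQm] at hU
    refine ⟨?_, hU.2, fun p hp => ?_⟩
    · obtain ⟨p, hp⟩ := nonempty_iff_ne_empty.2 hU.1.2
      have h9 : p ∣ ∏ p ∈ U, p := dvd_prod_of_mem _ hp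
      have h10 : 0 < ∏ p ∈ U, p := Nat.pos_of_ne_zero (prod_ne_zero_iff.2 fun p hp => (hP p (hU.1.1 hp)).ne_zero)
      exact lt_of_lt_of_le (hP p (hU.1.1 hp)).one_lt (Nat.le_of_dvd h10 h9)
    · rw [hpf U hU.1.1] at hp
      exact hU.1.1 hp
  · intro q hq
    rw [mem_image] at hq
    obtain ⟨U, hU, rfl⟩ := hq
    rw [hQm] at hU
    rw [hpf U hU.1.1]
    refine ⟨hnn U hU.1.1, ?_⟩
    push_cast
    rw [← prod_pow, ← prod_pow, ← prod_mul_distrib]
    apply prod_le_one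
    · intro p hp
      have := hμ p (hU.1.1 hp)
      positivity
    · intro p hp
      exact hκ p (hU.1.1 hp)

end Pool.Agent.Run7.h560.AP
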