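import Pool.Agent.Run7.h560.AP.Pure

set_option autoImplicit false

/-!
# Restriction to residue classes
-/

namespace Pool.Agent.Run7.h560.AP

open Finset
open Pool.Agent.R459.Eq
open Pool.Agent.H807R2.Dav
open Pool.Agent.TH872.Mir (Far farCount)

lemma far_chain (b : ℕ) (hb : 2 ≤ b) (W₀ r : ℕ) (hW : W₀ ≤ b ^ r) (x : ℝ)
    (h : Far (1 / (b : ℝ) ^ 2) ((W₀ : ℝ) * x)) : ∃ i, i ≤ r ∧ Far (1 / (b : ℝ) ^ 2) ((b : ℝ) ^ i * x) := by
  by_contra hcon
  push Not at hcon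
  have hb2 : (2 : ℝ) ≤ b := by exact_mod_cast hb
  have hb0 : (0 : ℝ) < b := by linarith
  have h1 : ∀ i, i ≤ r → ∃ n : ℤ, |(b : ℝ) ^ i * x - n| < 1 / (b : ℝ) ^ 2 := by
    intro i hi
    have := hcon i hi
    unfold Far at this
    push Not at this
    exact this
  obtain ⟨n, hn⟩ := h1 0 (Nat.zero_le _)
  rw [pow_zero, one_mul] at hn
  have h2 : ∀ i, i ≤ r → |(b : ℝ) ^ i * x - (b : ℝ) ^ i * n| < 1 / (b : ℝ) ^ 2 := by
    intro i
    induction i with
    | zero => intro _; simpa using hn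
    | succ i ih =>
      intro hi
      have h3 := ih (by omega)
      obtain ⟨n', hn'⟩ := h1 (i + 1) hi
      have h4 : |(b : ℝ) ^ (i + 1) * x - (b : ℝ) ^ (i + 1) * n| < 1 / b := by
        have e1 : (b : ℝ) ^ (i + 1) * x - (b : ℝ) ^ (i + 1) * n = b * ((b : ℝ) ^ i * x - (b : ℝ) ^ i * n) := by
          rw [pow_succ]; ring
        rw [e1, abs_mul, abs_of_pos hb0]
        calc (b : ℝ) * |(b : ℝ) ^ i * x - (b : ℝ) ^ i * n| < b * (1 / (b : ℝ) ^ 2) := mul_lt_mul_of_pos_left h3 hb0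
          _ = 1 / b := by field_simp
      have h5 : n' = (b : ℤ) ^ (i + 1) * n := by
        apply int_eq_of_lt
        have e1 : ((n' - (b : ℤ) ^ (i + 1) * n : ℤ) : ℝ) = ((b : ℝ) ^ (i + 1) * x - (b : ℝ) ^ (i + 1) * n) -
            ((b : ℝ) ^ (i + 1) * x - n') := by push_cast; ring
        rw [e1]
        refine lt_of_le_of_lt (abs_sub _ _) ?_
        have h6 : 1 / (b : ℝ) ≤ 1 / 2 := one_div_le_one_div_of_le (by norm_num) hb2
        have h7 : 1 / (b : ℝ) ^ 2 ≤ 1 / 4 := one_div_le_one_div_of_le (by norm_num) (by nlinarith)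
        linarith
      rw [h5] at hn'
      push_cast at hn'
      exact hn'
  have h3 := h2 r le_rfl
  have h4 := h (W₀ * n)
  have h5 : |(W₀ : ℝ) * x - ((W₀ * n : ℤ) : ℝ)| ≤ |(b : ℝ) ^ r * x - (b : ℝ) ^ r * n| := by
    have e1 : (W₀ : ℝ) * x - ((W₀ * n : ℤ) : ℝ) = W₀ * (x - n) := by push_cast; ring
    have e2 : (b : ℝ) ^ r * x - (b : ℝ) ^ r * n = (b : ℝ) ^ r * (x - n) := by ring
    rw [e1, e2, abs_mul, abs_mul, abs_of_nonneg (Nat.cast_nonneg W₀), abs_of_pos (by positivity : (0 : ℝ) < (b : ℝ) ^ r)]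
    apply mul_le_mul_of_nonneg_right _ (abs_nonneg _)
    exact_mod_cast hW
  linarith

lemma far_shift (b : ℕ) (hb : 2 ≤ b) (G : ℤ) (W₀ r : ℕ) (hW0 : 1 ≤ W₀) (hW : W₀ ≤ b ^ r) (k : ℕ) (θ : ℝ) (h : ℕ) :
    far b (G * W₀) k θ ≤ (r + 1) * (far b G k (θ + (h : ℝ) / W₀) + r) := by
  classical
  have hW0' : (W₀ : ℝ) ≠ 0 := by exact_mod_cast (by omega : W₀ ≠ 0)
  obtain ⟨y, hy⟩ : ∃ y : ℝ, y = θ + (h : ℝ) / W₀ := ⟨_, rfl⟩
  rw [← hy]
  obtain ⟨S, hS⟩ : ∃ S : ℕ → Finset ℕ, S = fun i => (range k).filter (fun j => Far (1 / (b : ℝ) ^ 2) ((b : ℝ) ^ (j + i) * ((G : ℝ) * y))) := ⟨_, rfl⟩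
  have h1 : far b (G * W₀) k θ ≤ ((range (r + 1)).biUnion S).card := by
    unfold far
    apply card_le_card
    intro j hj
    rw [mem_filter] at hj
    have h2 : Far (1 / (b : ℝ) ^ 2) ((W₀ : ℝ) * ((b : ℝ) ^ j * ((G : ℝ) * y))) := by
      have e1 : (W₀ : ℝ) * ((b : ℝ) ^ j * ((G : ℝ) * y)) = (b : ℝ) ^ j * (((G * W₀ : ℤ) : ℝ) * θ) +
          (((b : ℤ) ^ j * G * h : ℤ) : ℝ) := by
        rw [hy]
        push_cast
        field_simp
      rw [e1]
      exact far_add_int _ hj.2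
    obtain ⟨i, hi, h3⟩ := far_chain b hb W₀ r hW _ h2
    rw [mem_biUnion]
    refine ⟨i, mem_range.2 (by omega), ?_⟩
    rw [hS]
    simp only
    rw [mem_filter]
    refine ⟨hj.1, ?_⟩
    have e1 : (b : ℝ) ^ (j + i) * ((G : ℝ) * y) = (b : ℝ) ^ i * ((b : ℝ) ^ j * ((G : ℝ) * y)) := by
      rw [pow_add]; ring
    rw [e1]
    exact h3
  have h2 : ∀ i ∈ range (r + 1), (S i).card ≤ far b G k y + r := by
    intro i hi
    rw [mem_range] at hi
    have h3 : (S i).card ≤ far b G (k + r) y := by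
      unfold far
      rw [hS]
      apply card_le_card_of_injOn (fun j => j + i)
      · intro j hj
        rw [mem_coe, mem_filter, mem_range] at hj ⊢
        exact ⟨by simp only; omega, hj.2⟩
      · intro j _ j' _ hjj
        simp only at hjj
        omega
    refine h3.trans ?_
    rw [far_split]
    apply Nat.add_le_add_left
    refine (card_filter_le _ _).trans ?_
    rw [card_range]
  refine h1.trans (card_biUnion_le.trans ((sum_le_sum h2).trans ?_))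
  rw [sum_const, card_range, smul_eq_mul]

/-- the restriction of the random integer to residue classes -/
theorem restrict {ι : Type} (b : ℕ) (hb : 2 ≤ b) (G : ℤ) (A k t₀ : ℕ) (γ : ℝ) (Ω : Finset ι) (w : ι → ℝ) (v : ι → ℤ)
    (hw : ∀ i ∈ Ω, 0 ≤ w i) (hw1 : ∑ i ∈ Ω, w i ≤ 1)
    (hchar : ∀ (θ : ℝ) (N : ℕ), t₀ ≤ N → A * (N + 1) ≤ far b G k θ → ‖ph Ω w v θ‖ ≤ γ ^ N)
    (W₀ r : ℕ) (hW0 : 1 ≤ W₀) (hW : W₀ ≤ b ^ r) (e : ℤ → ℝ) (he : Per W₀ e) (he01 : ∀ n, e n = 0 ∨ e n = 1) :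
    Dk b (G * W₀) ((r + 1) * (A + r)) k t₀ γ W₀ (ph Ω (fun i => w i * e (v i)) v) := by
  classical
  refine ⟨fun θ => ?_, fun θ N hN hfar => ?_⟩
  · unfold ph
    refine (norm_sum_le _ _).trans (le_trans (sum_le_sum fun i hi => ?_) hw1)
    rw [norm_mul, norm_ee, mul_one, Complex.norm_real, Real.norm_eq_abs]
    show |w i * e (v i)| ≤ w i
    rcases he01 (v i) with h | h
    · rw [h, mul_zero, abs_zero]
      exact hw i hi
    · rw [h, mul_one, abs_of_nonneg (hw i hi)]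
  · have h1 : ph Ω (fun i => w i * e (v i)) v θ = ∑ h ∈ range W₀, co W₀ e h * ph Ω w v (θ + (h : ℝ) / W₀) := by
      unfold ph
      simp only [mul_sum]
      rw [sum_comm]
      apply sum_congr rfl
      intro i _
      push_cast
      rw [inversion W₀ hW0 e he (v i), mul_sum, sum_mul]
      apply sum_congr rfl
      intro h _
      have e1 : ee ((v i : ℝ) * (θ + (h : ℝ) / W₀)) = ee ((h : ℝ) * ((v i : ℝ) / W₀)) * ee ((v i : ℝ) * θ) := by
        rw [← ee_add]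
        congr 1
        ring
      rw [e1]
      ring
    have h2 : ∀ h ∈ range W₀, ‖co W₀ e h * ph Ω w v (θ + (h : ℝ) / W₀)‖ ≤ γ ^ N := by
      intro h _
      have h3 : ‖co W₀ e h‖ ≤ 1 := norm_co W₀ hW0 e (fun n => by rcases he01 n with h | h <;> rw [h] <;> norm_num) h
      have h4 : A * (N + 1) ≤ far b G k (θ + (h : ℝ) / W₀) := by
        have h5 := hfar.trans (far_shift b hb G W₀ r hW0 hW k θ h)
        have h6 : (r + 1) * ((A + r) * (N + 1)) ≤ (r + 1) * (far b G k (θ + (h : ℝ) / W₀) + r) := by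
          calc (r + 1) * ((A + r) * (N + 1)) = (r + 1) * (A + r) * (N + 1) := by ring
            _ ≤ _ := h5
        have h7 := Nat.le_of_mul_le_mul_left h6 (by omega)
        nlinarith
      rw [norm_mul]
      exact (mul_le_of_le_one_left (norm_nonneg _) h3).trans (hchar _ N hN h4)
    rw [h1]
    refine (norm_sum_le _ _).trans ((sum_le_card_nsmul _ _ _ h2).trans ?_)
    rw [card_range, nsmul_eq_mul]

end Pool.Agent.Run7.h560.AP
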