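import Pool.Agent.Run7.h560.AP.Digits

set_option autoImplicit false

/-!
# Systems of linear forms
-/

namespace Pool.Agent.Run7.h560.AP

open Finset Polynomial

/-- choice of a class for every prime -/
lemma crt_primes (q : ℕ) (P : ℕ → ℕ → Prop) (hper : ∀ p n m : ℕ, n ≡ m [MOD p] → P p n → P p m)
    (hq : q ≠ 0) (h : ∀ p : ℕ, p.Prime → p ∣ q → ∃ n, P p n) : ∃ a : ℕ, ∀ p : ℕ, p.Prime → p ∣ q → P p a := by
  classical
  choose! g hg using h
  have hco : Set.Pairwise (q.primeFactors : Set ℕ) (Function.onFun Nat.Coprime (fun p => p)) := by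
    intro p hp p' hp' hne
    rw [mem_coe] at hp hp'
    exact (Nat.coprime_primes (Nat.prime_of_mem_primeFactors hp) (Nat.prime_of_mem_primeFactors hp')).2 hne
  obtain ⟨a, ha⟩ := Nat.chineseRemainderOfFinset g (fun p => p) q.primeFactors
    (fun p hp => (Nat.prime_of_mem_primeFactors hp).ne_zero) hco
  refine ⟨a, fun p hp hpq => ?_⟩
  exact hper p (g p) a (ha p (Nat.mem_primeFactors.2 ⟨hp, hpq, hq⟩)).symm (hg p hp hpq)

lemma cop_of_primes (v : ℤ) (q : ℕ) (h : ∀ p : ℕ, p.Prime → p ∣ q → ¬ (p : ℤ) ∣ v) : IsCoprime v (q : ℤ) := by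
  rw [Int.isCoprime_iff_gcd_eq_one]
  by_contra hcon
  obtain ⟨p, hp, hpd⟩ := Nat.exists_prime_and_dvd hcon
  have h1 : p ∣ v.natAbs := hpd.trans (Nat.gcd_dvd_left _ _)
  have h2 : p ∣ q := by
    have := hpd.trans (Nat.gcd_dvd_right v.natAbs (q : ℤ).natAbs)
    rwa [Int.natAbs_natCast] at this
  exact h p hp h2 (Int.natCast_dvd.2 h1)

lemma eval_modEq (f : ℤ[X]) (p n m : ℕ) (h : n ≡ m [MOD p]) : (p : ℤ) ∣ f.eval (n : ℤ) ↔ (p : ℤ) ∣ f.eval (m : ℤ) := by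
  have h1 : (p : ℤ) ∣ (m : ℤ) - n := (Nat.modEq_iff_dvd).1 h
  have h2 : (p : ℤ) ∣ f.eval (m : ℤ) - f.eval (n : ℤ) := h1.trans (sub_dvd_eval_sub _ _ f)
  exact (dvd_iff_dvd_of_dvd_sub h2).symm

/-- **values coprime to `q` at the integers with digits in `D`** -/
theorem digits_sys (b : ℕ) (hb : 2 ≤ b) (D : Finset ℕ) (h0 : 0 ∈ D) (h1 : 1 ∈ D) (e : ℕ) (he : e ∈ D) (heb : e < b)
    (q : ℕ) (hq : 1 ≤ q) : ∃ c : ℝ, 0 < c ∧ ∃ L₀ : ℕ, ∀ L : ℕ, L₀ ≤ L → ∀ (ι : Type) (f : ι → ℤ[X]),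
    (∀ i, IsCoprime ((f i).eval (e : ℤ)) (b : ℤ)) →
    (∀ p : ℕ, p.Prime → ¬ p ∣ b → ∃ n : ℕ, ∀ i, ¬ (p : ℤ) ∣ (f i).eval (n : ℤ)) →
    c * cnt b (dfa D) L (fun _ => True) ≤ cnt b (dfa D) L (fun n => ∀ i, IsCoprime ((f i).eval (n : ℤ)) (q : ℤ)) := by
  classical
  obtain ⟨q', hq'⟩ : ∃ q', q' = ∏ p ∈ q.primeFactors.filter (fun p => ¬ p ∣ b), p := ⟨_, rfl⟩
  have hmem : ∀ p ∈ q.primeFactors.filter (fun p => ¬ p ∣ b), p.Prime ∧ p ∣ q ∧ ¬ p ∣ b := by
    intro p hp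
    rw [mem_filter, Nat.mem_primeFactors] at hp
    exact ⟨hp.1.1, hp.1.2.1, hp.2⟩
  have hcop : Nat.Coprime b q' := by
    rw [hq']
    apply Nat.Coprime.prod_right
    intro p hp
    exact ((hmem p hp).1.coprime_iff_not_dvd.2 (hmem p hp).2.2).symm
  have hq'0 : q' ≠ 0 := by
    rw [hq', prod_ne_zero_iff]
    intro p hp
    exact (hmem p hp).1.ne_zero
  obtain ⟨c, hc, L₀, hL⟩ := digits_class b hb D h0 h1 e he heb q' (by omega) hcop
  refine ⟨c, hc, L₀, fun L hLL ι f hfe hfp => ?_⟩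
  obtain ⟨a, ha⟩ := crt_primes q' (fun p n => ∀ i, ¬ (p : ℤ) ∣ (f i).eval (n : ℤ))
    (fun p n m hnm hP i => (not_congr (eval_modEq (f i) p n m hnm)).1 (hP i)) hq'0 (by
      intro p hp hpq
      rw [hq', (Nat.prime_iff.1 hp).dvd_finset_prod_iff] at hpq
      obtain ⟨p', hp', hpp⟩ := hpq
      rw [(Nat.prime_dvd_prime_iff_eq hp (hmem p' hp').1).1 hpp]
      exact hfp p' (hmem p' hp').1 (hmem p' hp').2.2)
  refine (hL L hLL a).trans ?_
  rw [Nat.cast_le]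
  apply cnt_mono b (dfa D) le_rfl
  rintro n _ ⟨hn1, hn2⟩ i
  apply cop_of_primes
  intro p hp hpq hpd
  by_cases hpb : p ∣ b
  · have h2 : n ≡ e [MOD p] := by
      have h3 : n ≡ e [MOD b] := by
        unfold Nat.ModEq
        rw [hn1, Nat.mod_eq_of_lt heb]
      exact h3.of_dvd hpb
    have h3 := (eval_modEq (f i) p n e h2).1 hpd
    have h4 := (hfe i).isUnit_of_dvd' h3 (by exact_mod_cast hpb)
    rw [Int.isUnit_iff] at h4
    have := hp.two_le
    omega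
  · have h2 : p ∣ q' := by
      rw [hq']
      apply dvd_prod_of_mem
      rw [mem_filter, Nat.mem_primeFactors]
      exact ⟨⟨hp, hpq, by omega⟩, hpb⟩
    have h3 : n ≡ a [MOD p] := hn2.of_dvd h2
    exact ha p hp h2 i ((eval_modEq (f i) p n a h3).1 hpd)

/-- the lower bound of the products -/
lemma prod_low (k : ℕ) : ∃ c : ℝ, 0 < c ∧ ∀ (r : ℕ → ℕ) (N : ℕ), 2 ≤ N → (∀ p, p.Prime → r p ≤ k ∧ r p < p) →
    c / Real.log N ^ k ≤ ∏ p ∈ prs N, (1 - (r p : ℝ) / p) := by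
  classical
  obtain ⟨K, hK, hV⟩ := Vp_bounds
  obtain ⟨u, hu⟩ : ∃ u : ℕ → ℝ, u = fun p => if p ≤ 2 * k then 1 / (p : ℝ) else 1 := ⟨_, rfl⟩
  obtain ⟨u₀, hu₀⟩ : ∃ u₀ : ℝ, u₀ = ∏ p ∈ prs (2 * k), (1 / (p : ℝ)) := ⟨_, rfl⟩
  have hprs : ∀ n p, p ∈ prs n → 0 < 1 / (p : ℝ) ∧ 1 / (p : ℝ) ≤ 1 := by
    intro n p hp
    rw [mem_prs] at hp
    have h2 : (2 : ℝ) ≤ p := by exact_mod_cast hp.2.two_le
    refine ⟨by positivity, ?_⟩
    rw [div_le_one (by linarith)]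
    linarith
  have hu0 : 0 < u₀ := by
    rw [hu₀]
    exact prod_pos fun p hp => (hprs _ p hp).1
  refine ⟨u₀ * Real.exp (-(2 * (k : ℝ) ^ 2)) * (1 / K ^ k), by positivity, fun r N hN hr => ?_⟩
  have hNr : (2 : ℝ) ≤ N := by exact_mod_cast hN
  have hlog : 0 < Real.log N := Real.log_pos (by linarith)
  have h1 : ∀ p ∈ prs N, u p * Real.exp (-(2 * (k : ℝ) ^ 2 * (1 / (p : ℝ) ^ 2))) * (1 - 1 / (p : ℝ)) ^ k ≤ 1 - (r p : ℝ) / p := by
    intro p hp
    have hpp := ((mem_prs N p).1 hp).2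
    have hp2 : (2 : ℝ) ≤ p := by exact_mod_cast hpp.two_le
    have hp0 : (0 : ℝ) < p := by linarith
    obtain ⟨hh1, hh2⟩ := prs_half N p hp
    have hpow1 : (1 - 1 / (p : ℝ)) ^ k ≤ 1 := pow_le_one₀ (by linarith) (by linarith)
    have hpow0 : 0 ≤ (1 - 1 / (p : ℝ)) ^ k := pow_nonneg (by linarith) k
    have hexp1 : Real.exp (-(2 * (k : ℝ) ^ 2 * (1 / (p : ℝ) ^ 2))) ≤ 1 := by
      rw [Real.exp_le_one_iff]
      have : 0 ≤ 2 * (k : ℝ) ^ 2 * (1 / (p : ℝ) ^ 2) := by positivity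
      linarith
    have hexp0 := (Real.exp_pos (-(2 * (k : ℝ) ^ 2 * (1 / (p : ℝ) ^ 2)))).le
    rw [hu]
    simp only
    split_ifs with hc
    · have h2 : 1 / (p : ℝ) ≤ 1 - (r p : ℝ) / p := by
        rw [le_sub_iff_add_le, ← add_div, div_le_one hp0]
        have := (hr p hpp).2
        exact_mod_cast (by omega : 1 + r p ≤ p)
      refine le_trans ?_ h2
      rw [mul_assoc]
      apply mul_le_of_le_one_right hh1
      exact mul_le_one₀ hexp1 hpow0 hpow1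
    · push Not at hc
      rw [one_mul]
      have hkp : (k : ℝ) / p ≤ 1 / 2 := by
        rw [div_le_div_iff₀ hp0 (by norm_num)]
        have : (2 * k : ℝ) ≤ p := by exact_mod_cast hc.le
        linarith
      have h2 := one_sub_ge_exp' (show 0 ≤ (k : ℝ) / p by positivity) hkp
      have h3 : (1 - 1 / (p : ℝ)) ^ k ≤ Real.exp (-((k : ℝ) / p)) := by
        have h4 : 1 - 1 / (p : ℝ) ≤ Real.exp (-(1 / (p : ℝ))) := by
          have := Real.add_one_le_exp (-(1 / (p : ℝ)))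
          linarith
        calc (1 - 1 / (p : ℝ)) ^ k ≤ Real.exp (-(1 / (p : ℝ))) ^ k := pow_le_pow_left₀ (by linarith) h4 k
          _ = Real.exp (-((k : ℝ) / p)) := by
              rw [← Real.exp_nat_mul]
              congr 1
              ring
      have h4 : (r p : ℝ) / p ≤ (k : ℝ) / p := by
        apply div_le_div_of_nonneg_right _ hp0.le
        exact_mod_cast (hr p hpp).1
      calc Real.exp (-(2 * (k : ℝ) ^ 2 * (1 / (p : ℝ) ^ 2))) * (1 - 1 / (p : ℝ)) ^ k ≤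
          Real.exp (-(2 * (k : ℝ) ^ 2 * (1 / (p : ℝ) ^ 2))) * Real.exp (-((k : ℝ) / p)) :=
            mul_le_mul_of_nonneg_left h3 hexp0
        _ = Real.exp (-((k : ℝ) / p + 2 * ((k : ℝ) / p) ^ 2)) := by
            rw [← Real.exp_add]
            congr 1
            rw [div_pow]
            ring
        _ ≤ 1 - (k : ℝ) / p := h2
        _ ≤ _ := by linarith
  have hfac0 : ∀ p ∈ prs N, 0 ≤ u p * Real.exp (-(2 * (k : ℝ) ^ 2 * (1 / (p : ℝ) ^ 2))) * (1 - 1 / (p : ℝ)) ^ k := by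
    intro p hp
    obtain ⟨hh1, hh2⟩ := prs_half N p hp
    have hup : 0 ≤ u p := by
      rw [hu]
      simp only
      split_ifs
      · exact hh1
      · norm_num
    exact mul_nonneg (mul_nonneg hup (Real.exp_pos _).le) (pow_nonneg (by linarith) k)
  refine le_trans ?_ (prod_le_prod hfac0 h1)
  rw [prod_mul_distrib, prod_mul_distrib, prod_pow]
  have h2 : u₀ ≤ ∏ p ∈ prs N, u p := by
    have e1 : ∏ p ∈ prs N, u p = ∏ p ∈ (prs N).filter (fun p => p ≤ 2 * k), (1 / (p : ℝ)) := by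
      rw [prod_filter, hu]
    rw [e1, hu₀]
    apply prod_drop
    · intro p hp
      rw [mem_filter, mem_prs] at hp
      rw [mem_prs]
      exact ⟨hp.2, hp.1.2⟩
    · intro p hp
      exact (hprs _ p hp).1.le
    · intro p hp
      exact (hprs _ p hp).2
  have h3 : Real.exp (-(2 * (k : ℝ) ^ 2)) ≤ ∏ p ∈ prs N, Real.exp (-(2 * (k : ℝ) ^ 2 * (1 / (p : ℝ) ^ 2))) := by
    rw [← Real.exp_sum, Real.exp_le_exp, sum_neg_distrib, neg_le_neg_iff, ← mul_sum]
    have h4 := sum_sq (prs N) (fun p hp => ((mem_prs N p).1 hp).2.two_le)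
    calc 2 * (k : ℝ) ^ 2 * ∑ p ∈ prs N, 1 / (p : ℝ) ^ 2 ≤ 2 * (k : ℝ) ^ 2 * 1 := mul_le_mul_of_nonneg_left h4 (by positivity)
      _ = _ := mul_one _
  have h4 : 1 / K ^ k / Real.log N ^ k ≤ Vp N ^ k := by
    calc 1 / K ^ k / Real.log N ^ k = (1 / (K * Real.log N)) ^ k := by
          rw [div_pow, one_pow, mul_pow, div_div]
      _ ≤ _ := pow_le_pow_left₀ (by positivity) (hV N hN).1 k
  have hup0 : 0 ≤ ∏ p ∈ prs N, u p := hu0.le.trans h2
  calc u₀ * Real.exp (-(2 * (k : ℝ) ^ 2)) * (1 / K ^ k) / Real.log N ^ k =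
      u₀ * Real.exp (-(2 * (k : ℝ) ^ 2)) * (1 / K ^ k / Real.log N ^ k) := by ring
    _ ≤ (∏ p ∈ prs N, u p) * (∏ p ∈ prs N, Real.exp (-(2 * (k : ℝ) ^ 2 * (1 / (p : ℝ) ^ 2)))) * Vp N ^ k := by
        apply mul_le_mul _ h4 (by positivity) (mul_nonneg hup0 (prod_nonneg fun p _ => (Real.exp_pos _).le))
        exact mul_le_mul h2 h3 (Real.exp_pos _).le hup0
    _ = _ := by unfold Vp; rfl

/-- the upper bound of the products -/
lemma prod_up (k p₀ : ℕ) : ∃ C : ℝ, 0 < C ∧ ∀ (r : ℕ → ℕ) (N : ℕ), 2 ≤ N → (∀ p, p.Prime → p₀ < p → r p = k) →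
    (∀ p, p.Prime → r p ≤ p) → ∏ p ∈ prs N, (1 - (r p : ℝ) / p) ≤ C / Real.log N ^ k := by
  classical
  obtain ⟨K, hK, hV⟩ := Vp_bounds
  refine ⟨(2 ^ k) ^ (p₀ + 1) * K ^ k, by positivity, fun r N hN hr hrp => ?_⟩
  have hNr : (2 : ℝ) ≤ N := by exact_mod_cast hN
  have hlog : 0 < Real.log N := Real.log_pos (by linarith)
  have h1 : ∀ p ∈ prs N, 1 - (r p : ℝ) / p ≤ (if p ≤ p₀ then (2 : ℝ) ^ k else 1) * (1 - 1 / (p : ℝ)) ^ k := by
    intro p hp
    have hpp := ((mem_prs N p).1 hp).2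
    have hp2 : (2 : ℝ) ≤ p := by exact_mod_cast hpp.two_le
    have hp0 : (0 : ℝ) < p := by linarith
    obtain ⟨hh1, hh2⟩ := prs_half N p hp
    split_ifs with hc
    · have h2 : 1 - (r p : ℝ) / p ≤ 1 := by
        have : 0 ≤ (r p : ℝ) / p := by positivity
        linarith
      refine h2.trans ?_
      rw [← mul_pow]
      apply one_le_pow₀
      linarith
    · push Not at hc
      rw [one_mul, hr p hpp hc]
      have h2 := one_add_mul_le_pow (show (-2 : ℝ) ≤ -(1 / (p : ℝ)) by linarith) k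
      calc 1 - (k : ℝ) / p = 1 + k * (-(1 / (p : ℝ))) := by ring
        _ ≤ (1 + -(1 / (p : ℝ))) ^ k := h2
        _ = _ := by ring
  have h0 : ∀ p ∈ prs N, 0 ≤ 1 - (r p : ℝ) / p := by
    intro p hp
    have hpp := ((mem_prs N p).1 hp).2
    have hp0 : (0 : ℝ) < p := by exact_mod_cast hpp.pos
    rw [sub_nonneg, div_le_one hp0]
    exact_mod_cast hrp p hpp
  refine (prod_le_prod h0 h1).trans ?_
  rw [prod_mul_distrib, prod_pow]
  have h2 : ∏ p ∈ prs N, (if p ≤ p₀ then (2 : ℝ) ^ k else 1) ≤ (2 ^ k) ^ (p₀ + 1) := by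
    rw [← prod_filter, prod_const]
    apply pow_le_pow_right₀ (one_le_pow₀ (by norm_num))
    calc ((prs N).filter (fun p => p ≤ p₀)).card ≤ (range (p₀ + 1)).card := by
          apply card_le_card
          intro p hp
          rw [mem_filter] at hp
          rw [mem_range]
          omega
      _ = p₀ + 1 := card_range _
  have hVp0 : 0 ≤ Vp N := le_trans (by positivity) (hV N hN).1
  have h3 : Vp N ^ k ≤ K ^ k / Real.log N ^ k := by
    rw [← div_pow]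
    exact pow_le_pow_left₀ hVp0 (hV N hN).2 k
  calc (∏ p ∈ prs N, (if p ≤ p₀ then (2 : ℝ) ^ k else 1)) * (∏ p ∈ prs N, (1 - 1 / (p : ℝ))) ^ k ≤
      (2 ^ k) ^ (p₀ + 1) * (K ^ k / Real.log N ^ k) := by
        apply mul_le_mul h2 _ (pow_nonneg hVp0 k) (by positivity)
        exact h3
    _ = _ := by ring

/-- the product of the linear forms -/
noncomputable def lf {k : ℕ} (a c : Fin k → ℤ) (i : Fin k) : ℤ[X] := Polynomial.C (a i) * X + Polynomial.C (c i)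

lemma lf_eval {k : ℕ} (a c : Fin k → ℤ) (i : Fin k) (n : ℤ) : (lf a c i).eval n = a i * n + c i := by
  unfold lf
  simp

lemma lf_deg {k : ℕ} (a c : Fin k → ℤ) : (∏ i, lf a c i).natDegree ≤ k := by
  refine (natDegree_prod_le _ _).trans ?_
  refine (sum_le_sum (g := fun _ => 1) fun i _ => ?_).trans ?_
  · unfold lf
    exact natDegree_linear_le
  · simp

lemma prim_prod {ι : Type} [Fintype ι] (p : ℕ) (hp : p.Prime) (f : ι → ℤ[X]) (h : ∀ i, ∃ j, ¬ (p : ℤ) ∣ (f i).coeff j) :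
    ∃ j, ¬ (p : ℤ) ∣ (∏ i, f i).coeff j := by
  classical
  have : Fact p.Prime := ⟨hp⟩
  have hne : (∏ i, f i).map (Int.castRingHom (ZMod p)) ≠ 0 := by
    rw [Polynomial.map_prod, prod_ne_zero_iff]
    intro i _ h0
    obtain ⟨j, hj⟩ := h i
    apply hj
    have h1 : ((f i).map (Int.castRingHom (ZMod p))).coeff j = 0 := by rw [h0, coeff_zero]
    rw [coeff_map, eq_intCast, ZMod.intCast_zmod_eq_zero_iff_dvd] at h1
    exact h1
  by_contra hcon
  push Not at hcon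
  apply hne
  ext j
  rw [coeff_map, coeff_zero, eq_intCast, ZMod.intCast_zmod_eq_zero_iff_dvd]
  exact hcon j

lemma lf_prim {k : ℕ} (a c : Fin k → ℤ) (h : ∀ i, IsCoprime (a i) (c i)) (p : ℕ) (hp : p.Prime) :
    ∃ j, ¬ (p : ℤ) ∣ (∏ i, lf a c i).coeff j := by
  apply prim_prod p hp
  intro i
  by_contra hcon
  push Not at hcon
  have h0 := hcon 0
  have h1 := hcon 1
  unfold lf at h0 h1
  rw [coeff_add, coeff_C_mul, coeff_X_zero, coeff_C_zero, mul_zero, zero_add] at h0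
  rw [coeff_add, coeff_C_mul, coeff_X_one, coeff_C_ne_zero (by norm_num), add_zero, mul_one] at h1
  have h2 := (h i).isUnit_of_dvd' h1 h0
  rw [Int.isUnit_iff] at h2
  have := hp.two_le
  omega

/-- the number of the residue classes `n` modulo `p` for which `p` divides the product of the forms -/
noncomputable def rho {k : ℕ} (a c : Fin k → ℤ) (p : ℕ) : ℕ := by
  classical
  exact ((range p).filter (fun n : ℕ => (p : ℤ) ∣ ∏ i, (a i * n + c i))).card

lemma rho_eq {k : ℕ} (a c : Fin k → ℤ) (p : ℕ) : rt (∏ i, lf a c i) p = rho a c p := by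
  classical
  unfold rt rho
  congr 1
  ext t
  simp only [mem_filter, eval_prod, lf_eval]

end Pool.Agent.Run7.h560.AP
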