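import Pool.Agent.Run7.h560.AP.Sys

set_option autoImplicit false

/-!
# Systems of linear forms at the members of automatic sets
-/

namespace Pool.Agent.Run7.h560.AP

open Finset Polynomial

variable {σ : Type}

lemma rho_le {k : ℕ} (a c : Fin k → ℤ) (h : ∀ i, IsCoprime (a i) (c i)) (p : ℕ) (hp : p.Prime) : rho a c p ≤ k := by
  rw [← rho_eq]
  exact (rt_le' _ p hp (lf_prim a c h p hp)).trans (lf_deg a c)

/-- **the upper bound for primes, uniformly in the forms** -/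
theorem sys_upper [Fintype σ] (b : ℕ) (hb : 2 ≤ b) (M : DFA ℕ σ)
    (hS : ∀ k : ℕ, ∃ᶠ N : ℕ in Filter.atTop, Real.log N ^ k < (cnt b M N (fun _ => True) : ℝ)) (k : ℕ) :
    ∃ (C : ℝ) (N₀ : ℕ), 0 < C ∧ ∀ N : ℕ, N₀ ≤ N → ∀ a c : Fin k → ℤ, (∀ i, a i ≠ 0 ∧ IsCoprime (a i) (c i)) →
    (∀ p : ℕ, p.Prime → rho a c p < p) →
    (cnt b M N (fun n => ∀ i, (a i * n + c i).natAbs.Prime) : ℝ) ≤
      C * cnt b M N (fun _ => True) * ∏ p ∈ (range (N + 1)).filter Nat.Prime, (1 - (rho a c p : ℝ) / p) := by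
  classical
  obtain ⟨z0, hup⟩ := unif_upper b hb M hS k
  obtain ⟨h, N₁, hh, hsmall⟩ := few_small b hb M hS k (2 * k) (by positivity)
  obtain ⟨C, N₂, hC, hbound⟩ := hup h hh
  obtain ⟨c₀, hc₀, hlow⟩ := prod_low k
  obtain ⟨Z, hZ⟩ : ∃ Z : ℝ, Z = ∏ p ∈ prs z0, (p : ℝ) := ⟨_, rfl⟩
  have hZ0 : 0 < Z := by
    rw [hZ]
    apply prod_pos
    intro p hp
    exact_mod_cast ((mem_prs z0 p).1 hp).2.pos
  refine ⟨C * Z + 1 / c₀, N₁ + N₂ + 3, by positivity, fun N hN a c hac hadm => ?_⟩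
  have hNr : (3 : ℝ) ≤ N := by exact_mod_cast (by omega : 3 ≤ N)
  have hlog : 0 < Real.log N := Real.log_pos (by linarith)
  obtain ⟨y, hy1, hy2⟩ := root_exists N h hh
  have hrho : ∀ p, p.Prime → rho a c p ≤ k ∧ rho a c p < p := fun p hp => ⟨rho_le a c (fun i => (hac i).2) p hp, hadm p hp⟩
  have hprodlow := hlow (rho a c) N (by omega) hrho
  -- the small values
  obtain ⟨T, hT⟩ : ∃ T : Finset ℕ, T = univ.biUnion (fun i : Fin k => (range N).filter (fun n : ℕ => (a i * n + c i).natAbs ≤ y)) := ⟨_, rfl⟩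
  have hTc : T.card ≤ k * (2 * y + 1) := by
    rw [hT]
    refine card_biUnion_le.trans ?_
    have h1 : ∀ i ∈ (univ : Finset (Fin k)), ((range N).filter (fun n : ℕ => (a i * n + c i).natAbs ≤ y)).card ≤ 2 * y + 1 := by
      intro i _
      have h2 : ((range N).filter (fun n : ℕ => (a i * n + c i).natAbs ≤ y)).card ≤ (Icc (-(y : ℤ)) y).card := by
        apply card_le_card_of_injOn (fun n : ℕ => a i * n + c i)
        · intro n hn
          rw [mem_coe, mem_filter] at hn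
          rw [mem_coe, mem_Icc]
          have := hn.2
          simp only
          omega
        · intro n _ n' _ hnn
          simp only at hnn
          have h3 : a i * (n : ℤ) = a i * n' := by linarith
          have h4 := mul_left_cancel₀ (hac i).1 h3
          exact_mod_cast h4
      refine h2.trans ?_
      rw [Int.card_Icc]
      omega
    refine (sum_le_sum h1).trans ?_
    simp
  have h1 := cnt_split b M N (fun n => ∀ i, (a i * n + c i).natAbs.Prime)
    (fun n => ∀ i, ∀ p : ℕ, p.Prime → (p : ℤ) ∣ (lf a c i).eval (n : ℤ) → N < p ^ h) T (by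
      intro n hn hpr
      by_cases hc : ∃ i, (a i * n + c i).natAbs ≤ y
      · right
        obtain ⟨i, hi⟩ := hc
        rw [hT, mem_biUnion]
        exact ⟨i, mem_univ i, mem_filter.2 ⟨mem_range.2 hn, hi⟩⟩
      · left
        push Not at hc
        intro i p hp hpd
        rw [lf_eval] at hpd
        have h2 : p ∣ (a i * n + c i).natAbs := Int.natCast_dvd.1 hpd
        have h3 := (Nat.prime_dvd_prime_iff_eq hp (hpr i)).1 h2
        have h4 := hc i
        rw [← h3] at h4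
        have h5 : (y + 1) ^ h ≤ p ^ h := Nat.pow_le_pow_left (by omega) h
        omega)
  have h2 := hbound N (by omega) (Fin k) (lf a c) (lf_deg a c) (fun p hp _ => lf_prim a c (fun i => (hac i).2) p hp)
  simp only [rho_eq] at h2
  obtain ⟨V, hV⟩ : ∃ V : ℝ, V = ∏ p ∈ (range (N + 1)).filter Nat.Prime, (1 - (rho a c p : ℝ) / p) := ⟨_, rfl⟩
  have hVlow : c₀ / Real.log N ^ k ≤ V := by rw [hV]; exact hprodlow
  have hV0 : 0 < V := lt_of_lt_of_le (by positivity) hVlow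
  have h3 : ∏ p ∈ (range (N + 1)).filter (fun p => p.Prime ∧ z0 < p), (1 - (rho a c p : ℝ) / p) ≤ Z * V := by
    have hfac : ∀ p ∈ (range (N + 1)).filter Nat.Prime, 1 / (p : ℝ) ≤ 1 - (rho a c p : ℝ) / p ∧ 1 - (rho a c p : ℝ) / p ≤ 1 := by
      intro p hp
      have hpp := (mem_filter.1 hp).2
      have hp0 : (0 : ℝ) < p := by exact_mod_cast hpp.pos
      constructor
      · rw [le_sub_iff_add_le, ← add_div, div_le_one hp0]
        have := hadm p hpp
        exact_mod_cast (by omega : 1 + rho a c p ≤ p)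
      · have : 0 ≤ (rho a c p : ℝ) / p := by positivity
        linarith
    have e1 : (range (N + 1)).filter (fun p => p.Prime ∧ z0 < p) = ((range (N + 1)).filter Nat.Prime).filter (fun p => z0 < p) := by
      rw [filter_filter]
    have e2 := prod_filter_mul_prod_filter_not ((range (N + 1)).filter Nat.Prime) (fun p => z0 < p)
      (fun p => 1 - (rho a c p : ℝ) / p)
    rw [e1, hV, ← e2]
    obtain ⟨U, hU⟩ : ∃ U : ℝ, U = ∏ p ∈ ((range (N + 1)).filter Nat.Prime).filter (fun p => z0 < p), (1 - (rho a c p : ℝ) / p) := ⟨_, rfl⟩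
    rw [← hU]
    have hU0 : 0 ≤ U := by
      rw [hU]
      apply prod_nonneg
      intro p hp
      have h4 := (hfac p (mem_filter.1 hp).1).1
      exact le_trans (by positivity) h4
    have h4 : 1 ≤ Z * ∏ p ∈ ((range (N + 1)).filter Nat.Prime).filter (fun p => ¬ z0 < p), (1 - (rho a c p : ℝ) / p) := by
      have h5 : ∏ p ∈ prs z0, (1 / (p : ℝ)) ≤ ∏ p ∈ ((range (N + 1)).filter Nat.Prime).filter (fun p => ¬ z0 < p), (1 - (rho a c p : ℝ) / p) := by
        have hsub : ((range (N + 1)).filter Nat.Prime).filter (fun p => ¬ z0 < p) ⊆ prs z0 := by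
          intro p hp
          rw [mem_filter, mem_filter, not_lt] at hp
          rw [mem_prs]
          exact ⟨hp.2, hp.1.2⟩
        refine (prod_drop (prs z0) _ hsub (fun p => 1 / (p : ℝ)) (fun p hp => by positivity) (fun p hp => ?_)).trans ?_
        · have hp2 : (2 : ℝ) ≤ p := by exact_mod_cast ((mem_prs z0 p).1 hp).2.two_le
          rw [div_le_one (by linarith)]
          linarith
        · apply prod_le_prod
          · intro p _
            positivity
          · intro p hp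
            exact (hfac p (mem_filter.1 hp).1).1
      calc (1 : ℝ) = Z * ∏ p ∈ prs z0, (1 / (p : ℝ)) := by
            rw [hZ, ← prod_mul_distrib]
            symm
            apply prod_eq_one
            intro p hp
            have hp0 : (p : ℝ) ≠ 0 := by exact_mod_cast ((mem_prs z0 p).1 hp).2.ne_zero
            field_simp
        _ ≤ _ := mul_le_mul_of_nonneg_left h5 hZ0.le
    calc U = U * 1 := (mul_one U).symm
      _ ≤ U * (Z * ∏ p ∈ ((range (N + 1)).filter Nat.Prime).filter (fun p => ¬ z0 < p), (1 - (rho a c p : ℝ) / p)) :=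
          mul_le_mul_of_nonneg_left h4 hU0
      _ = _ := by ring
  obtain ⟨x, hx⟩ : ∃ x : ℝ, x = cnt b M N (fun _ => True) := ⟨_, rfl⟩
  have hx0 : 0 ≤ x := by rw [hx]; positivity
  rw [← hx] at h2
  rw [← hx, ← hV]
  have h4 : (T.card : ℝ) ≤ 1 / c₀ * (x * V) := by
    have h5 := hsmall N (by omega) y hy1
    rw [← hx] at h5
    have h6 : (T.card : ℝ) ≤ 2 * k * ((y : ℝ) + 1) := by
      have h7 : (T.card : ℝ) ≤ k * (2 * y + 1) := by exact_mod_cast hTc
      have h8 : (0 : ℝ) ≤ k := Nat.cast_nonneg k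
      nlinarith
    have h7 : (T.card : ℝ) * Real.log N ^ k ≤ x :=
      (mul_le_mul_of_nonneg_right h6 (by positivity)).trans h5
    have h8 : (T.card : ℝ) ≤ x / Real.log N ^ k := by
      rw [le_div_iff₀ (by positivity)]
      exact h7
    calc (T.card : ℝ) ≤ x / Real.log N ^ k := h8
      _ = 1 / c₀ * (x * (c₀ / Real.log N ^ k)) := by field_simp
      _ ≤ 1 / c₀ * (x * V) := by
          apply mul_le_mul_of_nonneg_left _ (by positivity)
          exact mul_le_mul_of_nonneg_left hVlow hx0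
  have h5 : (cnt b M N (fun n => ∀ i, (a i * n + c i).natAbs.Prime) : ℝ) ≤
      (cnt b M N (fun n => ∀ i, ∀ p : ℕ, p.Prime → (p : ℤ) ∣ (lf a c i).eval (n : ℤ) → N < p ^ h) : ℝ) + T.card := by
    exact_mod_cast h1
  calc (cnt b M N (fun n => ∀ i, (a i * n + c i).natAbs.Prime) : ℝ) ≤ _ := h5
    _ ≤ C * x * (Z * V) + 1 / c₀ * (x * V) := by
        apply add_le_add _ h4
        refine h2.trans ?_
        exact mul_le_mul_of_nonneg_left h3 (mul_nonneg hC.le hx0)
    _ = _ := by ring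

/-- **the lower bound for almost primes, uniformly in the forms** -/
theorem sys_lower [Fintype σ] (b : ℕ) (hb : 2 ≤ b) (M : DFA ℕ σ)
    (hS : ∀ k : ℕ, ∃ᶠ N : ℕ in Filter.atTop, Real.log N ^ k < (cnt b M N (fun _ => True) : ℝ)) (k D : ℕ) :
    ∃ (z0 R : ℕ) (η C : ℝ), 2 ≤ z0 ∧ 0 < η ∧ 0 < C ∧ ∀ c₁ : ℝ, 0 < c₁ → ∃ N₀ : ℕ, ∀ N : ℕ, N₀ ≤ N →
    ∀ a c : Fin k → ℤ, (∀ i, IsCoprime (a i) (c i)) → (∀ i, (a i).natAbs ≤ N ^ D ∧ (c i).natAbs ≤ N ^ D) →
    (∀ L : ℕ, L ≤ N → N ≤ z0 * L → c₁ * cnt b M L (fun _ => True) ≤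
      cnt b M L (fun n => ∀ i, IsCoprime (a i * n + c i) (z0.factorial : ℤ))) →
      c₁ / C * cnt b M N (fun _ => True) * ∏ p ∈ (range (N + 1)).filter Nat.Prime, (1 - (rho a c p : ℝ) / p) ≤
      cnt b M N (fun n => ∀ i, a i * n + c i ≠ 0 ∧ (a i * n + c i).natAbs.primeFactorsList.length ≤ R ∧
        ∀ p : ℕ, p.Prime → (p : ℤ) ∣ a i * n + c i → (N : ℝ) ^ η < p) := by
  obtain ⟨z0, R, η, C, hz0, hη, hC, hlow⟩ := unif_lower b hb M hS k (D + 2)
  refine ⟨z0, R, η, C, hz0, hη, hC, fun c₁ hc₁ => ?_⟩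
  obtain ⟨N₀, hN₀⟩ := hlow c₁ hc₁
  refine ⟨N₀ + 2, fun N hN a c hac hsize hloc => ?_⟩
  have h1 := hN₀ N (by omega) (Fin k) (lf a c) (lf_deg a c) (fun p hp _ => lf_prim a c hac p hp) (by
    intro i n hn
    rw [lf_eval]
    have h2 := (hsize i).1
    have h3 := (hsize i).2
    calc (a i * n + c i).natAbs ≤ (a i * n).natAbs + (c i).natAbs := Int.natAbs_add_le _ _
      _ = (a i).natAbs * n + (c i).natAbs := by rw [Int.natAbs_mul, Int.natAbs_natCast]
      _ ≤ N ^ D * N + N ^ D := add_le_add (Nat.mul_le_mul h2 hn) h3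
      _ = N ^ D * (N + 1) := by ring
      _ ≤ N ^ D * (N * N) := by
          apply Nat.mul_le_mul_left
          nlinarith
      _ = N ^ (D + 2) := by rw [pow_add]; ring) (by
    intro L hL1 hL2
    have h2 := hloc L hL1 hL2
    simpa only [lf_eval] using h2)
  simpa only [lf_eval, rho_eq] using h1

/-- **integers with digits in `D`** -/
theorem digits_lower (b : ℕ) (hb : 2 ≤ b) (S : Finset ℕ) (h0 : 0 ∈ S) (h1 : 1 ∈ S) (k D : ℕ) :
    ∃ (R : ℕ) (η c₀ : ℝ) (N₀ : ℕ), 0 < η ∧ 0 < c₀ ∧ ∀ N : ℕ, N₀ ≤ N →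
    ∀ a c : Fin k → ℤ, (∀ i, IsCoprime (a i) (c i)) → (∀ i, (a i).natAbs ≤ N ^ D ∧ (c i).natAbs ≤ N ^ D) →
    (∀ p : ℕ, p.Prime → ¬ p ∣ b → rho a c p < p) →
    (∃ e ∈ S, e < b ∧ ∀ i, IsCoprime (a i * e + c i) (b : ℤ)) →
      c₀ * cnt b (dfa S) N (fun _ => True) * ∏ p ∈ (range (N + 1)).filter Nat.Prime, (1 - (rho a c p : ℝ) / p) ≤
      cnt b (dfa S) N (fun n => ∀ i, a i * n + c i ≠ 0 ∧ (a i * n + c i).natAbs.primeFactorsList.length ≤ R ∧
        ∀ p : ℕ, p.Prime → (p : ℤ) ∣ a i * n + c i → (N : ℝ) ^ η < p) := by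
  classical
  have hS := digits_growth b hb S h0 h1
  obtain ⟨z0, R, η, C, hz0, hη, hC, hlow⟩ := sys_lower b hb (dfa S) hS k D
  have hex : ∀ e : ℕ, ∃ c : ℝ, 0 < c ∧ ∃ L₀ : ℕ, e ∈ S → e < b → ∀ L : ℕ, L₀ ≤ L → ∀ (ι : Type) (f : ι → ℤ[X]),
    (∀ i, IsCoprime ((f i).eval (e : ℤ)) (b : ℤ)) →
    (∀ p : ℕ, p.Prime → ¬ p ∣ b → ∃ n : ℕ, ∀ i, ¬ (p : ℤ) ∣ (f i).eval (n : ℤ)) →
    c * cnt b (dfa S) L (fun _ => True) ≤ cnt b (dfa S) L (fun n => ∀ i, IsCoprime ((f i).eval (n : ℤ)) (z0.factorial : ℤ)) := by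
    intro e
    by_cases he : e ∈ S ∧ e < b
    · obtain ⟨c, hc, L₀, h⟩ := digits_sys b hb S h0 h1 e he.1 he.2 z0.factorial (Nat.factorial_pos _)
      exact ⟨c, hc, L₀, fun _ _ => h⟩
    · exact ⟨1, one_pos, 0, fun h2 h3 => absurd ⟨h2, h3⟩ he⟩
  choose g hg0 L₀ hg using hex
  obtain ⟨e₀, _, hmin⟩ := exists_min_image (range b) g (nonempty_range_iff.2 (by omega))
  obtain ⟨c₁, hc₁⟩ : ∃ c₁ : ℝ, c₁ = g e₀ := ⟨_, rfl⟩
  have hc₁0 : 0 < c₁ := by
    rw [hc₁]
    exact hg0 e₀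
  obtain ⟨N₁, hN₁⟩ := hlow c₁ hc₁0
  refine ⟨R, η, c₁ / C, N₁ + z0 * (∑ e ∈ range b, L₀ e), hη, by positivity, fun N hN a c hac hsize hadm he => ?_⟩
  obtain ⟨e, heS, heb, hec⟩ := he
  refine hN₁ N (by omega) a c hac hsize ?_
  intro L hL1 hL2
  have hL3 : L₀ e ≤ L := by
    have h2 : L₀ e ≤ ∑ e ∈ range b, L₀ e := single_le_sum (f := L₀) (fun _ _ => Nat.zero_le _) (mem_range.2 heb)
    by_contra hcon
    have h3 : z0 * L < z0 * L₀ e := Nat.mul_lt_mul_of_pos_left (by omega) (by omega)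
    have h4 : z0 * L₀ e ≤ z0 * ∑ e ∈ range b, L₀ e := Nat.mul_le_mul_left _ h2
    omega
  have h2 := hg e heS heb L hL3 (Fin k) (lf a c) (by
    intro i
    rw [lf_eval]
    exact hec i) (by
    intro p hp hpb
    by_contra hcon
    push Not at hcon
    have h3 := hadm p hp hpb
    have h4 : rho a c p = p := by
      unfold rho
      rw [filter_true_of_mem, card_range]
      intro n _
      obtain ⟨i, hi⟩ := hcon n
      rw [lf_eval] at hi
      exact hi.trans (dvd_prod_of_mem _ (mem_univ i))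
    omega)
  simp only [lf_eval] at h2
  refine le_trans ?_ h2
  apply mul_le_mul_of_nonneg_right _ (Nat.cast_nonneg _)
  rw [hc₁]
  exact hmin e (mem_range.2 heb)

end Pool.Agent.Run7.h560.AP
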