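import Pool.Agent.Run7.h560.AP.AutBasic

set_option autoImplicit false

/-!
# Almost prime values of polynomials at the members of automatic sets, uniformly in the polynomials
-/

namespace Pool.Agent.Run7.h560.AP

open Finset Polynomial
open Pool.Agent.R459.Eq
open Pool.Agent.H807R2.Dav
open Pool.Agent.TH872.Mir (Far farCount)
open Pool.Agent.W93.AU
open Pool.Agent.H491R4.AF (mixw mixw_sum mixw_char char_poly cB cB_pos cB_le far_gc)

variable {σ : Type}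

set_option maxHeartbeats 4000000 in
/-- **almost prime values at the members of automatic sets, uniformly** -/
theorem unif_lower [Fintype σ] (b : ℕ) (hb : 2 ≤ b) (M : DFA ℕ σ)
    (hS : ∀ k : ℕ, ∃ᶠ N : ℕ in Filter.atTop, Real.log N ^ k < (cnt b M N (fun _ => True) : ℝ))
    (κ D : ℕ) : ∃ (z0 R : ℕ) (η C : ℝ), 2 ≤ z0 ∧ 0 < η ∧ 0 < C ∧ ∀ c₁ : ℝ, 0 < c₁ → ∃ N₀ : ℕ, ∀ N : ℕ, N₀ ≤ N →
    ∀ (ι : Type) [Fintype ι] (f : ι → ℤ[X]), (∏ i, f i).natDegree ≤ κ →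
    (∀ p : ℕ, p.Prime → z0 < p → ∃ j, ¬ (p : ℤ) ∣ (∏ i, f i).coeff j) →
    (∀ i, ∀ n : ℕ, n ≤ N → ((f i).eval (n : ℤ)).natAbs ≤ N ^ D) →
    (∀ L : ℕ, L ≤ N → N ≤ z0 * L → c₁ * cnt b M L (fun _ => True) ≤
      cnt b M L (fun n => ∀ i, IsCoprime ((f i).eval (n : ℤ)) (z0.factorial : ℤ))) →
      c₁ / C * cnt b M N (fun _ => True) * ∏ p ∈ (range (N + 1)).filter Nat.Prime, (1 - (rt (∏ i, f i) p : ℝ) / p) ≤
      cnt b M N (fun n => ∀ i, (f i).eval (n : ℤ) ≠ 0 ∧ ((f i).eval (n : ℤ)).natAbs.primeFactorsList.length ≤ R ∧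
        ∀ p : ℕ, p.Prime → (p : ℤ) ∣ (f i).eval (n : ℤ) → (N : ℝ) ^ η < p) := by
  classical
  obtain ⟨B, δ, F, s0, κ₀, C, ρ, k, hB2, hρ, hG, hrun⟩ := setup b hb M
    (fun k => (hS k).mono (fun N hN => by
      have e1 : cnt b M N (fun _ => True) = ((range N).filter fun v => Nat.digits b v ∈ M.accepts).card := by
        unfold cnt
        congr 1
        ext v
        simp only [mem_filter, and_true]
      rwa [e1] at hN))
  have hC1 := hG.C1
  have hC0 : 0 < C := by linarith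
  obtain ⟨A₀, hA₀⟩ := unif B hB2 δ F s0 κ₀ C ρ k hG hρ
  obtain ⟨m₁, hm₁⟩ := t0_exists B k hB2 C
  obtain ⟨z₁, hz₁⟩ := fund κ
  obtain ⟨z0, hz0⟩ : ∃ z0, z0 = z₁ + B + 2 := ⟨_, rfl⟩
  obtain ⟨W₀, hW₀⟩ : ∃ W₀, W₀ = z0.factorial := ⟨_, rfl⟩
  have hW₀2 : 2 ≤ W₀ := by
    rw [hW₀]
    have := Nat.self_le_factorial z0
    omega
  obtain ⟨E, hE1, hE⟩ := hz₁ B hB2 ((W₀ + 1) * (A₀ + W₀)) (1 / 2) (by norm_num) (by norm_num) ((k + 2) * B)
  have hpr : ∀ p : ℕ, p.Prime → z0 < p → ¬ p ∣ B ∧ ¬ (p : ℤ) ∣ ((B.factorial : ℤ) * W₀) := by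
    intro p hp hzp
    constructor
    · intro h
      have := Nat.le_of_dvd (by omega) h
      omega
    · intro h
      have h1 : p ∣ B.factorial * W₀ := by exact_mod_cast h
      rcases hp.dvd_mul.1 h1 with h2 | h2
      · have := (hp.dvd_factorial).1 h2
        omega
      · rw [hW₀] at h2
        have := (hp.dvd_factorial).1 h2
        omega
  obtain ⟨k₀, hk₀⟩ := hE z0 (by omega) ((B.factorial : ℤ) * W₀) (by
    have h1 : 0 < B.factorial := B.factorial_pos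
    have h2 : 0 < B.factorial * W₀ := Nat.mul_pos h1 (by omega)
    exact_mod_cast h2.ne') hpr W₀ (by exact_mod_cast (by omega : 1 ≤ W₀))
  refine ⟨z0, (E + 1) * D, 1 / ((E : ℝ) + 1), 2 * C, by omega, by positivity, by positivity, fun c₁ hc₁ => ?_⟩
  obtain ⟨c₂, hc₂⟩ := exists_nat_ge (1 / c₁)
  obtain ⟨m₀, hm₀⟩ : ∃ m₀, m₀ = κ₀ + m₁ + k₀ + c₂ + E + 2 := ⟨_, rfl⟩
  refine ⟨B ^ m₀, fun N hN ι _ f hdeg hprim hsize hloc => ?_⟩
  obtain ⟨Q, hQ⟩ : ∃ Q : ℤ[X], Q = ∏ i, f i := ⟨_, rfl⟩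
  rw [← hQ] at hdeg hprim ⊢
  have hQe : ∀ n : ℤ, Q.eval n = ∏ i, (f i).eval n := fun n => by rw [hQ, eval_prod]
  rw [← hW₀] at hloc
  have hN0 : N ≠ 0 := by
    have : 0 < B ^ m₀ := by positivity
    omega
  obtain ⟨m, hm⟩ : ∃ m, m = Nat.log B N := ⟨_, rfl⟩
  have hm0 : m₀ ≤ m := by
    rw [hm]
    exact Nat.le_log_of_pow_le (by omega) hN
  have hmN : B ^ m ≤ N := by rw [hm]; exact Nat.pow_log_le_self B hN0
  have hNm : N < B ^ (m + 1) := by rw [hm]; exact Nat.lt_pow_succ_log_self (by omega) N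
  obtain ⟨t₀, ht1, ht2⟩ := hm₁ m (by omega)
  obtain ⟨z, hz1, hz2, hz3⟩ := hk₀ m t₀ (by omega) ht2
  have hAcc : ∀ n, Ac B δ F n s0 = cnt b M (B ^ n) (fun _ => True) := by
    intro n
    rw [Ac_eq B (by omega), ← sum_filter, sum_const, nsmul_eq_mul, mul_one]
    unfold cnt
    congr 2
    ext v
    simp only [mem_filter, mem_range, and_true]
    exact ⟨fun h => ⟨h.1, (hrun n v h.1).1 h.2⟩, fun h => ⟨h.1, (hrun n v h.1).2 h.2⟩⟩
  have hpos : 0 < Ac B δ F m s0 := by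
    have h1 := hG.low m (by omega)
    have h2 : 0 < ρ ^ m := by positivity
    by_contra hcon
    push Not at hcon
    have h3 : C * Ac B δ F m s0 ≤ 0 := mul_nonpos_of_nonneg_of_nonpos (by linarith) hcon
    linarith
  have hzB : B ≤ z := by
    by_contra hcon
    push Not at hcon
    have h1 : z ^ E < B ^ E := Nat.pow_lt_pow_left hcon (by omega)
    have h2 : B ^ E ≤ B ^ m := Nat.pow_le_pow_right (by omega) (by omega)
    omega
  have hNz : N ≤ z ^ (E + 1) := by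
    calc N ≤ B ^ (m + 1) := hNm.le
      _ = B ^ m * B := pow_succ _ _
      _ ≤ z ^ E * z := Nat.mul_le_mul hz1 hzB
      _ = _ := (pow_succ _ _).symm
  -- the weights
  have hwn : ∀ i ∈ range (B ^ m), 0 ≤ mixw B δ F s0 m 1 i := by
    intro u _
    unfold mixw
    rw [sub_self, zero_mul, zero_add, one_mul]
    split_ifs
    · positivity
    · exact le_rfl
  have hDk := restrict B hB2 (B.factorial : ℤ) A₀ m t₀ (1 / 2) (range (B ^ m)) (mixw B δ F s0 m 1) (fun u : ℕ => (u : ℤ)) hwn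
    (mixw_sum B hB2 δ F s0 m 1 hpos).le (fun θ n hn hfar => hA₀ m (by omega) hpos t₀ ht1 θ n hn hfar) W₀ W₀ (by omega)
    (Nat.lt_pow_self (by omega)).le (cop f W₀) (cop_per f W₀) (cop_01 f W₀)
  obtain ⟨P, hP⟩ : ∃ P : Finset ℕ, P = (range (z + 1)).filter (fun p => p.Prime ∧ z0 < p) := ⟨_, rfl⟩
  have hPm : ∀ p, p ∈ P ↔ p ≤ z ∧ p.Prime ∧ z0 < p := by
    intro p
    rw [hP, mem_filter, mem_range]
    constructor
    · rintro ⟨h1, h2⟩
      exact ⟨by omega, h2⟩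
    · rintro ⟨h1, h2⟩
      exact ⟨by omega, h2⟩
  have hsum : ∀ (X : ℕ → Prop) [DecidablePred X], ∑ u ∈ (range (B ^ m)).filter X, mixw B δ F s0 m 1 u * cop f W₀ (u : ℤ) =
      (cnt b M (B ^ m) (fun u => cop f W₀ (u : ℤ) = 1 ∧ X u) : ℝ) * (1 / Ac B δ F m s0) := fun X _ =>
    sum_mixw b M B δ F s0 m (hrun m) (cop f W₀) (cop_01 f W₀) X
  have htot : ∑ u ∈ range (B ^ m), mixw B δ F s0 m 1 u * cop f W₀ (u : ℤ) =
      (cnt b M (B ^ m) (fun u => cop f W₀ (u : ℤ) = 1) : ℝ) * (1 / Ac B δ F m s0) := by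
    have h1 := hsum (fun _ => True)
    rw [filter_true_of_mem (s := range (B ^ m)) (p := fun _ => True) (fun _ _ => trivial)] at h1
    rw [h1]
    congr 2
    unfold cnt
    congr 1
    ext u
    simp only [mem_filter, and_true]
  have hloc1 : c₁ * cnt b M (B ^ m) (fun _ => True) ≤ cnt b M (B ^ m) (fun u => cop f W₀ (u : ℤ) = 1) := by
    refine (hloc (B ^ m) hmN ?_).trans ?_
    · calc N ≤ B ^ (m + 1) := hNm.le
        _ = B * B ^ m := by rw [pow_succ, mul_comm]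
        _ ≤ z0 * B ^ m := Nat.mul_le_mul_right _ (by omega)
    rw [Nat.cast_le]
    apply cnt_mono b M le_rfl
    intro v _ hv
    exact (cop_one f W₀ v).2 hv
  have hmr : (0 : ℝ) < m := by exact_mod_cast (by omega : 0 < m)
  have hfund := hz3 (range (B ^ m)) (fun u => mixw B δ F s0 m 1 u * cop f W₀ (u : ℤ)) (fun u : ℕ => (u : ℤ)) (by
      intro u hu
      apply mul_nonneg (hwn u hu)
      rcases cop_01 f W₀ (u : ℤ) with h | h <;> rw [h]
      norm_num) (by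
      rw [htot, mul_one_div, le_div_iff₀ hpos, hAcc m]
      refine le_trans ?_ hloc1
      apply mul_le_mul_of_nonneg_right _ (Nat.cast_nonneg _)
      rw [div_le_iff₀ hmr]
      have h1 : 1 / c₁ ≤ m := hc₂.trans (by exact_mod_cast (by omega : c₂ ≤ m))
      rw [div_le_iff₀ hc₁] at h1
      linarith) hDk P (fun p hp => by
        rw [hPm] at hp
        exact ⟨hp.2.1, hp.2.2, hp.1⟩) (fun p => fd Q p) (fun p _ => fd_per Q p) (fun p _ n => fd_01 Q p n) (by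
        intro p hp
        rw [hPm] at hp
        rw [fd_mean]
        apply div_le_div_of_nonneg_right _ (Nat.cast_nonneg _)
        rw [Nat.cast_le]
        exact (rt_le' Q p hp.2.1 (hprim p hp.2.1 hp.2.2)).trans hdeg)
  obtain ⟨hlow, _⟩ := hfund
  rw [htot, hsum] at hlow
  have hprod : ∏ p ∈ P, (1 - mean p (fd Q p)) = ∏ p ∈ P, (1 - (rt Q p : ℝ) / p) := by
    apply prod_congr rfl
    intro p _
    rw [fd_mean]
  rw [hprod] at hlow
  have hfac : ∀ p ∈ (range (N + 1)).filter Nat.Prime, 0 ≤ 1 - (rt Q p : ℝ) / p ∧ 1 - (rt Q p : ℝ) / p ≤ 1 := by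
    intro p hp
    have hp0 : (0 : ℝ) < p := by exact_mod_cast (mem_filter.1 hp).2.pos
    constructor
    · rw [sub_nonneg, div_le_one hp0]
      exact_mod_cast rt_le_self Q p
    · have : 0 ≤ (rt Q p : ℝ) / p := by positivity
      linarith
  have hPN : P ⊆ (range (N + 1)).filter Nat.Prime := by
    intro p hp
    rw [hPm] at hp
    rw [mem_filter, mem_range]
    exact ⟨by omega, hp.2.1⟩
  have hdrop := prod_drop _ P hPN (fun p => 1 - (rt Q p : ℝ) / p) (fun p hp => (hfac p hp).1) (fun p hp => (hfac p hp).2)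
  have hall0 : 0 ≤ ∏ p ∈ (range (N + 1)).filter Nat.Prime, (1 - (rt Q p : ℝ) / p) := prod_nonneg fun p hp => (hfac p hp).1
  have hlow2 : 1 / 2 * (cnt b M (B ^ m) (fun u => cop f W₀ (u : ℤ) = 1) * ∏ p ∈ P, (1 - (rt Q p : ℝ) / p)) ≤
      cnt b M (B ^ m) (fun u => cop f W₀ (u : ℤ) = 1 ∧ ∀ p ∈ P, fd Q p (u : ℤ) = 0) := by
    have h1 := mul_le_mul_of_nonneg_right hlow hpos.le
    calc 1 / 2 * ((cnt b M (B ^ m) (fun u => cop f W₀ (u : ℤ) = 1) : ℝ) * ∏ p ∈ P, (1 - (rt Q p : ℝ) / p)) =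
        1 / 2 * ((cnt b M (B ^ m) (fun u => cop f W₀ (u : ℤ) = 1) : ℝ) * (1 / Ac B δ F m s0) *
          ∏ p ∈ P, (1 - (rt Q p : ℝ) / p)) * Ac B δ F m s0 := by field_simp
      _ ≤ (cnt b M (B ^ m) (fun u => cop f W₀ (u : ℤ) = 1 ∧ ∀ p ∈ P, fd Q p (u : ℤ) = 0) : ℝ) *
          (1 / Ac B δ F m s0) * Ac B δ F m s0 := h1
      _ = _ := by field_simp
  have hstep : (cnt b M N (fun _ => True) : ℝ) ≤ C * cnt b M (B ^ m) (fun _ => True) := by
    rw [← hAcc m]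
    refine le_trans ?_ (hG.step m (by omega) s0)
    rw [hAcc (m + 1), Nat.cast_le]
    exact cnt_mono b M hNm.le (fun _ _ h => h)
  have hfinal : cnt b M (B ^ m) (fun u => cop f W₀ (u : ℤ) = 1 ∧ ∀ p ∈ P, fd Q p (u : ℤ) = 0) ≤
      cnt b M N (fun n => ∀ i, (f i).eval (n : ℤ) ≠ 0 ∧
        ((f i).eval (n : ℤ)).natAbs.primeFactorsList.length ≤ (E + 1) * D ∧
        ∀ p : ℕ, p.Prime → (p : ℤ) ∣ (f i).eval (n : ℤ) → (N : ℝ) ^ (1 / ((E : ℝ) + 1)) < p) := by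
    apply cnt_mono b M hmN
    rintro u hu ⟨h1, h2⟩ i
    have h3 := (cop_one f W₀ u).1 h1 i
    have h4 : ∀ p : ℕ, p.Prime → (p : ℤ) ∣ (f i).eval (u : ℤ) → z < p := by
      intro p hp hpd
      by_contra hcon
      push Not at hcon
      by_cases hpz : p ≤ z0
      · have h5 : (p : ℤ) ∣ (W₀ : ℤ) := by
          rw [hW₀]
          exact_mod_cast (hp.dvd_factorial).2 hpz
        have h6 := h3.isUnit_of_dvd' hpd h5
        rw [Int.isUnit_iff] at h6
        have := hp.two_le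
        omega
      · have h5 : p ∈ P := (hPm p).2 ⟨hcon, hp, by omega⟩
        have h6 := (fd_eq_zero Q p u).1 (h2 p h5)
        apply h6
        rw [hQe]
        exact hpd.trans (dvd_prod_of_mem _ (mem_univ i))
    have h5 : (f i).eval (u : ℤ) ≠ 0 := by
      intro h0
      rw [h0, isCoprime_zero_left, Int.isUnit_iff] at h3
      omega
    refine ⟨h5, ?_, fun p hp hpd => ?_⟩
    · apply few_factors _ z _ (Int.natAbs_ne_zero.2 h5) (by omega)
      · intro p hp hpd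
        exact h4 p hp (Int.natCast_dvd.2 hpd)
      · calc ((f i).eval (u : ℤ)).natAbs ≤ N ^ D := hsize i u (by omega)
          _ ≤ (z ^ (E + 1)) ^ D := Nat.pow_le_pow_left hNz D
          _ = _ := by rw [← pow_mul]
    · have h6 : (z : ℝ) < p := by exact_mod_cast h4 p hp hpd
      refine lt_of_le_of_lt ?_ h6
      have h7 : (N : ℝ) ≤ (z : ℝ) ^ (E + 1) := by exact_mod_cast hNz
      calc (N : ℝ) ^ (1 / ((E : ℝ) + 1)) ≤ ((z : ℝ) ^ (E + 1)) ^ (1 / ((E : ℝ) + 1)) :=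
            Real.rpow_le_rpow (Nat.cast_nonneg _) h7 (by positivity)
        _ = z := by
            rw [← Real.rpow_natCast, ← Real.rpow_mul (Nat.cast_nonneg _)]
            push_cast
            rw [mul_one_div_cancel (by positivity), Real.rpow_one]
  calc c₁ / (2 * C) * cnt b M N (fun _ => True) * ∏ p ∈ (range (N + 1)).filter Nat.Prime, (1 - (rt Q p : ℝ) / p) ≤
      c₁ / (2 * C) * (C * cnt b M (B ^ m) (fun _ => True)) * ∏ p ∈ (range (N + 1)).filter Nat.Prime, (1 - (rt Q p : ℝ) / p) := by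
        apply mul_le_mul_of_nonneg_right _ hall0
        exact mul_le_mul_of_nonneg_left hstep (by positivity)
    _ = 1 / 2 * ((c₁ * cnt b M (B ^ m) (fun _ => True)) * ∏ p ∈ (range (N + 1)).filter Nat.Prime, (1 - (rt Q p : ℝ) / p)) := by
        field_simp
    _ ≤ 1 / 2 * (cnt b M (B ^ m) (fun u => cop f W₀ (u : ℤ) = 1) * ∏ p ∈ P, (1 - (rt Q p : ℝ) / p)) := by
        apply mul_le_mul_of_nonneg_left _ (by norm_num)
        exact mul_le_mul hloc1 hdrop hall0 (Nat.cast_nonneg _)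
    _ ≤ _ := hlow2
    _ ≤ _ := by exact_mod_cast hfinal

end Pool.Agent.Run7.h560.AP
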