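import Pool.Agent.Run7.h560.AP.Unif

set_option autoImplicit false

/-!
# Upper bounds of the right order of magnitude
-/

namespace Pool.Agent.Run7.h560.AP

open Finset Polynomial
open Pool.Agent.R459.Eq
open Pool.Agent.H807R2.Dav
open Pool.Agent.TH872.Mir (Far farCount)
open Pool.Agent.W93.AU
open Pool.Agent.H491R4.AF (mixw mixw_sum mixw_char char_poly cB cB_pos cB_le far_gc)

variable {σ : Type}

/-- the reciprocals of the primes between `y` and a power of `y` -/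
lemma sum_inv2 : ∃ K : ℝ, 0 < K ∧ ∀ y h N : ℕ, 2 ≤ y → 1 ≤ h → N ≤ y ^ h → ∀ P : Finset ℕ,
    (∀ p ∈ P, p.Prime ∧ y < p ∧ p ≤ N) → ∑ p ∈ P, (1 : ℝ) / p ≤ K * (h + 1) := by
  classical
  obtain ⟨C0, hC0, hM⟩ := Pool.Agent.Helper112.LP.mertens_group
  refine ⟨1 + C0, by positivity, fun y h N hy hh hN P hP => ?_⟩
  have hG : ∀ j, 1 ≤ j → ∑ l ∈ Pool.Agent.Helper112.LP.Gj j, (1 : ℝ) / l ≤ 1 + C0 := by
    intro j hj
    have h1 := (abs_le.1 (hM j hj)).2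
    have h2 : C0 / 2 ^ j ≤ C0 := div_le_self hC0.le (one_le_pow₀ (by norm_num))
    have h3 : Real.log 2 ≤ 1 := by have := Real.log_two_lt_d9; linarith
    linarith
  obtain ⟨n, hn⟩ : ∃ n, n = Nat.log 2 y := ⟨_, rfl⟩
  obtain ⟨J, hJ⟩ : ∃ J, J = Nat.log 2 n := ⟨_, rfl⟩
  have hn1 : 1 ≤ n := by rw [hn]; exact Nat.le_log_of_pow_le (by norm_num) (by simpa using hy)
  have hJ1 : 2 ^ J ≤ n := by rw [hJ]; exact Nat.pow_log_le_self 2 (by omega)
  have hJ2 : n < 2 ^ (J + 1) := by rw [hJ]; exact Nat.lt_pow_succ_log_self (by norm_num) n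
  have hy1 : 2 ^ n ≤ y := by rw [hn]; exact Nat.pow_log_le_self 2 (by omega)
  have hy2 : y < 2 ^ (n + 1) := by rw [hn]; exact Nat.lt_pow_succ_log_self (by norm_num) y
  have hlo : 2 ^ 2 ^ J ≤ y := (Nat.pow_le_pow_right (by norm_num) hJ1).trans hy1
  have hhi : N < 2 ^ 2 ^ (J + 1 + h) := by
    calc N ≤ y ^ h := hN
      _ < (2 ^ (n + 1)) ^ h := Nat.pow_lt_pow_left hy2 (by omega)
      _ = 2 ^ ((n + 1) * h) := by rw [← pow_mul]
      _ ≤ 2 ^ (2 ^ (J + 1) * 2 ^ h) := Nat.pow_le_pow_right (by norm_num)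
          (Nat.mul_le_mul hJ2 Nat.lt_two_pow_self.le)
      _ = _ := by rw [← pow_add]
  have hsub : P ⊆ (Icc (J + 1) (J + 1 + h)).biUnion (fun j => Pool.Agent.Helper112.LP.Gj j) := by
    intro p hp
    obtain ⟨h1, h2, h2'⟩ := hP p hp
    have h3 : p < 2 ^ 2 ^ (J + 1 + h) := by omega
    have hex : ∃ j, p < 2 ^ 2 ^ j := ⟨_, h3⟩
    obtain ⟨j, hj⟩ : ∃ j, j = Nat.find hex := ⟨_, rfl⟩
    have h4 : p < 2 ^ 2 ^ j := by rw [hj]; exact Nat.find_spec hex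
    have h5 : j ≤ J + 1 + h := by rw [hj]; exact Nat.find_min' hex h3
    have h6 : J + 1 ≤ j := by
      by_contra hcon
      have h7 : 2 ^ 2 ^ j ≤ 2 ^ 2 ^ J := Nat.pow_le_pow_right (by norm_num) (Nat.pow_le_pow_right (by norm_num) (by omega))
      omega
    have h7 : 2 ^ 2 ^ (j - 1) ≤ p := by
      by_contra hcon
      have h8 : j - 1 < Nat.find hex := by rw [← hj]; omega
      have := Nat.find_min hex h8
      omega
    rw [mem_biUnion]
    refine ⟨j, mem_Icc.2 ⟨h6, h5⟩, ?_⟩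
    unfold Pool.Agent.Helper112.LP.Gj
    rw [mem_filter, mem_Ico]
    exact ⟨⟨h7, h4⟩, h1⟩
  calc ∑ p ∈ P, (1 : ℝ) / p ≤ ∑ p ∈ (Icc (J + 1) (J + 1 + h)).biUnion (fun j => Pool.Agent.Helper112.LP.Gj j), (1 : ℝ) / p := by
        apply sum_le_sum_of_subset_of_nonneg hsub
        intro _ _ _
        positivity
    _ ≤ ∑ j ∈ Icc (J + 1) (J + 1 + h), ∑ p ∈ Pool.Agent.Helper112.LP.Gj j, (1 : ℝ) / p :=
        sum_biUnion_le' _ _ _ (fun x => by positivity)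
    _ ≤ ∑ _j ∈ Icc (J + 1) (J + 1 + h), (1 + C0) := sum_le_sum fun j hj => hG j (by have := (mem_Icc.1 hj).1; omega)
    _ = _ := by
        rw [sum_const, nsmul_eq_mul, Nat.card_Icc]
        have : J + 1 + h + 1 - (J + 1) = h + 1 := by omega
        rw [this]
        push_cast
        ring

lemma root_exists (N h : ℕ) (hh : 1 ≤ h) : ∃ y : ℕ, y ^ h ≤ N ∧ N < (y + 1) ^ h := by
  have hex : ∃ t, N < t ^ h := ⟨N + 1, lt_of_lt_of_le (Nat.lt_succ_self N) (Nat.le_self_pow (by omega) _)⟩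
  obtain ⟨t, ht⟩ : ∃ t, t = Nat.find hex := ⟨_, rfl⟩
  have h1 : N < t ^ h := by rw [ht]; exact Nat.find_spec hex
  have h2 : 1 ≤ t := by
    by_contra hcon
    have h3 : t = 0 := by omega
    rw [h3, zero_pow (by omega)] at h1
    omega
  refine ⟨t - 1, ?_, ?_⟩
  · by_contra hcon
    have h3 : t - 1 < Nat.find hex := by rw [← ht]; omega
    have := Nat.find_min hex h3
    omega
  · rw [Nat.sub_add_cancel h2]
    exact h1

set_option maxHeartbeats 4000000 in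
/-- **the upper bound at the members of automatic sets, uniformly** -/
theorem unif_upper [Fintype σ] (b : ℕ) (hb : 2 ≤ b) (M : DFA ℕ σ)
    (hS : ∀ k : ℕ, ∃ᶠ N : ℕ in Filter.atTop, Real.log N ^ k < (cnt b M N (fun _ => True) : ℝ))
    (κ : ℕ) : ∃ z0 : ℕ, ∀ h : ℕ, 1 ≤ h → ∃ (C : ℝ) (N₀ : ℕ), 0 < C ∧ ∀ N : ℕ, N₀ ≤ N →
    ∀ (ι : Type) [Fintype ι] (f : ι → ℤ[X]), (∏ i, f i).natDegree ≤ κ →
    (∀ p : ℕ, p.Prime → z0 < p → ∃ j, ¬ (p : ℤ) ∣ (∏ i, f i).coeff j) →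
      (cnt b M N (fun n => ∀ i, ∀ p : ℕ, p.Prime → (p : ℤ) ∣ (f i).eval (n : ℤ) → N < p ^ h) : ℝ) ≤
      C * cnt b M N (fun _ => True) * ∏ p ∈ (range (N + 1)).filter (fun p => p.Prime ∧ z0 < p), (1 - (rt (∏ i, f i) p : ℝ) / p) := by
  classical
  obtain ⟨B, δ, F, s0, κ₀, C, ρ, k, hB2, hρ, hG, hrun⟩ := setup b hb M
    (fun k => (hS k).mono (fun N hN => by
      have e1 : cnt b M N (fun _ => True) = ((range N).filter fun v => Nat.digits b v ∈ M.accepts).card := by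
        unfold cnt
        congr 1
        ext v
        simp only [mem_filter, and_true]
      rwa [e1] at hN))
  have hC1 := hG.C1
  have hC0 : 0 < C := by linarith
  obtain ⟨A₀, hA₀⟩ := unif B hB2 δ F s0 κ₀ C ρ k hG hρ
  obtain ⟨m₁, hm₁⟩ := t0_exists B k hB2 C
  obtain ⟨z₁, hz₁⟩ := fund κ
  obtain ⟨K, hK0, hK⟩ := sum_inv2
  obtain ⟨z0, hz0⟩ : ∃ z0, z0 = z₁ + B + 2 * κ + 2 := ⟨_, rfl⟩
  refine ⟨z0, fun h hh => ?_⟩
  obtain ⟨E, hE1, hE⟩ := hz₁ B hB2 ((0 + 1) * (A₀ + 0)) (1 / 2) (by norm_num) (by norm_num) ((k + 2) * B)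
  have hpr : ∀ p : ℕ, p.Prime → z0 < p → ¬ p ∣ B ∧ ¬ (p : ℤ) ∣ ((B.factorial : ℤ) * (1 : ℕ)) := by
    intro p hp hzp
    constructor
    · intro h
      have := Nat.le_of_dvd (by omega) h
      omega
    · intro h
      have h1 : p ∣ B.factorial * 1 := by exact_mod_cast h
      rw [mul_one] at h1
      have := (hp.dvd_factorial).1 h1
      omega
  obtain ⟨k₀, hk₀⟩ := hE z0 (by omega) ((B.factorial : ℤ) * (1 : ℕ)) (by
    have h1 : 0 < B.factorial := B.factorial_pos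
    have h2 : 0 < B.factorial * 1 := Nat.mul_pos h1 (by omega)
    exact_mod_cast h2.ne') hpr ((1 : ℕ) : ℝ) (by norm_num)
  obtain ⟨m₀, hm₀⟩ : ∃ m₀, m₀ = κ₀ + m₁ + k₀ + E + 2 := ⟨_, rfl⟩
  refine ⟨2 * C * Real.exp (2 * κ * (K * ((E + 2 * h : ℕ) + 1))), B ^ m₀ + 3 ^ h, by positivity,
    fun N hN ι _ f hdeg hprim => ?_⟩
  obtain ⟨Q, hQ⟩ : ∃ Q : ℤ[X], Q = ∏ i, f i := ⟨_, rfl⟩
  rw [← hQ] at hdeg hprim ⊢
  have hQe : ∀ n : ℤ, Q.eval n = ∏ i, (f i).eval n := fun n => by rw [hQ, eval_prod]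
  have h3h : 0 < 3 ^ h := by positivity
  have hN0 : N ≠ 0 := by
    have : 0 < B ^ m₀ := by positivity
    omega
  obtain ⟨m, hm⟩ : ∃ m, m = Nat.log B N := ⟨_, rfl⟩
  have hm0 : m₀ ≤ m := by
    rw [hm]
    exact Nat.le_log_of_pow_le (by omega) (by omega)
  have hmN : B ^ m ≤ N := by rw [hm]; exact Nat.pow_log_le_self B hN0
  have hNm : N < B ^ (m + 1) := by rw [hm]; exact Nat.lt_pow_succ_log_self (by omega) N
  obtain ⟨t₀, ht1, ht2⟩ := hm₁ (m + 1) (by omega)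
  obtain ⟨z, hz1, hz2, hz3⟩ := hk₀ (m + 1) t₀ (by omega) ht2
  have hAcc : ∀ n, Ac B δ F n s0 = cnt b M (B ^ n) (fun _ => True) := by
    intro n
    rw [Ac_eq B (by omega), ← sum_filter, sum_const, nsmul_eq_mul, mul_one]
    unfold cnt
    congr 2
    ext v
    simp only [mem_filter, mem_range, and_true]
    exact ⟨fun h => ⟨h.1, (hrun n v h.1).1 h.2⟩, fun h => ⟨h.1, (hrun n v h.1).2 h.2⟩⟩
  have hpos : 0 < Ac B δ F (m + 1) s0 := by
    have h1 := hG.low (m + 1) (by omega)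
    have h2 : 0 < ρ ^ (m + 1) := by positivity
    by_contra hcon
    push Not at hcon
    have h3 : C * Ac B δ F (m + 1) s0 ≤ 0 := mul_nonpos_of_nonneg_of_nonpos (by linarith) hcon
    linarith
  have hzB : B ≤ z := by
    by_contra hcon
    push Not at hcon
    have h1 : z ^ E < B ^ E := Nat.pow_lt_pow_left hcon (by omega)
    have h2 : B ^ E ≤ B ^ (m + 1) := Nat.pow_le_pow_right (by omega) (by omega)
    omega
  -- the range of the primes
  obtain ⟨y₁, hy1, hy2⟩ := root_exists N h hh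
  have hy3 : 2 ≤ y₁ := by
    by_contra hcon
    have h1 : (y₁ + 1) ^ h ≤ 3 ^ h := Nat.pow_le_pow_left (by omega) h
    have : 0 < B ^ m₀ := by positivity
    omega
  obtain ⟨y, hy⟩ : ∃ y, y = min z y₁ := ⟨_, rfl⟩
  have hyz : y ≤ z := by rw [hy]; exact min_le_left _ _
  have hyy : y ≤ y₁ := by rw [hy]; exact min_le_right _ _
  have hy2' : 2 ≤ y := by rw [hy]; exact le_min (by omega) hy3
  have hNy : N ≤ y ^ (E + 2 * h) := by
    have e1 : N ≤ z ^ (E + 2 * h) := by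
      calc N ≤ z ^ E := hNm.le.trans hz1
        _ ≤ z ^ (E + 2 * h) := Nat.pow_le_pow_right (by omega) (by omega)
    have e2 : N ≤ y₁ ^ (E + 2 * h) := by
      calc N ≤ (y₁ + 1) ^ h := hy2.le
        _ ≤ (y₁ ^ 2) ^ h := Nat.pow_le_pow_left (by nlinarith) h
        _ = y₁ ^ (2 * h) := by rw [← pow_mul]
        _ ≤ y₁ ^ (E + 2 * h) := Nat.pow_le_pow_right (by omega) (by omega)
    rcases min_choice z y₁ with h1 | h1
    · rw [hy, h1]; exact e1
    · rw [hy, h1]; exact e2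
  -- the weights
  have hwn : ∀ i ∈ range (B ^ (m + 1)), 0 ≤ mixw B δ F s0 (m + 1) 1 i := by
    intro u _
    unfold mixw
    rw [sub_self, zero_mul, zero_add, one_mul]
    split_ifs
    · positivity
    · exact le_rfl
  have hDk := restrict B hB2 (B.factorial : ℤ) A₀ (m + 1) t₀ (1 / 2) (range (B ^ (m + 1))) (mixw B δ F s0 (m + 1) 1)
    (fun u : ℕ => (u : ℤ)) hwn (mixw_sum B hB2 δ F s0 (m + 1) 1 hpos).le
    (fun θ n hn hfar => hA₀ (m + 1) (by omega) hpos t₀ ht1 θ n hn hfar) 1 0 le_rfl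
    (by simp) (fun _ => 1) (fun _ _ _ => rfl) (fun _ => Or.inr rfl)
  obtain ⟨P, hP⟩ : ∃ P : Finset ℕ, P = (range (y + 1)).filter (fun p => p.Prime ∧ z0 < p) := ⟨_, rfl⟩
  have hPm : ∀ p, p ∈ P ↔ p ≤ y ∧ p.Prime ∧ z0 < p := by
    intro p
    rw [hP, mem_filter, mem_range]
    constructor
    · rintro ⟨h1, h2⟩
      exact ⟨by omega, h2⟩
    · rintro ⟨h1, h2⟩
      exact ⟨by omega, h2⟩
  have hsum : ∀ (X : ℕ → Prop) [DecidablePred X], ∑ u ∈ (range (B ^ (m + 1))).filter X, mixw B δ F s0 (m + 1) 1 u * (fun _ : ℤ => (1 : ℝ)) (u : ℤ) =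
      (cnt b M (B ^ (m + 1)) (fun u => (fun _ : ℤ => (1 : ℝ)) (u : ℤ) = 1 ∧ X u) : ℝ) * (1 / Ac B δ F (m + 1) s0) := fun X _ =>
    sum_mixw b M B δ F s0 (m + 1) (hrun (m + 1)) (fun _ => 1) (fun _ => Or.inr rfl) X
  have htot : ∑ u ∈ range (B ^ (m + 1)), mixw B δ F s0 (m + 1) 1 u * (fun _ : ℤ => (1 : ℝ)) (u : ℤ) = 1 := by
    simp only [mul_one]
    exact mixw_sum B hB2 δ F s0 (m + 1) 1 hpos
  have hmr : (1 : ℝ) ≤ ((m + 1 : ℕ) : ℝ) := by exact_mod_cast (by omega : 1 ≤ m + 1)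
  have hrt : ∀ p : ℕ, p.Prime → z0 < p → (rt Q p : ℝ) / p ≤ κ / p := by
    intro p hp hzp
    apply div_le_div_of_nonneg_right _ (Nat.cast_nonneg _)
    rw [Nat.cast_le]
    exact (rt_le' Q p hp (hprim p hp hzp)).trans hdeg
  have hfund := hz3 (range (B ^ (m + 1))) (fun u => mixw B δ F s0 (m + 1) 1 u * (fun _ : ℤ => (1 : ℝ)) (u : ℤ)) (fun u : ℕ => (u : ℤ)) (by
      intro u hu
      simp only [mul_one]
      exact hwn u hu) (by
      rw [htot, div_le_one (by linarith)]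
      exact hmr) hDk P (fun p hp => by
        rw [hPm] at hp
        exact ⟨hp.2.1, hp.2.2, by omega⟩) (fun p => fd Q p) (fun p _ => fd_per Q p) (fun p _ n => fd_01 Q p n) (by
        intro p hp
        rw [hPm] at hp
        rw [fd_mean]
        exact hrt p hp.2.1 hp.2.2)
  obtain ⟨_, hup⟩ := hfund
  rw [htot, hsum, one_mul] at hup
  have hprod : ∏ p ∈ P, (1 - mean p (fd Q p)) = ∏ p ∈ P, (1 - (rt Q p : ℝ) / p) := by
    apply prod_congr rfl
    intro p _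
    rw [fd_mean]
  rw [hprod, mul_one_div, div_le_iff₀ hpos] at hup
  -- the comparison of the products
  obtain ⟨S, hSd⟩ : ∃ S : Finset ℕ, S = (range (N + 1)).filter (fun p => p.Prime ∧ z0 < p) := ⟨_, rfl⟩
  rw [← hSd]
  have hSm : ∀ p, p ∈ S ↔ p ≤ N ∧ p.Prime ∧ z0 < p := by
    intro p
    rw [hSd, mem_filter, mem_range]
    constructor
    · rintro ⟨h1, h2⟩
      exact ⟨by omega, h2⟩
    · rintro ⟨h1, h2⟩
      exact ⟨by omega, h2⟩
  have hyN : y ≤ N := by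
    refine hyy.trans (le_trans ?_ hy1)
    exact Nat.le_self_pow (by omega) _
  have hPS : P ⊆ S := by
    intro p hp
    rw [hPm] at hp
    rw [hSm]
    exact ⟨by omega, hp.2⟩
  have hκp : ∀ p : ℕ, z0 < p → (κ : ℝ) / p ≤ 1 / 2 := by
    intro p hp
    have h1 : (2 * κ : ℝ) ≤ p := by exact_mod_cast (by omega : 2 * κ ≤ p)
    have h3 : (0 : ℝ) < p := by exact_mod_cast (by omega : 0 < p)
    rw [div_le_iff₀ h3]
    linarith
  have hκ0 : (0 : ℝ) ≤ κ := Nat.cast_nonneg _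
  have hrest : Real.exp (-(2 * κ * (K * ((E + 2 * h : ℕ) + 1)))) ≤ ∏ p ∈ S \ P, (1 - (rt Q p : ℝ) / p) := by
    have h1 := hK y (E + 2 * h) N hy2' (by omega) hNy (S \ P) (by
      intro p hp
      rw [mem_sdiff, hSm, hPm] at hp
      refine ⟨hp.1.2.1, ?_, hp.1.1⟩
      by_contra hcon
      exact hp.2 ⟨by omega, hp.1.2⟩)
    calc Real.exp (-(2 * κ * (K * ((E + 2 * h : ℕ) + 1)))) ≤ Real.exp (-(2 * κ * ∑ p ∈ S \ P, (1 : ℝ) / p)) := by
          apply Real.exp_le_exp.2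
          have := mul_le_mul_of_nonneg_left h1 (by positivity : 0 ≤ 2 * (κ : ℝ))
          linarith
      _ = ∏ p ∈ S \ P, Real.exp (-(2 * (κ / p))) := by
          rw [mul_sum, ← sum_neg_distrib, Real.exp_sum]
          apply prod_congr rfl
          intro p _
          congr 1
          ring
      _ ≤ _ := by
          apply prod_le_prod
          · intro p _
            exact (Real.exp_pos _).le
          · intro p hp
            rw [mem_sdiff, hSm] at hp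
            have h2 := one_sub_ge_exp (div_nonneg hκ0 (Nat.cast_nonneg p)) (hκp p hp.1.2.2)
            have h3 := hrt p hp.1.2.1 hp.1.2.2
            linarith
  have hfac : ∀ p ∈ S, 0 ≤ 1 - (rt Q p : ℝ) / p := by
    intro p hp
    rw [hSm] at hp
    have h2 := hκp p hp.2.2
    have h3 := hrt p hp.2.1 hp.2.2
    linarith
  have hPpos : 0 ≤ ∏ p ∈ P, (1 - (rt Q p : ℝ) / p) := prod_nonneg fun p hp => hfac p (hPS hp)
  have hcomp : ∏ p ∈ P, (1 - (rt Q p : ℝ) / p) ≤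
      Real.exp (2 * κ * (K * ((E + 2 * h : ℕ) + 1))) * ∏ p ∈ S, (1 - (rt Q p : ℝ) / p) := by
    rw [← prod_sdiff hPS]
    calc ∏ p ∈ P, (1 - (rt Q p : ℝ) / p) = Real.exp (2 * κ * (K * ((E + 2 * h : ℕ) + 1))) *
          (Real.exp (-(2 * κ * (K * ((E + 2 * h : ℕ) + 1)))) * ∏ p ∈ P, (1 - (rt Q p : ℝ) / p)) := by
          rw [← mul_assoc, ← Real.exp_add, add_neg_cancel, Real.exp_zero, one_mul]
      _ ≤ _ := by
          apply mul_le_mul_of_nonneg_left _ (Real.exp_pos _).le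
          exact mul_le_mul_of_nonneg_right hrest hPpos
  have hstep : Ac B δ F (m + 1) s0 ≤ C * cnt b M N (fun _ => True) := by
    refine (hG.step m (by omega) s0).trans ?_
    apply mul_le_mul_of_nonneg_left _ hC0.le
    rw [hAcc m, Nat.cast_le]
    exact cnt_mono b M hmN (fun _ _ h => h)
  have hfinal : cnt b M N (fun n => ∀ i, ∀ p : ℕ, p.Prime → (p : ℤ) ∣ (f i).eval (n : ℤ) → N < p ^ h) ≤
      cnt b M (B ^ (m + 1)) (fun u => (fun _ : ℤ => (1 : ℝ)) (u : ℤ) = 1 ∧ ∀ p ∈ P, fd Q p (u : ℤ) = 0) := by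
    apply cnt_mono b M hNm.le
    intro u _ hu
    refine ⟨rfl, fun p hp => ?_⟩
    rw [hPm] at hp
    rw [fd_eq_zero, hQe]
    intro hdvd
    obtain ⟨i, _, hi⟩ := (Nat.prime_iff_prime_int.1 hp.2.1).dvd_finset_prod_iff _ |>.1 hdvd
    have h1 := hu i p hp.2.1 hi
    have h2 : p ^ h ≤ y₁ ^ h := Nat.pow_le_pow_left (by omega) h
    omega
  calc (cnt b M N (fun n => ∀ i, ∀ p : ℕ, p.Prime → (p : ℤ) ∣ (f i).eval (n : ℤ) → N < p ^ h) : ℝ) ≤
      cnt b M (B ^ (m + 1)) (fun u => (fun _ : ℤ => (1 : ℝ)) (u : ℤ) = 1 ∧ ∀ p ∈ P, fd Q p (u : ℤ) = 0) := by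
        exact_mod_cast hfinal
    _ ≤ 2 * (∏ p ∈ P, (1 - (rt Q p : ℝ) / p)) * Ac B δ F (m + 1) s0 := hup
    _ ≤ 2 * (Real.exp (2 * κ * (K * ((E + 2 * h : ℕ) + 1))) * ∏ p ∈ S, (1 - (rt Q p : ℝ) / p)) *
        (C * cnt b M N (fun _ => True)) := by
        apply mul_le_mul _ hstep hpos.le
        · exact mul_nonneg (by norm_num) (mul_nonneg (Real.exp_pos _).le (prod_nonneg fun p hp => hfac p hp))
        · exact mul_le_mul_of_nonneg_left hcomp (by norm_num)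
    _ = _ := by ring

end Pool.Agent.Run7.h560.AP
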